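import Mathlib

/-!
Buildings as sets with a distance function with values in a Coxeter group.
-/

namespace Pool.Agent.Helper74.Idem.BuildingDefs

variable {B W C : Type*} [Group W] {M : CoxeterMatrix B}

/-- `δ : C → C → W` is the distance function of a building of type `(W, S)` with set of chambers
`C`: the axioms (WD1), (WD2), (WD3) of Abramenko and Brown. -/
structure IsBuilding (cs : CoxeterSystem M W) (δ : C → C → W) : Prop where
  /-- the distance is trivial only between equal chambers -/
  wd1 : ∀ x y, δ x y = 1 ↔ x = y
  /-- if `δ x' x = s` then `δ x' y` is `s * δ x y` or `δ x y`, and it is `s * δ x y` if this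
  element is longer than `δ x y` -/
  wd2 : ∀ x x' y i, δ x' x = cs.simple i →
    (δ x' y = cs.simple i * δ x y ∨ δ x' y = δ x y) ∧
      (cs.length (cs.simple i * δ x y) = cs.length (δ x y) + 1 → δ x' y = cs.simple i * δ x y)
  /-- for each simple reflection `s` there is `x'` with `δ x' x = s` and `δ x' y = s * δ x y` -/
  wd3 : ∀ x y i, ∃ x', δ x' x = cs.simple i ∧ δ x' y = cs.simple i * δ x y

lemma IsBuilding.symm_simple {cs : CoxeterSystem M W} {δ : C → C → W} (h : IsBuilding cs δ)
    {x y : C} {i : B} (hxy : δ x y = cs.simple i) : δ y x = cs.simple i := by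
  obtain ⟨x', h1, h2⟩ := h.wd3 x y i
  rw [hxy, cs.simple_mul_simple_self] at h2
  rw [(h.wd1 x' y).mp h2] at h1
  exact h1

/-- The relation of `i`-adjacency on the chambers: `x` and `y` are equal or have distance
`s_i`. -/
def adjacency {cs : CoxeterSystem M W} {δ : C → C → W} (h : IsBuilding cs δ) (i : B) :
    Setoid C where
  r x y := x = y ∨ δ x y = cs.simple i
  iseqv := by
    refine ⟨fun x => Or.inl rfl, ?_, ?_⟩
    · rintro x y (hxy | hxy)
      · exact Or.inl hxy.symm
      · exact Or.inr (h.symm_simple hxy)
    · rintro x y z (hxy | hxy) hyz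
      · rw [hxy]; exact hyz
      · rcases hyz with hyz | hyz
        · rw [← hyz]; exact Or.inr hxy
        · rcases (h.wd2 y x z i hxy).1 with h1 | h1
          · rw [hyz, cs.simple_mul_simple_self] at h1
            exact Or.inl ((h.wd1 x z).mp h1)
          · rw [hyz] at h1
            exact Or.inr h1

/-- The Coxeter system is irreducible: the set `S` of simple reflections is not the union of two
disjoint nonempty subsets which commute elementwise. -/
def IrreducibleSystem (cs : CoxeterSystem M W) : Prop :=
  ∀ T ⊆ Set.range cs.simple, T.Nonempty → (Set.range cs.simple \ T).Nonempty →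
    ∃ s ∈ T, ∃ t ∈ Set.range cs.simple \ T, s * t ≠ t * s

end Pool.Agent.Helper74.Idem.BuildingDefs
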