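import Mathlib
import Pool.Agent.Helper70.IdemDefs

/-!
Definitions for families of equivalence relations which look like chamber systems.
-/

namespace Pool.Agent.Helper74.Idem.ChamberDefs

open Pool.Agent.Helper70.IdemDefs

variable {E : Type*}

/-- `θ` and `φ` commute: whenever `x θ y φ z` there is `w` with `x φ w θ z`. -/
def Commuting (θ φ : Setoid E) : Prop :=
  ∀ x y z, θ x y → φ y z → ∃ w, φ x w ∧ θ w z

/-- The class `C` of `x` under the join of `θ` and `φ` is a grid: for all `y`, `z` in `C` there is
exactly one `w` with `y θ w φ z`. -/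
def GridAt (θ φ : Setoid E) (x : E) : Prop :=
  ∀ y z, (θ ⊔ φ) x y → (θ ⊔ φ) x z → ∃! w, θ y w ∧ φ w z

/-- On the class `C` of `x` under the join of `θ` and `φ` the family consisting of the
restrictions of `θ` and `φ` to `C` has property (P). -/
def RigidAt (θ φ : Setoid E) (x : E) : Prop :=
  PropertyP ({Setoid.comap (Subtype.val : {y // (θ ⊔ φ) x y} → E) θ,
    Setoid.comap (Subtype.val : {y // (θ ⊔ φ) x y} → E) φ} : Set (Setoid {y // (θ ⊔ φ) x y}))

/-- The family splits: it is the union of two nonempty subfamilies such that each member of the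
first commutes with each member of the second and the joins of the two subfamilies meet in the
equality relation. -/
def Splits (F : Set (Setoid E)) : Prop :=
  ∃ F₁ F₂ : Set (Setoid E), F₁.Nonempty ∧ F₂.Nonempty ∧ F₁ ∪ F₂ = F ∧
    (∀ θ ∈ F₁, ∀ φ ∈ F₂, Commuting θ φ) ∧ sSup F₁ ⊓ sSup F₂ = ⊥

end Pool.Agent.Helper74.Idem.ChamberDefs
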