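import Mathlib
import Pool.Agent.Helper70.IdemDefs
import Pool.Agent.Helper70.SqFree
import Pool.Agent.Helper74.Idem.ChamberDefs

set_option autoImplicit false

/-!
Families of equivalence relations which look like chamber systems: the criterion for (P).
-/

namespace Pool.Agent.Helper74.Idem.Chamber

open Classical
open Pool.Agent.Helper70.IdemDefs Pool.Agent.Helper74.Idem.ChamberDefs

variable {E : Type*}

/-! ### Joins -/

lemma inv_of_join {F : Set (Setoid E)} {P : E → Prop}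
    (h : ∀ θ ∈ F, ∀ x y, θ x y → P x → P y) {x y : E} (hxy : (sSup F) x y) (hx : P x) : P y := by
  have h1 : sSup F ≤ Setoid.ker P := by
    refine sSup_le ?_
    intro θ hθ a b hab
    have : P a = P b := propext ⟨h θ hθ a b hab, h θ hθ b a (θ.symm hab)⟩
    exact this
  have h2 : P x = P y := h1 hxy
  rw [← h2]
  exact hx

lemma mem_join {F : Set (Setoid E)} {θ : Setoid E} (hθ : θ ∈ F) {x y : E} (h : θ x y) :
    (sSup F) x y := (le_sSup hθ) h

lemma pres_sSup {f : E → E → E} {F : Set (Setoid E)} (hf : ∀ θ ∈ F, Preserves f θ) :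
    Preserves f (sSup F) := by
  intro x x' y y' hx hy
  have h1 : (sSup F) (f x y) (f x' y) := by
    refine inv_of_join (P := fun u => (sSup F) (f x y) (f u y)) ?_ hx ((sSup F).refl _)
    intro θ hθ a b hab h
    exact (sSup F).trans h (mem_join hθ (hf θ hθ _ _ _ _ hab (θ.refl _)))
  have h2 : (sSup F) (f x' y) (f x' y') := by
    refine inv_of_join (P := fun u => (sSup F) (f x' y) (f x' u)) ?_ hy ((sSup F).refl _)
    intro θ hθ a b hab h
    exact (sSup F).trans h (mem_join hθ (hf θ hθ _ _ _ _ (θ.refl _) hab))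
  exact (sSup F).trans h1 h2

/-! ### Corners -/

/-- all corners at `x` can be completed -/
def CA (θ φ : Setoid E) (x : E) : Prop :=
  ∀ y z, θ x y → φ x z → ∃ w, φ y w ∧ θ z w

/-- no nondegenerate corner at `x` can be completed -/
def CN (θ φ : Setoid E) (x : E) : Prop :=
  ∀ y z w, θ x y → φ x z → φ y w → θ z w → y = x ∨ z = x

lemma CA.symm {θ φ : Setoid E} {x : E} (h : CA θ φ x) : CA φ θ x := by
  intro y z hy hz
  obtain ⟨w, h1, h2⟩ := h z y hz hy
  exact ⟨w, h2, h1⟩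

lemma CN.symm {θ φ : Setoid E} {x : E} (h : CN θ φ x) : CN φ θ x := by
  intro y z w hy hz h1 h2
  exact (h z y w hz hy h2 h1).symm

/-- a local hypothesis: square-free or grid residues -/
structure HypL (F : Set (Setoid E)) : Prop where
  nt : ∀ θ ∈ F, ∀ x, ∃ y, y ≠ x ∧ θ x y
  triv : ∀ θ ∈ F, ∀ φ ∈ F, θ ≠ φ → ∀ x y, θ x y → φ x y → x = y
  dich : ∀ θ ∈ F, ∀ φ ∈ F, θ ≠ φ → ∀ x, CA θ φ x ∨ CN θ φ x

section

variable {F : Set (Setoid E)}

lemma not_both (H : HypL F) {θ φ : Setoid E} (hθ : θ ∈ F) (hφ : φ ∈ F) {x : E}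
    (h1 : CA θ φ x) (h2 : CN θ φ x) : False := by
  obtain ⟨y, hy, hxy⟩ := H.nt θ hθ x
  obtain ⟨z, hz, hxz⟩ := H.nt φ hφ x
  obtain ⟨w, h3, h4⟩ := h1 y z hxy hxz
  rcases h2 y z w hxy hxz h3 h4 with h | h
  · exact hy h
  · exact hz h

lemma CA_step (H : HypL F) {θ φ : Setoid E} (hθ : θ ∈ F) (hφ : φ ∈ F) (hne : θ ≠ φ) {x x' : E}
    (h : CA θ φ x) (hx : θ x x') : CA θ φ x' := by
  by_cases hxx : x' = x
  · rw [hxx]; exact h
  rcases H.dich θ hθ φ hφ hne x' with h1 | h1
  · exact h1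
  exfalso
  obtain ⟨z, hz, hxz⟩ := H.nt φ hφ x
  obtain ⟨w, h3, h4⟩ := h x' z hx hxz
  rcases h1 x w z (θ.symm hx) h3 hxz (θ.symm h4) with h5 | h5
  · exact hxx h5.symm
  · rw [h5] at h4
    exact hz (H.triv θ hθ φ hφ hne x z (θ.trans hx (θ.symm h4)) hxz).symm

lemma CN_step (H : HypL F) {θ φ : Setoid E} (hθ : θ ∈ F) (hφ : φ ∈ F) (hne : θ ≠ φ) {x x' : E}
    (h : CN θ φ x) (hx : θ x x') : CN θ φ x' := by
  rcases H.dich θ hθ φ hφ hne x' with h1 | h1
  · exact (not_both H hθ hφ (CA_step H hθ hφ hne h1 (θ.symm hx)) h).elim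
  · exact h1

lemma CN_step' (H : HypL F) {θ φ : Setoid E} (hθ : θ ∈ F) (hφ : φ ∈ F) (hne : θ ≠ φ) {x x' : E}
    (h : CN θ φ x) (hx : φ x x') : CN θ φ x' :=
  (CN_step H hφ hθ hne.symm h.symm hx).symm

lemma CA_step' (H : HypL F) {θ φ : Setoid E} (hθ : θ ∈ F) (hφ : φ ∈ F) (hne : θ ≠ φ) {x x' : E}
    (h : CA θ φ x) (hx : φ x x') : CA θ φ x' :=
  (CA_step H hφ hθ hne.symm h.symm hx).symm

lemma CN_class (H : HypL F) {θ φ : Setoid E} (hθ : θ ∈ F) (hφ : φ ∈ F) (hne : θ ≠ φ) {x x' : E}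
    (h : CN θ φ x) (hx : (sSup {θ, φ}) x x') : CN θ φ x' := by
  refine inv_of_join (P := fun u => CN θ φ u) ?_ hx h
  intro ψ hψ a b hab ha
  rcases hψ with hψ | hψ
  · subst hψ; exact CN_step H hθ hφ hne ha hab
  · have hψ' : ψ = φ := hψ
    subst hψ'; exact CN_step' H hθ hφ hne ha hab

/-! ### Rigid residues -/

/-- every idempotent operation on the class of `x` which preserves `θ` and `φ` is a projection -/
def Rig (θ φ : Setoid E) (x : E) : Prop :=
  ∀ f : E → E → E, (∀ u v, (sSup {θ, φ}) x u → (sSup {θ, φ}) x v → (sSup {θ, φ}) x (f u v)) →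
    (∀ u, (sSup {θ, φ}) x u → f u u = u) →
    (∀ u u' v v', (sSup {θ, φ}) x u → (sSup {θ, φ}) x v → θ u u' → θ v v' →
      θ (f u v) (f u' v')) →
    (∀ u u' v v', (sSup {θ, φ}) x u → (sSup {θ, φ}) x v → φ u u' → φ v v' →
      φ (f u v) (f u' v')) →
    (∀ u v, (sSup {θ, φ}) x u → (sSup {θ, φ}) x v → f u v = u) ∨
      (∀ u v, (sSup {θ, φ}) x u → (sSup {θ, φ}) x v → f u v = v)

lemma Rig.symm {θ φ : Setoid E} {x : E} (h : Rig θ φ x) : Rig φ θ x := by
  intro f h1 h2 h3 h4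
  rw [Set.pair_comm] at h1 h2 h3 h4 ⊢
  exact h f h1 h2 h4 h3

lemma rig_of_subtype {θ φ : Setoid E} {x : E} (h : RigidAt θ φ x) : Rig θ φ x := by
  have hJ : sSup {θ, φ} = θ ⊔ φ := sSup_pair
  intro f h1 h2 h3 h4
  rw [hJ] at h1 h2 h3 h4 ⊢
  rcases h (fun a b => ⟨f a.1 b.1, h1 _ _ a.2 b.2⟩) (fun a => Subtype.ext (h2 _ a.2)) (by
    intro ψ hψ a a' b b' haa hbb
    rcases hψ with hψ | hψ
    · subst hψ
      exact h3 _ _ _ _ a.2 b.2 haa hbb
    · have hψ' : ψ = Setoid.comap (Subtype.val : {y // (θ ⊔ φ) x y} → E) φ := hψ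
      subst hψ'
      exact h4 _ _ _ _ a.2 b.2 haa hbb) with h5 | h5
  · left
    intro u v hu hv
    exact congrArg Subtype.val (h5 ⟨u, hu⟩ ⟨v, hv⟩)
  · right
    intro u v hu hv
    exact congrArg Subtype.val (h5 ⟨u, hu⟩ ⟨v, hv⟩)

/-- the hypothesis of the theorem -/
structure Hyp (F : Set (Setoid E)) : Prop where
  nt : ∀ θ ∈ F, ∀ x, ∃ y, y ≠ x ∧ θ x y
  triv : ∀ θ ∈ F, ∀ φ ∈ F, θ ≠ φ → ∀ x y, θ x y → φ x y → x = y
  dich : ∀ θ ∈ F, ∀ φ ∈ F, θ ≠ φ → ∀ x, (∀ u, (sSup {θ, φ}) x u → CA θ φ u) ∨ Rig θ φ x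

/-! ### Square-free residues -/

theorem rig_of_CN [Finite E] (H : HypL F) {θ φ : Setoid E} (hθ : θ ∈ F) (hφ : φ ∈ F)
    (hne : θ ≠ φ) {x : E} (h : CN θ φ x) : Rig θ φ x := by
  intro f hcl0 hid hf1 hf2
  set J : Setoid E := sSup {θ, φ} with hJ
  let C := {y : E // J x y}
  let c : C → E := fun y => y.1
  have hθJ : ∀ {a b}, θ a b → J a b := fun h => mem_join (by simp) h
  have hφJ : ∀ {a b}, φ a b → J a b := fun h => mem_join (by simp) h
  let θ' : Setoid C := Setoid.comap c θ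
  let φ' : Setoid C := Setoid.comap c φ
  have eθ : ∀ a b : C, θ' a b ↔ θ a.1 b.1 := fun a b => Iff.rfl
  have eφ : ∀ a b : C, φ' a b ↔ φ a.1 b.1 := fun a b => Iff.rfl
  have hCN : ∀ a : C, CN θ φ a.1 := fun a => CN_class H hθ hφ hne h a.2
  have : Nonempty C := ⟨⟨x, J.refl x⟩⟩
  have : Finite C := Subtype.finite
  have key : ∀ p q r s : C, θ p.1 q.1 → φ q.1 r.1 → θ r.1 s.1 → φ s.1 p.1 →
      (p = q ∧ r = s) ∨ (q = r ∧ s = p) := by
    intro p q r s h1 h2 h3 h4
    rcases hCN p q.1 s.1 r.1 h1 (φ.symm h4) h2 (θ.symm h3) with h5 | h5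
    · left
      have e1 : p = q := Subtype.ext h5.symm
      refine ⟨e1, Subtype.ext ?_⟩
      refine H.triv θ hθ φ hφ hne _ _ h3 ?_
      rw [h5] at h2
      exact φ.symm (φ.trans h4 h2)
    · right
      have e1 : s = p := Subtype.ext h5
      refine ⟨Subtype.ext ?_, e1⟩
      refine H.triv θ hθ φ hφ hne _ _ ?_ h2
      rw [h5] at h3
      exact θ.symm (θ.trans h3 h1)
  have hsf : SquareFree ({θ', φ'} : Set (Setoid C)) := by
    intro α hα β hβ hαβ p q r s h1 h2 h3 h4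
    rcases hα with hα | hα
    · rcases hβ with hβ | hβ
      · exact absurd (hα.trans hβ.symm) hαβ
      · have hβ' : β = φ' := hβ
        subst hα; subst hβ'
        exact key p q r s h1 h2 h3 h4
    · have hα' : α = φ' := hα
      rcases hβ with hβ | hβ
      · subst hα'; subst hβ
        rcases key q r s p h2 h3 h4 h1 with ⟨e1, e2⟩ | ⟨e1, e2⟩
        · exact Or.inr ⟨e1, e2⟩
        · exact Or.inl ⟨e2, e1⟩
      · have hβ' : β = φ' := hβ
        exact absurd (hα'.trans hβ'.symm) hαβ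
  have htb : TwoBlocks ({θ', φ'} : Set (Setoid C)) := by
    intro a
    obtain ⟨y, hy, hay⟩ := H.nt θ hθ a.1
    obtain ⟨z, hz, haz⟩ := H.nt φ hφ a.1
    let y' : C := ⟨y, J.trans a.2 (hθJ hay)⟩
    let z' : C := ⟨z, J.trans a.2 (hφJ haz)⟩
    refine ⟨θ', by simp, φ', by simp, ?_, ⟨y', ?_, hay⟩, ⟨z', ?_, haz⟩⟩
    · intro he
      have h1 : θ' a y' := hay
      rw [he] at h1
      exact hy (H.triv θ hθ φ hφ hne _ _ hay h1).symm
    · intro he
      exact hy (congrArg Subtype.val he)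
    · intro he
      exact hz (congrArg Subtype.val he)
  have htop : sSup ({θ', φ'} : Set (Setoid C)) = ⊤ := by
    rw [eq_top_iff]
    have h1 : ∀ b : C, (sSup ({θ', φ'} : Set (Setoid C))) ⟨x, J.refl x⟩ b := by
      intro b
      have h2 : ∃ hb : J x b.1, (sSup ({θ', φ'} : Set (Setoid C))) ⟨x, J.refl x⟩ ⟨b.1, hb⟩ := by
        refine inv_of_join (F := {θ, φ}) (P := fun u => ∃ hb : J x u,
          (sSup ({θ', φ'} : Set (Setoid C))) ⟨x, J.refl x⟩ ⟨u, hb⟩) ?_ b.2
          ⟨J.refl x, (sSup ({θ', φ'} : Set (Setoid C))).refl _⟩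
        intro ψ hψ u v huv hu
        obtain ⟨hu1, hu2⟩ := hu
        have hv : J x v := J.trans hu1 (mem_join hψ huv)
        refine ⟨hv, (sSup ({θ', φ'} : Set (Setoid C))).trans hu2 ?_⟩
        rcases hψ with hψ | hψ
        · subst hψ
          exact mem_join (F := ({θ', φ'} : Set (Setoid C))) (θ := θ') (by simp) huv
        · have hψ' : ψ = φ := hψ
          subst hψ'
          exact mem_join (F := ({θ', φ'} : Set (Setoid C))) (θ := φ') (by simp) huv
      exact h2.2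
    intro a b _
    exact (sSup ({θ', φ'} : Set (Setoid C))).trans
      ((sSup ({θ', φ'} : Set (Setoid C))).symm (h1 a)) (h1 b)
  have hP := Pool.Agent.Helper70.SqFree.propertyP_of_leafless hsf htop htb
  have hcl : ∀ a b : C, J x (f a.1 b.1) := fun a b => hcl0 _ _ a.2 b.2
  rcases hP (fun a b => ⟨f a.1 b.1, hcl a b⟩) (fun a => Subtype.ext (hid a.1 a.2)) (by
    intro ψ hψ a a' b b' haa hbb
    rcases hψ with hψ | hψ
    · subst hψ
      exact hf1 _ _ _ _ a.2 b.2 haa hbb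
    · have hψ' : ψ = φ' := hψ
      subst hψ'
      exact hf2 _ _ _ _ a.2 b.2 haa hbb) with h1 | h1
  · left
    intro a b ha hb
    exact congrArg Subtype.val (h1 ⟨a, ha⟩ ⟨b, hb⟩)
  · right
    intro a b ha hb
    exact congrArg Subtype.val (h1 ⟨a, ha⟩ ⟨b, hb⟩)

lemma hyp_of_local [Finite E] (H : HypL F) : Hyp F := by
  refine ⟨H.nt, H.triv, ?_⟩
  intro θ hθ φ hφ hne x
  rcases H.dich θ hθ φ hφ hne x with h | h
  · left
    intro u hu
    refine inv_of_join (P := fun u => CA θ φ u) ?_ hu h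
    intro ψ hψ a b hab ha
    rcases hψ with hψ | hψ
    · subst hψ; exact CA_step H hθ hφ hne ha hab
    · have hψ' : ψ = φ := hψ
      subst hψ'; exact CA_step' H hθ hφ hne ha hab
  · exact Or.inr (rig_of_CN H hθ hφ hne h)

/-! ### Types of panels -/

theorem pure_residue {f : E → E → E} (hid : ∀ x, f x x = x)
    (hf : ∀ θ ∈ F, Preserves f θ) {θ φ : Setoid E} (hθ : θ ∈ F) (hφ : φ ∈ F)
    {x : E} (h : Rig θ φ x) :
    (∀ a b, (sSup {θ, φ}) x a → (sSup {θ, φ}) x b → f a b = a) ∨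
      (∀ a b, (sSup {θ, φ}) x a → (sSup {θ, φ}) x b → f a b = b) := by
  have hpJ : Preserves f (sSup {θ, φ}) := pres_sSup (by
    intro ψ hψ
    rcases hψ with hψ | hψ
    · subst hψ; exact hf _ hθ
    · have hψ' : ψ = φ := hψ
      subst hψ'; exact hf _ hφ)
  refine h f ?_ (fun u _ => hid u) (fun u u' v v' _ _ h1 h2 => hf θ hθ _ _ _ _ h1 h2)
    (fun u u' v v' _ _ h1 h2 => hf φ hφ _ _ _ _ h1 h2)
  intro u v hu hv
  have := hpJ x u x v hu hv
  rwa [hid] at this

/-- `f` is the first projection on the `θ`-class of `x` -/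
def T (f : E → E → E) (θ : Setoid E) (x : E) : Prop :=
  ∀ y z, θ x y → θ x z → f y z = y

/-- the map with exchanged arguments -/
def sw (f : E → E → E) : E → E → E := fun x y => f y x

lemma sw_pres {f : E → E → E} {θ : Setoid E} (h : Preserves f θ) : Preserves (sw f) θ :=
  fun x x' y y' hx hy => h y y' x x' hy hx

lemma typ_excl (H : Hyp F) {f : E → E → E} {θ : Setoid E} (hθ : θ ∈ F) {x : E}
    (h1 : T f θ x) (h2 : T (sw f) θ x) : False := by
  obtain ⟨y, hy, hxy⟩ := H.nt θ hθ x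
  have e1 : f y x = y := h1 y x hxy (θ.refl x)
  have e2 : f y x = x := h2 x y (θ.refl x) hxy
  exact hy (e1.symm.trans e2)

/-- a rigid residue has a type -/
lemma pure_types (H : Hyp F) {f : E → E → E} (hid : ∀ x, f x x = x)
    (hf : ∀ θ ∈ F, Preserves f θ) {θ φ : Setoid E} (hθ : θ ∈ F) (hφ : φ ∈ F)
    {x : E} (h : Rig θ φ x) :
    (∀ u, (sSup {θ, φ}) x u → T f θ u ∧ T f φ u) ∨
      (∀ u, (sSup {θ, φ}) x u → T (sw f) θ u ∧ T (sw f) φ u) := by
  have hθJ : ∀ {a b}, θ a b → (sSup {θ, φ}) a b := fun h => mem_join (by simp) h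
  have hφJ : ∀ {a b}, φ a b → (sSup {θ, φ}) a b := fun h => mem_join (by simp) h
  rcases pure_residue hid hf hθ hφ h with h1 | h1
  · left
    intro u hu
    refine ⟨fun y z hy hz => h1 _ _ ?_ ?_, fun y z hy hz => h1 _ _ ?_ ?_⟩
    · exact (sSup {θ, φ}).trans hu (hθJ hy)
    · exact (sSup {θ, φ}).trans hu (hθJ hz)
    · exact (sSup {θ, φ}).trans hu (hφJ hy)
    · exact (sSup {θ, φ}).trans hu (hφJ hz)
  · right
    intro u hu
    refine ⟨fun y z hy hz => h1 _ _ ?_ ?_, fun y z hy hz => h1 _ _ ?_ ?_⟩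
    · exact (sSup {θ, φ}).trans hu (hθJ hz)
    · exact (sSup {θ, φ}).trans hu (hθJ hy)
    · exact (sSup {θ, φ}).trans hu (hφJ hz)
    · exact (sSup {θ, φ}).trans hu (hφJ hy)

lemma typ_step (H : Hyp F) {f : E → E → E} (hid : ∀ x, f x x = x)
    (hf : ∀ θ ∈ F, Preserves f θ) {θ φ : Setoid E} (hθ : θ ∈ F) (hφ : φ ∈ F)
    {x x' : E} (hx : φ x x') (h : T f θ x) : T f θ x' := by
  by_cases hne : θ = φ
  · subst hne
    intro y z hy hz
    exact h y z (θ.trans hx hy) (θ.trans hx hz)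
  have hφJ : ∀ {a b}, φ a b → (sSup {θ, φ}) a b := fun h => mem_join (by simp) h
  rcases H.dich θ hθ φ hφ hne x with h1 | h1
  · have h2 := h1 x' (hφJ hx)
    intro y z hy hz
    obtain ⟨y₀, hy1, hy2⟩ := h2 y x hy (φ.symm hx)
    obtain ⟨z₀, hz1, hz2⟩ := h2 z x hz (φ.symm hx)
    have e1 : f y₀ z₀ = y₀ := h y₀ z₀ hy2 hz2
    have e2 : φ (f y z) (f y₀ z₀) := hf φ hφ _ _ _ _ hy1 hz1
    have e3 : θ (f y z) (f y y) := hf θ hθ _ _ _ _ (θ.refl y) (θ.trans (θ.symm hz) hy)
    rw [e1] at e2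
    rw [hid] at e3
    exact H.triv θ hθ φ hφ hne _ _ e3 (φ.trans e2 (φ.symm hy1))
  · rcases pure_types H hid hf hθ hφ h1 with h2 | h2
    · exact (h2 x' (hφJ hx)).1
    · exact (typ_excl H hθ h (h2 x ((sSup {θ, φ}).refl x)).1).elim

lemma typ_all (H : Hyp F) {f : E → E → E} (hid : ∀ x, f x x = x)
    (hf : ∀ θ ∈ F, Preserves f θ) (htop : sSup F = ⊤) {θ : Setoid E} (hθ : θ ∈ F)
    {x : E} (h : T f θ x) (x' : E) : T f θ x' := by
  have hxx : (sSup F) x x' := by rw [htop]; trivial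
  refine inv_of_join (P := fun u => T f θ u) ?_ hxx h
  intro φ hφ a b hab ha
  exact typ_step H hid hf hθ hφ hab ha

/-! ### Walks -/

/-- walks of length `n` with steps in members of `G` -/
def W (G : Set (Setoid E)) : ℕ → E → E → Prop
  | 0, x, y => x = y
  | n + 1, x, y => ∃ z, ∃ θ ∈ G, θ x z ∧ W G n z y

lemma W_trans {G : Set (Setoid E)} {a b : ℕ} {x y z : E} (h1 : W G a x y) (h2 : W G b y z) :
    W G (a + b) x z := by
  induction a generalizing x with
  | zero =>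
    have : x = y := h1
    subst this
    simpa using h2
  | succ a ih =>
    obtain ⟨u, θ, hθ, hxu, hu⟩ := h1
    have : a + 1 + b = (a + b) + 1 := by omega
    rw [this]
    exact ⟨u, θ, hθ, hxu, ih hu⟩

lemma W_one {G : Set (Setoid E)} {θ : Setoid E} (hθ : θ ∈ G) {x y : E} (h : θ x y) :
    W G 1 x y := ⟨y, θ, hθ, h, rfl⟩

lemma W_last {G : Set (Setoid E)} {n : ℕ} {x y : E} (h : W G (n + 1) x y) :
    ∃ z, ∃ θ ∈ G, W G n x z ∧ θ z y := by
  induction n generalizing x with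
  | zero =>
    obtain ⟨z, θ, hθ, h1, h2⟩ := h
    have : z = y := h2
    subst this
    exact ⟨x, θ, hθ, rfl, h1⟩
  | succ n ih =>
    obtain ⟨z, θ, hθ, h1, h2⟩ := h
    obtain ⟨u, φ, hφ, h3, h4⟩ := ih h2
    exact ⟨u, φ, hφ, ⟨z, θ, hθ, h1, h3⟩, h4⟩

lemma exists_W {G : Set (Setoid E)} {x y : E} (h : (sSup G) x y) : ∃ n, W G n x y := by
  refine inv_of_join (P := fun u => ∃ n, W G n x u) ?_ h ⟨0, rfl⟩
  rintro θ hθ a b hab ⟨n, hn⟩
  exact ⟨n + 1, W_trans hn (W_one hθ hab)⟩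

/-! ### The key lemma -/

/-- on a rigid residue an endomorphism which moves each point inside its `θ`-class is trivial -/
lemma rigid_id (H : Hyp F) {θ φ : Setoid E} (hθ : θ ∈ F) (hφ : φ ∈ F) (hne : θ ≠ φ) {x : E}
    (h : Rig θ φ x) {g : E → E} (h1 : ∀ u, (sSup {θ, φ}) x u → θ u (g u))
    (h2 : ∀ u u', (sSup {θ, φ}) x u → φ u u' → φ (g u) (g u')) :
    ∀ u, (sSup {θ, φ}) x u → g u = u := by
  have hθJ : ∀ {a b}, θ a b → (sSup {θ, φ}) a b := fun h => mem_join (by simp) h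
  have hφJ : ∀ {a b}, φ a b → (sSup {θ, φ}) a b := fun h => mem_join (by simp) h
  have hmove : ∀ u v, (sSup {θ, φ}) x u → θ u (if φ u v then u else g u) := by
    intro u v hu
    split_ifs
    · exact θ.refl u
    · exact h1 u hu
  rcases h (fun u v => if φ u v then u else g u) (by
    intro u v hu _
    exact (sSup {θ, φ}).trans hu (hθJ (hmove u v hu))) (by
    intro u _
    show (if φ u u then u else g u) = u
    rw [if_pos (φ.refl u)]) (by
    intro u u' v v' hu _ huu _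
    have hu' : (sSup {θ, φ}) x u' := (sSup {θ, φ}).trans hu (hθJ huu)
    exact θ.trans (θ.symm (hmove u v hu)) (θ.trans huu (hmove u' v' hu'))) (by
    intro u u' v v' hu _ huu hvv
    show φ (if φ u v then u else g u) (if φ u' v' then u' else g u')
    have e : φ u v ↔ φ u' v' :=
      ⟨fun h => φ.trans (φ.symm huu) (φ.trans h hvv),
        fun h => φ.trans huu (φ.trans h (φ.symm hvv))⟩
    by_cases hc : φ u v
    · rw [if_pos hc, if_pos (e.mp hc)]
      exact huu
    · rw [if_neg hc, if_neg (fun h => hc (e.mpr h))]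
      exact h2 u u' hu huu) with h3 | h3
  · intro u hu
    obtain ⟨v, hv, huv⟩ := H.nt θ hθ u
    have h4 : (if φ u v then u else g u) = u :=
      h3 u v hu ((sSup {θ, φ}).trans hu (hθJ huv))
    rwa [if_neg (fun h => hv (H.triv θ hθ φ hφ hne u v huv h).symm)] at h4
  · intro u hu
    obtain ⟨v, hv, huv⟩ := H.nt φ hφ u
    have h4 : (if φ u v then u else g u) = v :=
      h3 u v hu ((sSup {θ, φ}).trans hu (hφJ huv))
    rw [if_pos huv] at h4
    exact (hv h4.symm).elim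

/-- the same with either of the two relations -/
lemma rigid_id' (H : Hyp F) {θ φ ψ : Setoid E} (hθ : θ ∈ F) (hφ : φ ∈ F) (hne : θ ≠ φ) {x : E}
    (h : Rig θ φ x) (hψ : ψ = θ ∨ ψ = φ) {g : E → E}
    (h1 : ∀ u, (sSup {θ, φ}) x u → ψ u (g u))
    (h2 : ∀ χ ∈ F, ∀ u u', χ u u' → χ (g u) (g u')) :
    ∀ u, (sSup {θ, φ}) x u → g u = u := by
  rcases hψ with rfl | rfl
  · exact rigid_id H hθ hφ hne h h1 (fun u u' _ huu => h2 φ hφ u u' huu)
  · rw [Set.pair_comm] at h1 ⊢
    exact rigid_id H hφ hθ hne.symm h.symm h1 (fun u u' _ huu => h2 θ hθ u u' huu)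

lemma key_lemma (H : Hyp F) {f : E → E → E} (hid : ∀ x, f x x = x)
    (hf : ∀ θ ∈ F, Preserves f θ) {G : Set (Setoid E)} (hG : G ⊆ F)
    (hT : ∀ θ ∈ G, ∀ x, T f θ x) {x y : E} (hxy : (sSup G) x y) : f x y = x := by
  -- `f` is the first projection on the rigid residues
  have hres : ∀ θ ∈ G, ∀ φ ∈ G, θ ≠ φ → ∀ x, Rig θ φ x → ∀ a b, (sSup {θ, φ}) x a →
      (sSup {θ, φ}) x b → f a b = a := by
    intro θ hθ φ hφ hne x h
    rcases pure_residue hid hf (hG hθ) (hG hφ) h with h1 | h1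
    · exact h1
    · exfalso
      obtain ⟨z, hz, hxz⟩ := H.nt θ (hG hθ) x
      have e3 : f x z = x := hT θ hθ x x z (θ.refl x) hxz
      have e4 : f x z = z := h1 x z ((sSup {θ, φ}).refl x) (mem_join (by simp) hxz)
      exact hz (e4.symm.trans e3)
  have key : ∀ n, ∀ x y, W G n x y → f x y = x ∧
      ∀ θ ∈ G, ∀ φ ∈ G, θ ≠ φ → Rig θ φ x → ∀ u, (sSup {θ, φ}) x u → f u y = u := by
    intro n
    induction n using Nat.strong_induction_on with
    | _ n ih =>
      intro x y hW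
      rcases n with _ | m
      · have hxy : x = y := hW
        subst hxy
        exact ⟨hid x, fun θ hθ φ hφ hne h u hu =>
          hres θ hθ φ hφ hne x h u x hu ((sSup {θ, φ}).refl x)⟩
      obtain ⟨y', ψ, hψ, hW1, hy'⟩ := W_last hW
      obtain ⟨h1, h2⟩ := ih m (by omega) x y' hW1
      -- moving the second argument
      have hmv : ∀ u, f u y' = u → ψ u (f u y) := by
        intro u hu
        have := hf ψ (hG hψ) _ _ _ _ (ψ.refl u) hy'
        rwa [hu] at this
      have hend : ∀ χ ∈ F, ∀ u u', χ u u' → χ (f u y) (f u' y) :=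
        fun χ hχ u u' huu => hf χ hχ _ _ _ _ huu (χ.refl y)
      have hx : f x y = x := by
        rcases m with _ | m
        · obtain ⟨z, θ, hθ, h3, h4⟩ := hW
          have : z = y := h4
          subst this
          exact hT θ hθ x x z (θ.refl x) h3
        obtain ⟨x₁, θ, hθ, h3, x₂, φ, hφ, h4, h5⟩ := hW
        have e1 : f x₁ y = x₁ := (ih (m + 1) (by omega) x₁ y ⟨x₂, φ, hφ, h4, h5⟩).1
        have hcol : θ x (f x y) := by
          have := hf θ (hG hθ) _ _ _ _ h3 (θ.refl y)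
          rw [e1] at this
          exact θ.trans h3 (θ.symm this)
        by_cases hne : θ = φ
        · subst hne
          exact (ih (m + 1) (by omega) x y ⟨x₂, θ, hθ, θ.trans h3 h4, h5⟩).1
        by_contra hbad
        have hψθ : ψ = θ := by
          by_contra hcon
          exact hbad (H.triv ψ (hG hψ) θ (hG hθ) hcon _ _ (hmv x h1) hcol).symm
        rcases H.dich θ (hG hθ) φ (hG hφ) hne x with h6 | h6
        · obtain ⟨w, h7, h8⟩ := h6 x₁ (mem_join (by simp) h3) x x₂ (θ.symm h3) h4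
          have e2 : f w y = w := (ih (m + 1) (by omega) w y ⟨x₂, θ, hθ, θ.symm h8, h5⟩).1
          have h9 : φ x (f x y) := by
            have := hf φ (hG hφ) _ _ _ _ h7 (φ.refl y)
            rw [e2] at this
            exact φ.trans h7 (φ.symm this)
          exact hbad (H.triv θ (hG hθ) φ (hG hφ) hne _ _ hcol h9).symm
        · exact hbad (rigid_id' H (hG hθ) (hG hφ) hne h6 (Or.inl hψθ) (g := fun u => f u y)
            (fun u hu => hmv u (h2 θ hθ φ hφ hne h6 u hu)) hend x ((sSup {θ, φ}).refl x))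
      refine ⟨hx, ?_⟩
      intro θ hθ φ hφ hne hrig u hu
      by_cases hψ' : ψ = θ ∨ ψ = φ
      · exact rigid_id' H (hG hθ) (hG hφ) hne hrig hψ' (g := fun u => f u y)
            (fun u hu => hmv u (h2 θ hθ φ hφ hne hrig u hu)) hend u hu
      · push Not at hψ'
        have h6 : (sSup {θ, φ}) x u ∧ f u y = u := by
          refine inv_of_join (F := {θ, φ})
            (P := fun u => (sSup {θ, φ}) x u ∧ f u y = u) ?_ hu ⟨(sSup {θ, φ}).refl x, hx⟩
          rintro χ hχ a b hab ⟨ha1, ha2⟩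
          have hb : (sSup {θ, φ}) x b := (sSup {θ, φ}).trans ha1 (mem_join hχ hab)
          refine ⟨hb, ?_⟩
          have hχG : χ ∈ G := by
            rcases hχ with hχ | hχ
            · rw [hχ]; exact hθ
            · have : χ = φ := hχ
              rw [this]; exact hφ
          have hχψ : χ ≠ ψ := by
            rcases hχ with hχ | hχ
            · rw [hχ]; exact hψ'.1.symm
            · have : χ = φ := hχ
              rw [this]; exact hψ'.2.symm
          have e1 : χ (f b y) b := by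
            have := hend χ (hG hχG) a b hab
            rw [ha2] at this
            exact χ.trans (χ.symm this) hab
          have e2 : ψ (f b y) b := ψ.symm (hmv b (h2 θ hθ φ hφ hne hrig b hb))
          exact H.triv χ (hG hχG) ψ (hG hψ) hχψ _ _ e1 e2
        exact h6.2
  obtain ⟨n, hn⟩ := exists_W hxy
  exact (key n x y hn).1

/-! ### Sufficiency -/

theorem sufficiency [Nonempty E] (H : Hyp F)
    (h2 : ∀ θ ∈ F, (∀ φ ∈ F, φ ≠ θ → Commuting θ φ) →
      ∀ x y z, θ x y → θ x z → x = y ∨ x = z ∨ y = z)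
    (htop : sSup F = ⊤) (hnt : F.Nontrivial) (hsp : ¬ Splits F) : PropertyP F := by
  intro f hid hf
  have hid' : ∀ x, sw f x x = x := hid
  have hf' : ∀ θ ∈ F, Preserves (sw f) θ := fun θ hθ => sw_pres (hf θ hθ)
  obtain ⟨x₀⟩ := ‹Nonempty E›
  by_cases hex : ∃ θ ∈ F, ¬ T f θ x₀ ∧ ¬ T (sw f) θ x₀
  · exfalso
    obtain ⟨θ, hθ, hn1, hn2⟩ := hex
    have hn1' : ∀ x, ¬ T f θ x := fun x h => hn1 (typ_all H hid hf htop hθ h x₀)
    have hn2' : ∀ x, ¬ T (sw f) θ x := fun x h => hn2 (typ_all H hid' hf' htop hθ h x₀)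
    have hCA : ∀ φ ∈ F, φ ≠ θ → ∀ x, CA θ φ x := by
      intro φ hφ hne x
      rcases H.dich θ hθ φ hφ hne.symm x with h | h
      · exact h x ((sSup {θ, φ}).refl x)
      · rcases pure_types H hid hf hθ hφ h with h1 | h1
        · exact (hn1' x (h1 x ((sSup {θ, φ}).refl x)).1).elim
        · exact (hn2' x (h1 x ((sSup {θ, φ}).refl x)).1).elim
    have hcomm : ∀ φ ∈ F, φ ≠ θ → Commuting θ φ := by
      intro φ hφ hne x y z hxy hyz
      obtain ⟨w, h3, h4⟩ := hCA φ hφ hne y x z (θ.symm hxy) hyz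
      exact ⟨w, h3, θ.symm h4⟩
    have htwo := h2 θ hθ hcomm
    let O : E → Prop := fun x => ∀ y, θ x y → f x y = x
    have hflip : ∀ x y, x ≠ y → θ x y → (O x → ¬ O y) ∧ (O y ∨ O x) := by
      intro x y hne hxy
      have hpan : ∀ z, θ x z → z = x ∨ z = y := by
        intro z hz
        rcases htwo x y z hxy hz with h | h | h
        · exact absurd h hne
        · exact Or.inl h.symm
        · exact Or.inr h.symm
      have hfxy : f x y = x ∨ f x y = y := by
        refine hpan _ ?_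
        have := hf θ hθ _ _ _ _ (θ.refl x) hxy
        rwa [hid] at this
      have hfyx : f y x = x ∨ f y x = y := by
        refine hpan _ ?_
        have := hf θ hθ _ _ _ _ hxy (θ.refl x)
        rwa [hid] at this
      have hOx : O x ↔ f x y = x := by
        constructor
        · intro h; exact h y hxy
        · intro h z hz
          rcases hpan z hz with e | e
          · rw [e]; exact hid x
          · rw [e]; exact h
      have hOy : O y ↔ f y x = y := by
        constructor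
        · intro h; exact h x (θ.symm hxy)
        · intro h z hz
          rcases hpan z (θ.trans hxy hz) with e | e
          · rw [e]; exact h
          · rw [e]; exact hid y
      have hA : ¬ (f x y = x ∧ f y x = y) := by
        rintro ⟨a1, a2⟩
        apply hn1' x
        intro u v hu hv
        rcases hpan u hu with e1 | e1 <;> rcases hpan v hv with e2 | e2 <;> rw [e1, e2]
        · exact hid x
        · exact a1
        · exact a2
        · exact hid y
      have hB : ¬ (f x y = y ∧ f y x = x) := by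
        rintro ⟨a1, a2⟩
        apply hn2' x
        intro u v hu hv
        show f v u = u
        rcases hpan u hu with e1 | e1 <;> rcases hpan v hv with e2 | e2 <;> rw [e1, e2]
        · exact hid x
        · exact a2
        · exact a1
        · exact hid y
      constructor
      · intro h3 h4
        exact hA ⟨hOx.mp h3, hOy.mp h4⟩
      · rcases hfxy with e1 | e1
        · exact Or.inr (hOx.mpr e1)
        · rcases hfyx with e2 | e2
          · exact (hB ⟨e1, e2⟩).elim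
          · exact Or.inl (hOy.mpr e2)
    have hinv : ∀ φ ∈ F \ {θ}, ∀ x u, φ x u → O x → O u := by
      rintro φ ⟨hφ, hφθ⟩ x u hxu hO u' hu'
      have hne : φ ≠ θ := fun h => hφθ h
      obtain ⟨w, h3, h4⟩ := hCA φ hφ hne u u' x hu' (φ.symm hxu)
      have e1 : f x w = x := hO w h4
      have e2 : φ (f u u') (f x w) := hf φ hφ _ _ _ _ (φ.symm hxu) h3
      have e3 : θ (f u u') u := by
        have := hf θ hθ _ _ _ _ (θ.refl u) (θ.symm hu')
        rwa [hid] at this
      rw [e1] at e2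
      exact H.triv θ hθ φ hφ hne.symm _ _ e3 (φ.trans e2 hxu)
    apply hsp
    refine ⟨{θ}, F \ {θ}, ⟨θ, rfl⟩, ?_, ?_, ?_, ?_⟩
    · obtain ⟨φ, hφ, hne⟩ := hnt.exists_ne θ
      exact ⟨φ, hφ, hne⟩
    · ext φ
      constructor
      · rintro (h | h)
        · have : φ = θ := h
          rw [this]; exact hθ
        · exact h.1
      · intro h
        by_cases he : φ = θ
        · exact Or.inl he
        · exact Or.inr ⟨h, he⟩
    · rintro α hα φ ⟨hφ, hφθ⟩
      have : α = θ := hα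
      subst this
      exact hcomm φ hφ (fun h => hφθ h)
    · rw [eq_bot_iff]
      intro x y hxy
      obtain ⟨h3, h4⟩ := hxy
      rw [sSup_singleton] at h3
      show x = y
      by_contra hne
      obtain ⟨h5, h6⟩ := hflip x y hne h3
      rcases h6 with h6 | h6
      · exact h5 (inv_of_join (P := O) hinv ((sSup (F \ {θ})).symm h4) h6) h6
      · exact h5 h6 (inv_of_join (P := O) hinv h4 h6)
  · push Not at hex
    let F₁ : Set (Setoid E) := {θ | θ ∈ F ∧ T f θ x₀}
    let F₂ : Set (Setoid E) := {θ | θ ∈ F ∧ T (sw f) θ x₀}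
    have hU : F₁ ∪ F₂ = F := by
      ext θ
      constructor
      · rintro (h | h)
        · exact h.1
        · exact h.1
      · intro h
        by_cases h3 : T f θ x₀
        · exact Or.inl ⟨h, h3⟩
        · exact Or.inr ⟨h, hex θ h h3⟩
    have k1 : ∀ x y, (sSup F₁) x y → f x y = x := fun x y h =>
      key_lemma H hid hf (G := F₁) (fun θ hθ => hθ.1)
        (fun θ hθ x => typ_all H hid hf htop hθ.1 hθ.2 x) h
    have k2 : ∀ x y, (sSup F₂) x y → f y x = x := fun x y h =>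
      key_lemma H hid' hf' (G := F₂) (fun θ hθ => hθ.1)
        (fun θ hθ x => typ_all H hid' hf' htop hθ.1 hθ.2 x) h
    by_cases hE1 : F₁.Nonempty
    · by_cases hE2 : F₂.Nonempty
      · exfalso
        apply hsp
        refine ⟨F₁, F₂, hE1, hE2, hU, ?_, ?_⟩
        · intro θ hθ φ hφ
          have hθ1 : ∀ x, T f θ x := fun x => typ_all H hid hf htop hθ.1 hθ.2 x
          have hφ2 : ∀ x, T (sw f) φ x := fun x => typ_all H hid' hf' htop hφ.1 hφ.2 x
          have hne : θ ≠ φ := by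
            intro he
            exact typ_excl H hθ.1 (hθ1 x₀) (he ▸ hφ2 x₀)
          intro x y z hxy hyz
          have hCA : CA θ φ y := by
            rcases H.dich θ hθ.1 φ hφ.1 hne y with h | h
            · exact h y ((sSup {θ, φ}).refl y)
            · exfalso
              rcases pure_types H hid hf hθ.1 hφ.1 h with h1 | h1
              · exact typ_excl H hφ.1 (h1 y ((sSup {θ, φ}).refl y)).2 (hφ2 y)
              · exact typ_excl H hθ.1 (hθ1 y) (h1 y ((sSup {θ, φ}).refl y)).1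
          obtain ⟨w, h3, h4⟩ := hCA x z (θ.symm hxy) hyz
          exact ⟨w, h3, θ.symm h4⟩
        · rw [eq_bot_iff]
          intro x y hxy
          obtain ⟨h3, h4⟩ := hxy
          have e1 := k1 x y h3
          have e2 := k2 y x ((sSup F₂).symm h4)
          exact e1.symm.trans e2
      · left
        intro x y
        refine k1 x y ?_
        have : F₁ = F := by
          rw [Set.not_nonempty_iff_eq_empty.mp hE2, Set.union_empty] at hU
          exact hU
        rw [this, htop]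
        trivial
    · right
      intro x y
      refine k2 y x ?_
      have : F₂ = F := by
        rw [Set.not_nonempty_iff_eq_empty.mp hE1, Set.empty_union] at hU
        exact hU
      rw [this, htop]
      trivial

/-! ### Necessity -/

lemma commuting_symm {θ φ : Setoid E} (h : Commuting θ φ) : Commuting φ θ := by
  intro x y z hxy hyz
  obtain ⟨w, h1, h2⟩ := h z y x (θ.symm hyz) (φ.symm hxy)
  exact ⟨w, θ.symm h2, φ.symm h1⟩

lemma commuting_sSup {θ : Setoid E} {G : Set (Setoid E)} (h : ∀ φ ∈ G, Commuting θ φ)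
    {z y y' : E} (hzy : (sSup G) z y) (hy : θ z y') : ∃ w, θ y w ∧ (sSup G) y' w := by
  refine inv_of_join (P := fun u => ∃ w, θ u w ∧ (sSup G) y' w) ?_ hzy ⟨y', hy, (sSup G).refl _⟩
  rintro φ hφ a b hab ⟨w, h1, h2⟩
  obtain ⟨v, h3, h4⟩ := h φ hφ w a b (θ.symm h1) hab
  exact ⟨v, θ.symm h4, (sSup G).trans h2 (mem_join hφ h3)⟩

theorem not_splits [Nonempty E] (hn : ∀ θ ∈ F, ∀ x, ∃ y, y ≠ x ∧ θ x y) (htop : sSup F = ⊤)
    (hP : PropertyP F) : ¬ Splits F := by
  rintro ⟨F₁, F₂, ⟨α, hα⟩, ⟨β, hβ⟩, hU, hc, hm⟩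
  obtain ⟨x₀⟩ := ‹Nonempty E›
  have hF1 : ∀ θ ∈ F₁, θ ∈ F := fun θ h => hU ▸ Or.inl h
  have hF2 : ∀ θ ∈ F₂, θ ∈ F := fun θ h => hU ▸ Or.inr h
  have huniq : ∀ {u v : E}, (sSup F₁) u v → (sSup F₂) u v → u = v := by
    intro u v h1 h2
    have h3 : (sSup F₁ ⊓ sSup F₂) u v := ⟨h1, h2⟩
    rw [hm] at h3
    exact h3
  have hexi : ∀ x y : E, ∃ z, (sSup F₁) x z ∧ (sSup F₂) z y := by
    intro x y
    have hxy : (sSup F) x y := by rw [htop]; trivial
    refine inv_of_join (P := fun u => ∃ z, (sSup F₁) x z ∧ (sSup F₂) z u) ?_ hxy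
      ⟨x, (sSup F₁).refl _, (sSup F₂).refl _⟩
    rintro θ hθ a b hab ⟨z, h1, h2⟩
    rw [← hU] at hθ
    rcases hθ with hθ | hθ
    · obtain ⟨w, h3, h4⟩ := commuting_sSup (fun φ hφ => hc θ hθ φ hφ) ((sSup F₂).symm h2) hab
      exact ⟨w, (sSup F₁).trans h1 (mem_join hθ h3), (sSup F₂).symm h4⟩
    · exact ⟨z, h1, (sSup F₂).trans h2 (mem_join hθ hab)⟩
  choose g hg1 hg2 using hexi
  have hgu : ∀ x y z, (sSup F₁) x z → (sSup F₂) z y → z = g x y := by
    intro x y z h1 h2
    exact huniq ((sSup F₁).trans ((sSup F₁).symm h1) (hg1 x y))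
      ((sSup F₂).trans h2 ((sSup F₂).symm (hg2 x y)))
  rcases hP g (fun x => (hgu x x x ((sSup F₁).refl _) ((sSup F₂).refl _)).symm) (by
    intro θ hθ x x' y y' hx hy
    rw [← hU] at hθ
    rcases hθ with hθ | hθ
    · obtain ⟨w, h3, h4⟩ := commuting_sSup (fun φ hφ => hc θ hθ φ hφ)
        ((sSup F₂).symm (hg2 x y)) hy
      have e : w = g x' y' := by
        refine hgu _ _ _ ?_ ((sSup F₂).symm h4)
        exact (sSup F₁).trans (mem_join hθ (θ.symm hx)) ((sSup F₁).trans (hg1 x y)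
          (mem_join hθ h3))
      rw [← e]
      exact h3
    · obtain ⟨w, h3, h4⟩ := commuting_sSup (fun φ hφ => commuting_symm (hc φ hφ θ hθ))
        (hg1 x y) hx
      have e : w = g x' y' := by
        refine hgu _ _ _ h4 ?_
        exact (sSup F₂).trans (mem_join hθ (θ.symm h3)) ((sSup F₂).trans (hg2 x y)
          (mem_join hθ hy))
      rw [← e]
      exact h3) with h | h
  · obtain ⟨y, hy, hxy⟩ := hn α (hF1 α hα) x₀
    have e : y = g x₀ y := hgu _ _ _ (mem_join hα hxy) ((sSup F₂).refl _)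
    rw [h] at e
    exact hy e
  · obtain ⟨y, hy, hxy⟩ := hn β (hF2 β hβ) x₀
    have e : x₀ = g x₀ y := hgu _ _ _ ((sSup F₁).refl _) (mem_join hβ hxy)
    rw [h] at e
    exact hy e.symm

theorem main_local [Nontrivial E] (H : Hyp F)
    (h2 : ∀ θ ∈ F, (∀ φ ∈ F, φ ≠ θ → Commuting θ φ) →
      ∀ x y z, θ x y → θ x z → x = y ∨ x = z ∨ y = z) :
    PropertyP F ↔ sSup F = ⊤ ∧ F.Nontrivial ∧ ¬ Splits F := by
  constructor
  · intro hP
    have htop := Pool.Agent.Helper70.SqFree.sSup_eq_top_of_propertyP hP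
    refine ⟨htop, ?_, not_splits H.nt htop hP⟩
    obtain ⟨x⟩ := (inferInstance : Nonempty E)
    obtain ⟨θ, hθ, φ, hφ, hne, _⟩ := Pool.Agent.Helper70.SqFree.leafless_of_propertyP hP x
    exact ⟨θ, hθ, φ, hφ, hne⟩
  · rintro ⟨htop, hnt, hsp⟩
    exact sufficiency H h2 htop hnt hsp

/-- The local-to-global criterion: two different members always generate grids or classes on
which they have property (P). -/
theorem main [Nontrivial E] (F : Set (Setoid E))
    (h1 : ∀ θ ∈ F, ∀ x, ∃ y, y ≠ x ∧ θ x y)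
    (h2 : ∀ θ ∈ F, ∀ φ ∈ F, θ ≠ φ → ∀ x, GridAt θ φ x ∨ RigidAt θ φ x)
    (h3 : ∀ θ ∈ F, (∀ φ ∈ F, φ ≠ θ → Commuting θ φ) →
      ∀ x y z, θ x y → θ x z → x = y ∨ x = z ∨ y = z) :
    PropertyP F ↔ sSup F = ⊤ ∧ F.Nontrivial ∧ ¬ Splits F := by
  have hJ : ∀ θ φ : Setoid E, sSup {θ, φ} = θ ⊔ φ := fun θ φ => sSup_pair
  refine main_local ⟨h1, ?_, ?_⟩ h3
  · intro θ hθ φ hφ hne x y hxy hxy'
    have e1 : (θ ⊔ φ) x x := (θ ⊔ φ).refl x
    have e2 : (θ ⊔ φ) x y := (le_sup_left : θ ≤ θ ⊔ φ) hxy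
    rcases h2 θ hθ φ hφ hne x with h | h
    · obtain ⟨w, _, hw⟩ := h x y e1 e2
      have a1 := hw x ⟨θ.refl x, hxy'⟩
      have a2 := hw y ⟨hxy, φ.refl y⟩
      exact a1.trans a2.symm
    · by_contra hcon
      have h' := rig_of_subtype h
      have hmv : ∀ ψ : Setoid E, ψ x y → ∀ u v : E, ψ u (if u = x ∧ v ≠ x then y else u) := by
        intro ψ hψ u v
        split_ifs with hc
        · rw [hc.1]; exact hψ
        · exact ψ.refl u
      have hpr : ∀ ψ : Setoid E, ψ x y → ∀ u u' v v' : E, ψ u u' → ψ v v' →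
          ψ (if u = x ∧ v ≠ x then y else u) (if u' = x ∧ v' ≠ x then y else u') := by
        intro ψ hψ u u' v v' huu _
        exact ψ.trans (ψ.symm (hmv ψ hψ u v)) (ψ.trans huu (hmv ψ hψ u' v'))
      rw [← hJ] at e1 e2
      rcases h' (fun u v => if u = x ∧ v ≠ x then y else u) (by
        intro u v hu _
        exact (sSup {θ, φ}).trans hu (mem_join (by simp) (hmv θ hxy u v))) (by
        intro u _
        show (if u = x ∧ u ≠ x then y else u) = u
        rw [if_neg (fun h => h.2 h.1)])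
        (fun u u' v v' _ _ => hpr θ hxy u u' v v') (fun u u' v v' _ _ => hpr φ hxy' u u' v v')
        with h5 | h5
      · have h6 : (if x = x ∧ y ≠ x then y else x) = x := h5 x y e1 e2
        rw [if_pos ⟨rfl, fun h => hcon h.symm⟩] at h6
        exact hcon h6.symm
      · have h6 : (if y = x ∧ x ≠ x then y else y) = x := h5 y x e2 e1
        rw [if_neg (fun h => h.2 rfl)] at h6
        exact hcon h6.symm
  · intro θ hθ φ hφ hne x
    rcases h2 θ hθ φ hφ hne x with h | h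
    · left
      intro u hu y z hy hz
      rw [hJ] at hu
      obtain ⟨w, ⟨h4, h5⟩, _⟩ := h z y ((θ ⊔ φ).trans hu ((le_sup_right : φ ≤ θ ⊔ φ) hz))
        ((θ ⊔ φ).trans hu ((le_sup_left : θ ≤ θ ⊔ φ) hy))
      exact ⟨w, φ.symm h5, h4⟩
    · exact Or.inr (rig_of_subtype h)

/-- The criterion for families whose members have only classes with exactly two elements. -/
theorem main_thin [Finite E] [Nontrivial E] (F : Set (Setoid E))
    (h1 : ∀ θ ∈ F, ∀ x, ∃! y, y ≠ x ∧ θ x y)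
    (h2 : ∀ θ ∈ F, ∀ φ ∈ F, θ ≠ φ → θ ⊓ φ = ⊥) :
    PropertyP F ↔ sSup F = ⊤ ∧ F.Nontrivial ∧ ¬ Splits F := by
  have hu : ∀ θ ∈ F, ∀ x y z, y ≠ x → z ≠ x → θ x y → θ x z → y = z := by
    intro θ hθ x y z hy hz hxy hxz
    exact (h1 θ hθ x).unique ⟨hy, hxy⟩ ⟨hz, hxz⟩
  refine main_local (hyp_of_local ⟨fun θ hθ x => (h1 θ hθ x).exists, ?_, ?_⟩) ?_
  · intro θ hθ φ hφ hne x y hxy hxy'
    have h3 : (θ ⊓ φ) x y := ⟨hxy, hxy'⟩
    rw [h2 θ hθ φ hφ hne] at h3
    exact h3
  · intro θ hθ φ hφ hne x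
    obtain ⟨y₀, hy₀, hxy₀⟩ := (h1 θ hθ x).exists
    obtain ⟨z₀, hz₀, hxz₀⟩ := (h1 φ hφ x).exists
    by_cases hw : ∃ w, φ y₀ w ∧ θ z₀ w
    · left
      intro y z hy hz
      by_cases e1 : y = x
      · rw [e1]; exact ⟨z, hz, θ.refl z⟩
      by_cases e2 : z = x
      · rw [e2]; exact ⟨y, φ.refl y, hy⟩
      rw [hu θ hθ x y y₀ e1 hy₀ hy hxy₀, hu φ hφ x z z₀ e2 hz₀ hz hxz₀]
      exact hw
    · right
      intro y z w hy hz h4 h5
      by_contra hcon
      push Not at hcon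
      obtain ⟨e1, e2⟩ := hcon
      apply hw
      rw [← hu θ hθ x y y₀ e1 hy₀ hy hxy₀, ← hu φ hφ x z z₀ e2 hz₀ hz hxz₀]
      exact ⟨w, h4, h5⟩
  · intro θ hθ _ x y z hxy hxz
    by_cases e1 : y = x
    · exact Or.inl e1.symm
    by_cases e2 : z = x
    · exact Or.inr (Or.inl e2.symm)
    exact Or.inr (Or.inr (hu θ hθ x y z e1 e2 hxy hxz))

end

end Pool.Agent.Helper74.Idem.Chamber
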