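import Mathlib
import Pool.Agent.Helper74.Idem.Chamber
import Pool.Agent.Helper74.Idem.BuildingDefs

set_option autoImplicit false

/-!
The chamber systems of finite buildings.
-/

namespace Pool.Agent.Helper74.Idem.Building

open Classical
open Pool.Agent.Helper70.IdemDefs Pool.Agent.Helper74.Idem.ChamberDefs
open Pool.Agent.Helper74.Idem.Chamber Pool.Agent.Helper74.Idem.BuildingDefs

/-! ### Coxeter groups -/

section Coxeter

variable {B W : Type*} [Group W] {M : CoxeterMatrix B} (cs : CoxeterSystem M W)

lemma simple_ne_one (i : B) : cs.simple i ≠ 1 := by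
  intro h
  have h1 := cs.length_simple i
  rw [h, cs.length_one] at h1
  omega

lemma mul_ne_one {i j : B} (h : cs.simple i ≠ cs.simple j) : cs.simple i * cs.simple j ≠ 1 := by
  intro h1
  apply h
  have h2 := congrArg (fun w => w * cs.simple j) h1
  simpa [mul_assoc] using h2

lemma length_two {i j : B} (h : cs.simple i ≠ cs.simple j) :
    cs.length (cs.simple i * cs.simple j) = 2 := by
  rcases cs.length_simple_mul (cs.simple j) i with h1 | h1
  · rw [h1, cs.length_simple]
  · rw [cs.length_simple] at h1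
    have h2 : cs.length (cs.simple i * cs.simple j) = 0 := by omega
    exact (mul_ne_one cs h (cs.length_eq_zero_iff.mp h2)).elim

/-- If the simple reflections in `T` commute with the others, there is an endomorphism which fixes
the first and kills the second. -/
lemma exists_retraction {T : Set W}
    (hT : ∀ s ∈ T, ∀ t ∈ Set.range cs.simple \ T, s * t = t * s) :
    ∃ r : W →* W, (∀ i, cs.simple i ∈ T → r (cs.simple i) = cs.simple i) ∧
      (∀ i, cs.simple i ∉ T → r (cs.simple i) = 1) := by
  have key : ∀ i j, cs.simple i ∈ T → cs.simple j ∉ T → cs.simple i ^ M i j = 1 := by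
    intro i j hi hj
    have hc : Commute (cs.simple i) (cs.simple j) := hT _ hi _ ⟨⟨j, rfl⟩, hj⟩
    rcases Nat.even_or_odd' (M i j) with ⟨k, hk | hk⟩
    · rw [hk, pow_mul, cs.simple_sq, one_pow]
    · exfalso
      have h1 := cs.simple_mul_simple_pow i j
      rw [hc.mul_pow, hk, pow_succ, pow_succ, pow_mul, pow_mul, cs.simple_sq, cs.simple_sq,
        one_pow, one_mul, one_mul] at h1
      have h2 : cs.simple i = cs.simple j := by
        have h3 := congrArg (fun w => w * cs.simple j) h1
        simpa [mul_assoc] using h3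
      rw [h2] at hi
      exact hj hi
  let f : B → W := fun i => if cs.simple i ∈ T then cs.simple i else 1
  have hf : M.IsLiftable f := by
    intro i j
    by_cases hi : cs.simple i ∈ T
    · by_cases hj : cs.simple j ∈ T
      · simp only [f, if_pos hi, if_pos hj]
        exact cs.simple_mul_simple_pow i j
      · simp only [f, if_pos hi, if_neg hj, mul_one]
        exact key i j hi hj
    · by_cases hj : cs.simple j ∈ T
      · simp only [f, if_neg hi, if_pos hj, one_mul]
        rw [M.symmetric]
        exact key j i hj hi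
      · simp only [f, if_neg hi, if_neg hj, one_mul, one_pow]
  refine ⟨cs.lift ⟨f, hf⟩, ?_, ?_⟩
  · intro i hi
    rw [cs.lift_apply_simple hf i]
    simp only [f, if_pos hi]
  · intro i hi
    rw [cs.lift_apply_simple hf i]
    simp only [f, if_neg hi]

lemma closure_meet {T : Set W} (hTS : T ⊆ Set.range cs.simple)
    (hT : ∀ s ∈ T, ∀ t ∈ Set.range cs.simple \ T, s * t = t * s) {w : W}
    (h1 : w ∈ Subgroup.closure T) (h2 : w ∈ Subgroup.closure (Set.range cs.simple \ T)) :
    w = 1 := by
  obtain ⟨r, hr1, hr2⟩ := exists_retraction cs hT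
  have e1 : r w = w := by
    have h3 : Subgroup.closure T ≤ r.eqLocus (MonoidHom.id W) := by
      rw [Subgroup.closure_le]
      intro s hs
      obtain ⟨i, rfl⟩ := hTS hs
      exact hr1 i hs
    exact h3 h1
  have e2 : r w = 1 := by
    have h3 : Subgroup.closure (Set.range cs.simple \ T) ≤ r.ker := by
      rw [Subgroup.closure_le]
      rintro s ⟨⟨i, rfl⟩, hs⟩
      exact hr2 i hs
    exact h3 h2
  exact e1.symm.trans e2

end Coxeter

/-! ### Buildings -/

section Building

variable {B W C : Type*} [Group W] {M : CoxeterMatrix B} {cs : CoxeterSystem M W}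
  {δ : C → C → W} (h : IsBuilding cs δ)

include h

lemma adj_iff (i : B) (x y : C) : adjacency h i x y ↔ x = y ∨ δ x y = cs.simple i := Iff.rfl

lemma adj_eq {i j : B} (hij : cs.simple i = cs.simple j) : adjacency h i = adjacency h j := by
  apply Setoid.ext
  intro x y
  rw [adj_iff, adj_iff, hij]

lemma adj_triv {i j : B} (hij : cs.simple i ≠ cs.simple j) {x y : C}
    (h1 : adjacency h i x y) (h2 : adjacency h j x y) : x = y := by
  rcases h1 with h1 | h1
  · exact h1
  · rcases h2 with h2 | h2
    · exact h2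
    · exact (hij (h1.symm.trans h2)).elim

lemma adj_nt (i : B) (x : C) : ∃ y, y ≠ x ∧ adjacency h i x y := by
  obtain ⟨y, h1, _⟩ := h.wd3 x x i
  refine ⟨y, ?_, Or.inr (h.symm_simple h1)⟩
  intro he
  rw [(h.wd1 y x).mpr he] at h1
  exact simple_ne_one cs i h1.symm

lemma adj_inj {i j : B} (x : C) (hij : adjacency h i = adjacency h j) :
    cs.simple i = cs.simple j := by
  by_contra hne
  obtain ⟨y, hy, hxy⟩ := adj_nt h i x
  have h2 : adjacency h j x y := by rw [← hij]; exact hxy
  exact hy (adj_triv h hne hxy h2).symm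

lemma adj_CA {i j : B} (hne : cs.simple i ≠ cs.simple j)
    (hc : cs.simple i * cs.simple j = cs.simple j * cs.simple i) (x : C) :
    CA (adjacency h i) (adjacency h j) x := by
  intro y z hy hz
  rcases hy with hy | hy
  · subst hy
    exact ⟨z, hz, Or.inl rfl⟩
  rcases hz with hz | hz
  · subst hz
    exact ⟨y, Or.inl rfl, Or.inr hy⟩
  have hyx := h.symm_simple hy
  have hyz : δ y z = cs.simple i * cs.simple j := by
    have h1 := (h.wd2 x y z i hyx).2
    rw [hz, length_two cs hne, cs.length_simple] at h1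
    exact h1 rfl
  obtain ⟨w, h2, h3⟩ := h.wd3 y z j
  refine ⟨w, Or.inr (h.symm_simple h2), Or.inr (h.symm_simple ?_)⟩
  rw [h3, hyz, hc, cs.simple_mul_simple_cancel_left]

lemma adj_CN {i j : B}
    (hc : cs.simple i * cs.simple j ≠ cs.simple j * cs.simple i) (x : C) :
    CN (adjacency h i) (adjacency h j) x := by
  have hne : cs.simple i ≠ cs.simple j := by
    intro he; rw [he] at hc; exact hc rfl
  intro y z w hy hz h1 h2
  rcases hy with hy | hy
  · exact Or.inl hy.symm
  rcases hz with hz | hz
  · exact Or.inr hz.symm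
  exfalso
  have hyx := h.symm_simple hy
  have hyz : δ y z = cs.simple i * cs.simple j := by
    have h1 := (h.wd2 x y z i hyx).2
    rw [hz, length_two cs hne, cs.length_simple] at h1
    exact h1 rfl
  have h2' := (adjacency h i).symm h2
  have hwz : δ w z = 1 ∨ δ w z = cs.simple i := by
    rcases h2' with h2' | h2'
    · exact Or.inl ((h.wd1 w z).mpr h2')
    · exact Or.inr h2'
  have a1 : cs.simple i * cs.simple j ≠ 1 := mul_ne_one cs hne
  have a2 : cs.simple i * cs.simple j ≠ cs.simple i := by
    intro he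
    have := mul_eq_left.mp he
    exact simple_ne_one cs j this
  have a3 : cs.simple i * cs.simple j ≠ cs.simple j := by
    intro he
    have := mul_eq_right.mp he
    exact simple_ne_one cs i this
  rcases h1 with h1 | h1
  · rw [← h1, hyz] at hwz
    rcases hwz with e | e
    · exact a1 e
    · exact a2 e
  · rcases (h.wd2 w y z j h1).1 with h3 | h3
    · rcases hwz with e | e
      · rw [e, mul_one, hyz] at h3
        exact a3 h3
      · rw [e, hyz] at h3
        exact hc h3
    · rw [h3] at hyz
      rcases hwz with e | e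
      · exact a1 (hyz.symm.trans e)
      · exact a2 (hyz.symm.trans e)

lemma adj_hypL : HypL (Set.range (adjacency h)) := by
  refine ⟨?_, ?_, ?_⟩
  · rintro _ ⟨i, rfl⟩ x
    exact adj_nt h i x
  · rintro _ ⟨i, rfl⟩ _ ⟨j, rfl⟩ hne x y h1 h2
    exact adj_triv h (fun he => hne (adj_eq h he)) h1 h2
  · rintro _ ⟨i, rfl⟩ _ ⟨j, rfl⟩ hne x
    by_cases hc : cs.simple i * cs.simple j = cs.simple j * cs.simple i
    · exact Or.inl (adj_CA h (fun he => hne (adj_eq h he)) hc x)
    · exact Or.inr (adj_CN h hc x)

lemma adj_top : sSup (Set.range (adjacency h)) = ⊤ := by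
  have key : ∀ n, ∀ x y, cs.length (δ x y) = n → (sSup (Set.range (adjacency h))) x y := by
    intro n
    induction n using Nat.strong_induction_on with
    | _ n ih =>
      intro x y hn
      by_cases he : δ x y = 1
      · rw [(h.wd1 x y).mp he]
      · obtain ⟨i, hi⟩ := cs.exists_leftDescent_of_ne_one he
        obtain ⟨x', h1, h2⟩ := h.wd3 x y i
        have hi' : cs.length (cs.simple i * δ x y) < cs.length (δ x y) := hi
        have h3 : (sSup (Set.range (adjacency h))) x' y :=
          ih (cs.length (δ x' y)) (by rw [h2, ← hn]; exact hi') x' y rfl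
        have h4 : (sSup (Set.range (adjacency h))) x x' :=
          mem_join (F := Set.range (adjacency h)) (θ := adjacency h i) ⟨i, rfl⟩
            (Or.inr (h.symm_simple h1))
        exact (sSup (Set.range (adjacency h))).trans h4 h3
  rw [eq_top_iff]
  intro x y _
  exact key _ x y rfl

lemma mem_closure_of_join {T : Set W} {x y : C}
    (hxy : (sSup {θ | ∃ i, cs.simple i ∈ T ∧ θ = adjacency h i}) x y) :
    δ x y ∈ Subgroup.closure T := by
  refine inv_of_join (F := {θ | ∃ i, cs.simple i ∈ T ∧ θ = adjacency h i})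
    (P := fun z => δ z y ∈ Subgroup.closure T) ?_
    ((sSup {θ | ∃ i, cs.simple i ∈ T ∧ θ = adjacency h i}).symm hxy) ?_
  · rintro _ ⟨i, hi, rfl⟩ a b hab ha
    rcases hab with hab | hab
    · rw [← hab]; exact ha
    · rcases (h.wd2 a b y i (h.symm_simple hab)).1 with h1 | h1
      · show δ b y ∈ Subgroup.closure T
        rw [h1]
        exact Subgroup.mul_mem _ (Subgroup.subset_closure hi) ha
      · show δ b y ∈ Subgroup.closure T
        rw [h1]
        exact ha
  · show δ y y ∈ Subgroup.closure T
    rw [(h.wd1 y y).mpr rfl]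
    exact Subgroup.one_mem _

/-- The family of the adjacency relations of a finite building with at least two chambers has
property (P) if and only if the building is irreducible of rank at least two. -/
theorem building_main [Finite C] [Nontrivial C] :
    PropertyP (Set.range (adjacency h)) ↔
      (Set.range cs.simple).Nontrivial ∧ IrreducibleSystem cs := by
  have HL := adj_hypL h
  have H := hyp_of_local HL
  obtain ⟨x₀⟩ := (inferInstance : Nonempty C)
  constructor
  · intro hP
    constructor
    · obtain ⟨θ, ⟨i, hi⟩, φ, ⟨j, hj⟩, hne, _⟩ :=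
        Pool.Agent.Helper70.SqFree.leafless_of_propertyP hP x₀
      refine ⟨cs.simple i, ⟨i, rfl⟩, cs.simple j, ⟨j, rfl⟩, ?_⟩
      intro he
      apply hne
      rw [← hi, ← hj]
      exact adj_eq h he
    · intro T hTS hT hT'
      by_contra hcon
      push Not at hcon
      refine not_splits H.nt (adj_top h) hP ⟨{θ | ∃ i, cs.simple i ∈ T ∧ θ = adjacency h i},
        {θ | ∃ i, cs.simple i ∈ Set.range cs.simple \ T ∧ θ = adjacency h i}, ?_, ?_, ?_, ?_, ?_⟩
      · obtain ⟨s, hs⟩ := hT
        obtain ⟨i, rfl⟩ := hTS hs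
        exact ⟨adjacency h i, i, hs, rfl⟩
      · obtain ⟨s, hs⟩ := hT'
        obtain ⟨i, rfl⟩ := hs.1
        exact ⟨adjacency h i, i, hs, rfl⟩
      · ext θ
        constructor
        · rintro (⟨i, _, rfl⟩ | ⟨i, _, rfl⟩)
          · exact ⟨i, rfl⟩
          · exact ⟨i, rfl⟩
        · rintro ⟨i, rfl⟩
          by_cases hi : cs.simple i ∈ T
          · exact Or.inl ⟨i, hi, rfl⟩
          · exact Or.inr ⟨i, ⟨⟨i, rfl⟩, hi⟩, rfl⟩
      · rintro _ ⟨i, hi, rfl⟩ _ ⟨j, hj, rfl⟩ x y z hxy hyz
        have hne : cs.simple i ≠ cs.simple j := by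
          intro he
          rw [he] at hi
          exact hj.2 hi
        obtain ⟨w, h1, h2⟩ := adj_CA h hne (hcon _ hi _ hj) y x z
          ((adjacency h i).symm hxy) hyz
        exact ⟨w, h1, (adjacency h i).symm h2⟩
      · rw [eq_bot_iff]
        rintro x y ⟨h1, h2⟩
        have e1 := mem_closure_of_join h h1
        have e2 := mem_closure_of_join h h2
        exact (h.wd1 x y).mp (closure_meet cs hTS hcon e1 e2)
  · rintro ⟨hnt, hirr⟩
    have hcomm : ∀ i j, Commuting (adjacency h i) (adjacency h j) →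
        cs.simple i * cs.simple j = cs.simple j * cs.simple i := by
      intro i j hc
      by_contra hne
      refine not_both HL (θ := adjacency h i) (φ := adjacency h j) ⟨i, rfl⟩ ⟨j, rfl⟩ (x := x₀)
        ?_ (adj_CN h hne x₀)
      intro y z hy hz
      obtain ⟨w, h1, h2⟩ := hc y x₀ z ((adjacency h i).symm hy) hz
      exact ⟨w, h1, (adjacency h i).symm h2⟩
    refine sufficiency H ?_ (adj_top h) ?_ ?_
    · rintro _ ⟨i, rfl⟩ hall
      exfalso
      obtain ⟨t, ht, hti⟩ := hnt.exists_ne (cs.simple i)
      obtain ⟨s, hs, u, ⟨⟨j, rfl⟩, hu⟩, hsu⟩ := hirr {cs.simple i}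
        (by rintro _ rfl; exact ⟨i, rfl⟩) ⟨_, rfl⟩ ⟨t, ht, hti⟩
      have hs' : s = cs.simple i := hs
      subst hs'
      refine hsu (hcomm i j (hall _ ⟨j, rfl⟩ ?_))
      intro he
      exact hu (adj_inj h x₀ he)
    · obtain ⟨_, ⟨i, rfl⟩, _, ⟨j, rfl⟩, hne⟩ := hnt
      exact ⟨adjacency h i, ⟨i, rfl⟩, adjacency h j, ⟨j, rfl⟩, fun he => hne (adj_inj h x₀ he)⟩
    · rintro ⟨F₁, F₂, hF1, hF2, hU, hc, hm⟩
      have hdis : ∀ θ, θ ∈ F₁ → θ ∈ F₂ → False := by
        intro θ h1 h2
        have hθ : θ ∈ Set.range (adjacency h) := by rw [← hU]; exact Or.inl h1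
        obtain ⟨y, hy, hxy⟩ := H.nt θ hθ x₀
        have h3 : (sSup F₁ ⊓ sSup F₂) x₀ y := ⟨mem_join h1 hxy, mem_join h2 hxy⟩
        rw [hm] at h3
        exact hy (show x₀ = y from h3).symm
      let T : Set W := {s | ∃ i, s = cs.simple i ∧ adjacency h i ∈ F₁}
      obtain ⟨s, ⟨i, rfl, hi⟩, t, ⟨⟨j, rfl⟩, hj⟩, hst⟩ := hirr T
        (by rintro _ ⟨i, rfl, _⟩; exact ⟨i, rfl⟩)
        (by
          obtain ⟨θ, hθ⟩ := hF1
          have h1 : θ ∈ Set.range (adjacency h) := by rw [← hU]; exact Or.inl hθ
          obtain ⟨i, rfl⟩ := h1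
          exact ⟨cs.simple i, i, rfl, hθ⟩)
        (by
          obtain ⟨θ, hθ⟩ := hF2
          have h1 : θ ∈ Set.range (adjacency h) := by rw [← hU]; exact Or.inr hθ
          obtain ⟨j, rfl⟩ := h1
          refine ⟨cs.simple j, ⟨j, rfl⟩, ?_⟩
          rintro ⟨i, hij, hi⟩
          rw [← adj_eq h hij] at hi
          exact hdis _ hi hθ)
      have h1 : adjacency h j ∈ F₂ := by
        have h2 : adjacency h j ∈ F₁ ∪ F₂ := by rw [hU]; exact ⟨j, rfl⟩
        rcases h2 with h2 | h2
        · exact (hj ⟨j, rfl, h2⟩).elim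
        · exact h2
      exact hst (hcomm i j (hc _ hi _ h1))

end Building

end Pool.Agent.Helper74.Idem.Building
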