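import Mathlib

/-!
The maximal chains of a lattice and the relations of differing in one element.
-/

namespace Pool.Agent.Helper74.Idem.ChainDefs

/-- The chains `⊥ = c 0 ⋖ c 1 ⋖ ... ⋖ c n = ⊤` of length `n` (continued by `⊤`). -/
def MaxChain (L : Type*) [PartialOrder L] [BoundedOrder L] (n : ℕ) : Type _ :=
  {c : ℕ → L // c 0 = ⊥ ∧ (∀ i < n, c i ⋖ c (i + 1)) ∧ ∀ i, n ≤ i → c i = ⊤}

/-- Two chains are related if they agree except possibly in the element at position `i`. -/
def sameOff (L : Type*) [PartialOrder L] [BoundedOrder L] (n i : ℕ) : Setoid (MaxChain L n) where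
  r c d := ∀ j, j ≠ i → c.1 j = d.1 j
  iseqv := ⟨fun _ _ _ => rfl, fun h j hj => (h j hj).symm,
    fun h h' j hj => (h j hj).trans (h' j hj)⟩

/-- The relations for the positions `0 < i < n`. -/
def chainFamily (L : Type*) [PartialOrder L] [BoundedOrder L] (n : ℕ) :
    Set (Setoid (MaxChain L n)) :=
  {θ | ∃ i, 0 < i ∧ i < n ∧ θ = sameOff L n i}

end Pool.Agent.Helper74.Idem.ChainDefs
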