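import Mathlib
import Pool.Agent.Helper74.Idem.Chamber
import Pool.Agent.Helper74.Idem.ChainDefs

set_option autoImplicit false

/-!
The maximal chains of finite lattices.
-/

namespace Pool.Agent.Helper74.Idem.Chains

open Classical
open Pool.Agent.Helper70.IdemDefs Pool.Agent.Helper74.Idem.ChamberDefs
open Pool.Agent.Helper74.Idem.Chamber Pool.Agent.Helper74.Idem.ChainDefs

section

variable {L : Type*} [Lattice L] [BoundedOrder L] {n : ℕ}

lemma finite_chains [Finite L] : Finite (MaxChain L n) := by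
  refine Finite.of_injective (fun c : MaxChain L n => fun i : Fin n => c.1 i) ?_
  intro c d h
  apply Subtype.ext
  funext i
  by_cases hi : i < n
  · exact congrFun h ⟨i, hi⟩
  · rw [c.2.2.2 i (by omega), d.2.2.2 i (by omega)]

/-- a chain with the element at position `i` replaced -/
lemma exists_replace (c : MaxChain L n) {i : ℕ} (h0 : 0 < i) (hn : i < n) {b : L}
    (h1 : c.1 (i - 1) ⋖ b) (h2 : b ⋖ c.1 (i + 1)) :
    ∃ d : MaxChain L n, d.1 = Function.update c.1 i b := by
  refine ⟨⟨Function.update c.1 i b, ?_, ?_, ?_⟩, rfl⟩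
  · rw [Function.update_of_ne (by omega)]
    exact c.2.1
  · intro j hj
    by_cases e1 : j = i
    · subst e1
      rw [Function.update_self, Function.update_of_ne (by omega)]
      exact h2
    · by_cases e2 : j + 1 = i
      · subst e2
        rw [Function.update_self, Function.update_of_ne e1]
        simpa using h1
      · rw [Function.update_of_ne e1, Function.update_of_ne e2]
        exact c.2.2.1 j hj
  · intro j hj
    rw [Function.update_of_ne (by omega)]
    exact c.2.2.2 j hj

lemma same_iff (i : ℕ) (c d : MaxChain L n) :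
    sameOff L n i c d ↔ ∀ j, j ≠ i → c.1 j = d.1 j := Iff.rfl

lemma chain_CN {i : ℕ} (h0 : 0 < i) (hn : i + 1 < n) (x : MaxChain L n) :
    CN (sameOff L n i) (sameOff L n (i + 1)) x := by
  intro y z w hy hz h1 h2
  by_contra hcon
  push Not at hcon
  obtain ⟨hyx, hzx⟩ := hcon
  rw [same_iff] at hy hz h1 h2
  have e1 : x.1 i ≠ y.1 i := by
    intro he
    apply hyx
    apply Subtype.ext
    funext j
    by_cases hj : j = i
    · rw [hj]; exact he.symm
    · exact (hy j hj).symm
  have e2 : x.1 (i + 1) ≠ z.1 (i + 1) := by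
    intro he
    apply hzx
    apply Subtype.ext
    funext j
    by_cases hj : j = i + 1
    · rw [hj]; exact he.symm
    · exact (hz j hj).symm
  -- the elements
  have a1 : x.1 i ⋖ x.1 (i + 1) := x.2.2.1 i (by omega)
  have a2 : y.1 i ⋖ x.1 (i + 1) := by
    have := y.2.2.1 i (by omega)
    rwa [← hy (i + 1) (by omega)] at this
  have a3 : x.1 i ⋖ z.1 (i + 1) := by
    have := z.2.2.1 i (by omega)
    rwa [← hz i (by omega)] at this
  have a4 : y.1 i ⋖ z.1 (i + 1) := by
    have := w.2.2.1 i (by omega)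
    rwa [← h1 i (by omega), ← h2 (i + 1) (by omega)] at this
  have b1 : x.1 (i - 1) ⋖ x.1 i := by
    have := x.2.2.1 (i - 1) (by omega)
    rwa [show i - 1 + 1 = i by omega] at this
  have b2 : x.1 (i - 1) ⋖ y.1 i := by
    have := y.2.2.1 (i - 1) (by omega)
    rwa [show i - 1 + 1 = i by omega, ← hy (i - 1) (by omega)] at this
  have hnle : ¬ y.1 i ≤ x.1 i := by
    intro hle
    rcases hle.lt_or_eq with h3 | h3
    · exact b1.2 b2.1 h3
    · exact e1 h3.symm
  have hlt : x.1 i < x.1 i ⊔ y.1 i := lt_of_le_of_ne le_sup_left (fun he => hnle (by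
    rw [he]; exact le_sup_right))
  have c1 : x.1 i ⊔ y.1 i = x.1 (i + 1) := by
    rcases (sup_le a1.le a2.le).lt_or_eq with h3 | h3
    · exact (a1.2 hlt h3).elim
    · exact h3
  have c2 : x.1 i ⊔ y.1 i = z.1 (i + 1) := by
    rcases (sup_le a3.le a4.le).lt_or_eq with h3 | h3
    · exact (a3.2 hlt h3).elim
    · exact h3
  exact e2 (c1.symm.trans c2)

lemma chain_CA {i j : ℕ} (hi0 : 0 < i) (hin : i < n) (hj0 : 0 < j) (hjn : j < n)
    (hij : i + 1 < j ∨ j + 1 < i) (x : MaxChain L n) :
    CA (sameOff L n i) (sameOff L n j) x := by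
  intro y z hy hz
  rw [same_iff] at hy hz
  obtain ⟨w, hw⟩ := exists_replace y hj0 hjn (b := z.1 j) (by
    have := z.2.2.1 (j - 1) (by omega)
    rw [show j - 1 + 1 = j by omega] at this
    rwa [← hy (j - 1) (by omega), hz (j - 1) (by omega)]) (by
    have := z.2.2.1 j (by omega)
    rwa [← hy (j + 1) (by omega), hz (j + 1) (by omega)])
  refine ⟨w, ?_, ?_⟩
  · rw [same_iff]
    intro k hk
    rw [hw, Function.update_of_ne hk]
  · rw [same_iff]
    intro k hk
    rw [hw]
    by_cases hkj : k = j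
    · subst hkj
      rw [Function.update_self]
    · rw [Function.update_of_ne hkj, ← hz k hkj, hy k hk]

variable (hth : ∀ a b c : L, a ⋖ b → b ⋖ c → ∃ b', b' ≠ b ∧ a ⋖ b' ∧ b' ⋖ c)

include hth

lemma chain_nt {i : ℕ} (h0 : 0 < i) (hn : i < n) (x : MaxChain L n) :
    ∃ y, y ≠ x ∧ sameOff L n i x y := by
  have h1 := x.2.2.1 (i - 1) (by omega)
  rw [show i - 1 + 1 = i by omega] at h1
  obtain ⟨b, hb, hb1, hb2⟩ := hth _ _ _ h1 (x.2.2.1 i hn)
  obtain ⟨y, hy⟩ := exists_replace x h0 hn hb1 hb2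
  refine ⟨y, ?_, ?_⟩
  · intro he
    apply hb
    have h2 : y.1 i = b := by rw [hy, Function.update_self]
    rw [← h2, he]
  · rw [same_iff]
    intro j hj
    rw [hy, Function.update_of_ne hj]

lemma chain_hypL : HypL (chainFamily L n) := by
  have key : ∀ i j, 0 < i → i < n → 0 < j → j < n → i < j → ∀ x,
      CA (sameOff L n i) (sameOff L n j) x ∨ CN (sameOff L n i) (sameOff L n j) x := by
    intro i j hi0 hin hj0 hjn hij x
    by_cases h : j = i + 1
    · subst h
      exact Or.inr (chain_CN hi0 hjn x)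
    · exact Or.inl (chain_CA hi0 hin hj0 hjn (Or.inl (by omega)) x)
  refine ⟨?_, ?_, ?_⟩
  · rintro _ ⟨i, h0, hn, rfl⟩ x
    exact chain_nt hth h0 hn x
  · rintro _ ⟨i, hi0, hin, rfl⟩ _ ⟨j, hj0, hjn, rfl⟩ hne x y h1 h2
    have hij : i ≠ j := fun h => hne (by rw [h])
    apply Subtype.ext
    funext k
    by_cases hk : k = i
    · exact h2 k (by rw [hk]; exact hij)
    · exact h1 k hk
  · rintro _ ⟨i, hi0, hin, rfl⟩ _ ⟨j, hj0, hjn, rfl⟩ hne x
    have hij : i ≠ j := fun h => hne (by rw [h])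
    rcases Nat.lt_or_gt_of_ne hij with h | h
    · exact key i j hi0 hin hj0 hjn h x
    · rcases key j i hj0 hjn hi0 hin h x with h1 | h1
      · exact Or.inl h1.symm
      · exact Or.inr h1.symm

/-- The maximal chains of length `n` of a finite lattice. -/
theorem chain_main [Finite L] (hn : 3 ≤ n) [Nonempty (MaxChain L n)] :
    PropertyP (chainFamily L n) ↔ sSup (chainFamily L n) = ⊤ := by
  have HL := chain_hypL (n := n) hth
  have : Finite (MaxChain L n) := finite_chains
  have H := hyp_of_local HL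
  obtain ⟨x₀⟩ := ‹Nonempty (MaxChain L n)›
  have : Nonempty (MaxChain L n) := ⟨x₀⟩
  have hmem : ∀ i, 0 < i → i < n → sameOff L n i ∈ chainFamily L n :=
    fun i h1 h2 => ⟨i, h1, h2, rfl⟩
  have hinj : ∀ i j, 0 < i → i < n → 0 < j → j < n → i ≠ j → sameOff L n i ≠ sameOff L n j := by
    intro i j h1 h2 h3 h4 hij he
    obtain ⟨y, hy, hxy⟩ := chain_nt hth h1 h2 x₀
    have hxy' : sameOff L n j x₀ y := by rw [← he]; exact hxy
    apply hy
    apply Subtype.ext
    funext k
    by_cases hk : k = i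
    · exact (hxy' k (by rw [hk]; exact hij)).symm
    · exact (hxy k hk).symm
  have hnc : ∀ i, 0 < i → i + 1 < n → ¬ Commuting (sameOff L n i) (sameOff L n (i + 1)) := by
    intro i h1 h2 hc
    refine not_both HL (hmem i h1 (by omega)) (hmem (i + 1) (by omega) h2) (x := x₀) ?_
      (chain_CN h1 h2 x₀)
    intro y z hy hz
    obtain ⟨w, h3, h4⟩ := hc y x₀ z ((sameOff L n i).symm hy) hz
    exact ⟨w, h3, (sameOff L n i).symm h4⟩
  constructor
  · exact Pool.Agent.Helper70.SqFree.sSup_eq_top_of_propertyP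
  · intro htop
    refine sufficiency H ?_ htop ?_ ?_
    · rintro _ ⟨i, hi0, hin, rfl⟩ hall
      exfalso
      by_cases h : i + 1 < n
      · exact hnc i hi0 h (hall _ (hmem (i + 1) (by omega) h)
          (hinj (i + 1) i (by omega) h hi0 hin (by omega)))
      · obtain ⟨k, rfl⟩ : ∃ k, i = k + 1 := ⟨i - 1, by omega⟩
        exact hnc k (by omega) hin (commuting_symm (hall _ (hmem k (by omega) (by omega))
          (hinj k (k + 1) (by omega) (by omega) hi0 hin (by omega))))
    · exact ⟨_, hmem 1 (by omega) (by omega), _, hmem 2 (by omega) (by omega),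
        hinj 1 2 (by omega) (by omega) (by omega) (by omega) (by omega)⟩
    · rintro ⟨F₁, F₂, hF1, hF2, hU, hc, hm⟩
      have hdis : ∀ θ, θ ∈ F₁ → θ ∈ F₂ → False := by
        intro θ h1 h2
        have hθ : θ ∈ chainFamily L n := by rw [← hU]; exact Or.inl h1
        obtain ⟨y, hy, hxy⟩ := H.nt θ hθ x₀
        have h3 : (sSup F₁ ⊓ sSup F₂) x₀ y := ⟨mem_join h1 hxy, mem_join h2 hxy⟩
        rw [hm] at h3
        exact hy (show x₀ = y from h3).symm
      have hor : ∀ i, 0 < i → i < n → sameOff L n i ∈ F₁ ∨ sameOff L n i ∈ F₂ := by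
        intro i h1 h2
        have h3 := hmem i h1 h2
        rw [← hU] at h3
        exact h3
      have hstep : ∀ i, 0 < i → i + 1 < n →
          (sameOff L n i ∈ F₁ ↔ sameOff L n (i + 1) ∈ F₁) := by
        intro i h1 h2
        constructor
        · intro h3
          rcases hor (i + 1) (by omega) h2 with h4 | h4
          · exact h4
          · exact (hnc i h1 h2 (hc _ h3 _ h4)).elim
        · intro h3
          rcases hor i h1 (by omega) with h4 | h4
          · exact h4
          · exact (hnc i h1 h2 (commuting_symm (hc _ h3 _ h4))).elim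
      have hall : ∀ i, i + 1 < n → (sameOff L n 1 ∈ F₁ ↔ sameOff L n (i + 1) ∈ F₁) := by
        intro i
        induction i with
        | zero => intro _; exact Iff.rfl
        | succ i ih =>
          intro h
          exact (ih (by omega)).trans (hstep (i + 1) (by omega) h)
      by_cases h1 : sameOff L n 1 ∈ F₁
      · obtain ⟨θ, hθ⟩ := hF2
        have h2 : θ ∈ chainFamily L n := by rw [← hU]; exact Or.inr hθ
        obtain ⟨i, hi0, hin, rfl⟩ := h2
        obtain ⟨k, rfl⟩ : ∃ k, i = k + 1 := ⟨i - 1, by omega⟩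
        exact hdis _ ((hall k hin).mp h1) hθ
      · obtain ⟨θ, hθ⟩ := hF1
        have h2 : θ ∈ chainFamily L n := by rw [← hU]; exact Or.inl hθ
        obtain ⟨i, hi0, hin, rfl⟩ := h2
        obtain ⟨k, rfl⟩ : ∃ k, i = k + 1 := ⟨i - 1, by omega⟩
        exact h1 ((hall k hin).mpr hθ)

end

/-! ### Semimodular lattices -/

section semimodular

variable {L : Type*} [Lattice L] [BoundedOrder L]

/-- chains from `a` to the top -/
def IsCh (a : L) (m : ℕ) (c : ℕ → L) : Prop :=
  c 0 = a ∧ (∀ i < m, c i ⋖ c (i + 1)) ∧ ∀ i, m ≤ i → c i = ⊤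

def con (a : L) (c : ℕ → L) : ℕ → L
  | 0 => a
  | i + 1 => c i

lemma con_isCh {a b : L} {m : ℕ} {c : ℕ → L} (h : IsCh b m c) (hab : a ⋖ b) :
    IsCh a (m + 1) (con a c) := by
  refine ⟨rfl, ?_, ?_⟩
  · intro i hi
    cases i with
    | zero => show a ⋖ c 0; rw [h.1]; exact hab
    | succ i => exact h.2.1 i (by omega)
  · intro i hi
    cases i with
    | zero => omega
    | succ i => exact h.2.2 i (by omega)

lemma tail_isCh {a : L} {m : ℕ} {c : ℕ → L} (h : IsCh a (m + 1) c) :
    IsCh (c 1) m (fun i => c (i + 1)) :=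
  ⟨rfl, fun i hi => h.2.1 (i + 1) (by omega), fun i hi => h.2.2 (i + 1) (by omega)⟩

lemma con_tail {a : L} {m : ℕ} {c : ℕ → L} (h : IsCh a m c) :
    con a (fun i => c (i + 1)) = c := by
  funext i
  cases i with
  | zero => exact h.1.symm
  | succ i => rfl

omit [BoundedOrder L] in
lemma inf_of_covers {a b c : L} (hb : a ⋖ b) (hc : a ⋖ c) (hne : b ≠ c) : b ⊓ c = a := by
  have h1 : a ≤ b ⊓ c := le_inf hb.le hc.le
  rcases h1.lt_or_eq with h2 | h2
  · exfalso
    have h3 : b ⊓ c = b := by
      rcases (inf_le_left : b ⊓ c ≤ b).lt_or_eq with h4 | h4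
      · exact (hb.2 h2 h4).elim
      · exact h4
    have h5 : b ≤ c := inf_eq_left.mp h3
    rcases h5.lt_or_eq with h6 | h6
    · exact hc.2 hb.1 h6
    · exact hne h6
  · exact h2.symm

variable [IsWeakUpperModularLattice L]

lemma sup_covers {a b c : L} (hb : a ⋖ b) (hc : a ⋖ c) (hne : b ≠ c) :
    b ⋖ b ⊔ c ∧ c ⋖ b ⊔ c := by
  have h := inf_of_covers hb hc hne
  have h1 : b ⊓ c ⋖ b := by rw [h]; exact hb
  have h2 : b ⊓ c ⋖ c := by rw [h]; exact hc
  exact ⟨covBy_sup_of_inf_covBy_of_inf_covBy_left h1 h2,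
    covBy_sup_of_inf_covBy_of_inf_covBy_right h1 h2⟩

lemma jordan (m : ℕ) : ∀ (a b : L) (c : ℕ → L), IsCh a (m + 1) c → a ⋖ b →
    ∃ d, IsCh b m d := by
  induction m with
  | zero =>
    intro a b c hc hab
    have h1 : a ⋖ ⊤ := by
      have := hc.2.1 0 (by omega)
      rw [hc.1, hc.2.2 (0 + 1) (by omega)] at this
      exact this
    have h2 : b = ⊤ := by
      rcases (le_top : b ≤ ⊤).lt_or_eq with h3 | h3
      · exact (h1.2 hab.1 h3).elim
      · exact h3
    exact ⟨fun _ => ⊤, h2.symm, fun i hi => by omega, fun i _ => rfl⟩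
  | succ m ih =>
    intro a b c hc hab
    have ht := tail_isCh hc
    have hac : a ⋖ c 1 := by
      have := hc.2.1 0 (by omega)
      rwa [hc.1] at this
    by_cases he : c 1 = b
    · rw [← he]
      exact ⟨_, ht⟩
    · obtain ⟨h1, h2⟩ := sup_covers hac hab he
      obtain ⟨d, hd⟩ := ih (c 1) (c 1 ⊔ b) _ ht h1
      exact ⟨con b d, con_isCh hd h2⟩

/-- one step -/
def Stp (a : L) (m : ℕ) (c d : ℕ → L) : Prop :=
  IsCh a m c ∧ IsCh a m d ∧ ∃ i, 0 < i ∧ i < m ∧ ∀ j, j ≠ i → c j = d j

omit [IsWeakUpperModularLattice L] in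
lemma stp_con {a b : L} (hab : a ⋖ b) {m : ℕ} {c d : ℕ → L} (h : Stp b m c d) :
    Stp a (m + 1) (con a c) (con a d) := by
  obtain ⟨h1, h2, i, hi0, him, hij⟩ := h
  refine ⟨con_isCh h1 hab, con_isCh h2 hab, i + 1, by omega, by omega, ?_⟩
  intro j hj
  cases j with
  | zero => rfl
  | succ j => exact hij j (by omega)

lemma conn_con {a b : L} (hab : a ⋖ b) {m : ℕ} {c d : ℕ → L}
    (h : Relation.ReflTransGen (Stp b m) c d) :
    Relation.ReflTransGen (Stp a (m + 1)) (con a c) (con a d) := by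
  induction h with
  | refl => exact Relation.ReflTransGen.refl
  | tail _ h ih => exact ih.tail (stp_con hab h)

lemma connected (m : ℕ) : ∀ (a : L) (c d : ℕ → L), IsCh a m c → IsCh a m d →
    Relation.ReflTransGen (Stp a m) c d := by
  induction m with
  | zero =>
    intro a c d hc hd
    have : c = d := by
      funext i
      rw [hc.2.2 i (by omega), hd.2.2 i (by omega)]
    rw [this]
  | succ m ih =>
    intro a c d hc hd
    have htc := tail_isCh hc
    have htd := tail_isCh hd
    have hac : a ⋖ c 1 := by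
      have := hc.2.1 0 (by omega)
      rwa [hc.1] at this
    have had : a ⋖ d 1 := by
      have := hd.2.1 0 (by omega)
      rwa [hd.1] at this
    rw [← con_tail hc, ← con_tail hd]
    by_cases he : c 1 = d 1
    · refine conn_con hac (ih (c 1) _ _ htc ?_)
      rw [he]
      exact htd
    · cases m with
      | zero =>
        exfalso
        apply he
        rw [hc.2.2 1 (by omega), hd.2.2 1 (by omega)]
      | succ k =>
        obtain ⟨h1, h2⟩ := sup_covers hac had he
        obtain ⟨g, hg⟩ := jordan k (c 1) (c 1 ⊔ d 1) _ htc h1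
        have p1 := conn_con hac (ih (c 1) _ _ htc (con_isCh hg h1))
        have p2 := conn_con had (ih (d 1) _ _ (con_isCh hg h2) htd)
        have p3 : Stp a (k + 1 + 1) (con a (con (c 1) g)) (con a (con (d 1) g)) := by
          refine ⟨con_isCh (con_isCh hg h1) hac, con_isCh (con_isCh hg h2) had, 1, by omega,
            by omega, ?_⟩
          intro j hj
          rcases j with _ | _ | j
          · rfl
          · exact (hj rfl).elim
          · rfl
        exact (p1.tail p3).trans p2

lemma chain_top (n : ℕ) : sSup (chainFamily L n) = ⊤ := by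
  rw [eq_top_iff]
  intro x y _
  have h := connected n (⊥ : L) x.1 y.1 ⟨x.2.1, x.2.2.1, x.2.2.2⟩ ⟨y.2.1, y.2.2.1, y.2.2.2⟩
  have key : ∀ d : ℕ → L, Relation.ReflTransGen (Stp (⊥ : L) n) x.1 d →
      ∃ hd, (sSup (chainFamily L n)) x ⟨d, hd⟩ := by
    intro d hd
    induction hd with
    | refl => exact ⟨x.2, (sSup (chainFamily L n)).refl _⟩
    | tail _ h ih =>
      obtain ⟨h1, h2⟩ := ih
      obtain ⟨_, h4, i, hi0, hin, hij⟩ := h
      refine ⟨⟨h4.1, h4.2.1, h4.2.2⟩, (sSup (chainFamily L n)).trans h2 ?_⟩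
      exact mem_join (F := chainFamily L n) (θ := sameOff L n i) ⟨i, hi0, hin, rfl⟩ hij
  exact (key y.1 h).2

/-- Each interval of length two of a geometric lattice has at least two middle elements. -/
lemma two_thick {L : Type*} [Lattice L] [BoundedOrder L] [IsUpperModularLattice L]
    [IsAtomistic L] (a b c : L) (hab : a ⋖ b) (hbc : b ⋖ c) :
    ∃ b', b' ≠ b ∧ a ⋖ b' ∧ b' ⋖ c := by
  obtain ⟨s, hs, hat⟩ := IsAtomistic.isLUB_atoms c
  have h1 : ∃ p ∈ s, ¬ p ≤ b := by
    by_contra hcon
    push Not at hcon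
    exact absurd (hs.2 hcon) (not_le_of_gt hbc.1)
  obtain ⟨p, hp, hpb⟩ := h1
  have hpc : p ≤ c := hs.1 hp
  have hpa : ¬ p ≤ a := fun h => hpb (h.trans hab.le)
  have hap : a ⋖ a ⊔ p := by
    refine covBy_sup_of_inf_covBy_right ?_
    have : a ⊓ p = ⊥ := by
      rcases (hat p hp).le_iff.mp (inf_le_right : a ⊓ p ≤ p) with h | h
      · exact h
      · exact (hpa (inf_eq_right.mp h)).elim
    rw [this]
    exact (hat p hp).bot_covBy
  have hne : a ⊔ p ≠ b := fun h => hpb (h ▸ le_sup_right)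
  refine ⟨a ⊔ p, hne, hap, ?_⟩
  obtain ⟨h2, h3⟩ := sup_covers hap hab hne
  have h4 : a ⊔ p ⊔ b = c := by
    rcases (sup_le (sup_le (hab.le.trans hbc.le) hpc) hbc.le : a ⊔ p ⊔ b ≤ c).lt_or_eq with
      h5 | h5
    · exact (hbc.2 h3.1 h5).elim
    · exact h5
  rw [← h4]
  exact h2

/-- The maximal chains of a finite geometric lattice of length at least three. -/
theorem geometric_main {L : Type*} [Lattice L] [BoundedOrder L] [Finite L]
    [IsUpperModularLattice L] [IsAtomistic L] {n : ℕ} (hn : 3 ≤ n) [Nonempty (MaxChain L n)] :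
    PropertyP (chainFamily L n) :=
  (chain_main (fun a b c => two_thick a b c) hn).mpr (chain_top n)

end semimodular

end Pool.Agent.Helper74.Idem.Chains
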