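import Mathlib

set_option autoImplicit false

/-!
# Two counting lemmas on finite incidence relations
-/

namespace Pool.Agent.Helper74.Idem

section

variable {X Y : Type*} [Fintype X] [Fintype Y]

/-- flags counted from both sides -/
theorem sum_flags (J : X → Y → Prop) [∀ x y, Decidable (J x y)] :
    ∑ x : X, (Finset.univ.filter fun y : Y => J x y).card =
      ∑ y : Y, (Finset.univ.filter fun x : X => J x y).card := by
  simp only [Finset.card_filter]
  exact Finset.sum_comm

/-- both conditions hold at `y` for `x` and there are no mixed pairs: upper bound -/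
theorem card_le_of_h2 {Z : Type*} [Fintype Z] {J p q : Z → Prop}
    [DecidablePred J] [DecidablePred p] [DecidablePred q]
    (h2 : ∀ y y', y ≠ y' → J y → J y' → ¬ (p y ∧ q y'))
    (h4 : ∀ y, J y → p y → q y → ∃ y', y' ≠ y ∧ J y') :
    (Finset.univ.filter fun y => J y ∧ p y).card + (Finset.univ.filter fun y => J y ∧ q y).card ≤
      (Finset.univ.filter fun y => J y).card := by
  classical
  by_cases hp : ∃ y, J y ∧ p y
  · by_cases hq : ∃ y, J y ∧ q y
    · obtain ⟨y0, hy0, hpy0⟩ := hp
      have e1 : ∀ y, J y → q y → y = y0 := by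
        intro y hy hqy
        by_contra hne
        exact h2 y0 y (Ne.symm hne) hy0 hy ⟨hpy0, hqy⟩
      obtain ⟨y1, hy1, hqy1⟩ := hq
      have e2 : y1 = y0 := e1 y1 hy1 hqy1
      subst e2
      have e3 : ∀ y, J y → p y → y = y1 := by
        intro y hy hpy
        by_contra hne
        exact h2 y y1 hne hy hy1 ⟨hpy, hqy1⟩
      have c1 : (Finset.univ.filter fun y => J y ∧ p y) ⊆ {y1} := by
        intro y hy
        rw [Finset.mem_filter] at hy
        rw [Finset.mem_singleton]
        exact e3 y hy.2.1 hy.2.2
      have c2 : (Finset.univ.filter fun y => J y ∧ q y) ⊆ {y1} := by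
        intro y hy
        rw [Finset.mem_filter] at hy
        rw [Finset.mem_singleton]
        exact e1 y hy.2.1 hy.2.2
      have d1 := Finset.card_le_card c1
      have d2 := Finset.card_le_card c2
      rw [Finset.card_singleton] at d1 d2
      obtain ⟨y2, hne, hy2⟩ := h4 y1 hy1 hpy0 hqy1
      have c3 : ({y1, y2} : Finset Z) ⊆ Finset.univ.filter fun y => J y := by
        intro y hy
        rw [Finset.mem_insert, Finset.mem_singleton] at hy
        rw [Finset.mem_filter]
        refine ⟨Finset.mem_univ y, ?_⟩
        rcases hy with rfl | rfl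
        · exact hy1
        · exact hy2
      have d3 := Finset.card_le_card c3
      rw [Finset.card_pair hne.symm] at d3
      omega
    · push Not at hq
      have c2 : (Finset.univ.filter fun y => J y ∧ q y) = ∅ := by
        rw [Finset.filter_eq_empty_iff]
        intro y _ hy
        exact hq y hy.1 hy.2
      rw [c2, Finset.card_empty, add_zero]
      exact Finset.card_le_card fun y hy => by
        rw [Finset.mem_filter] at hy ⊢
        exact ⟨hy.1, hy.2.1⟩
  · push Not at hp
    have c2 : (Finset.univ.filter fun y => J y ∧ p y) = ∅ := by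
      rw [Finset.filter_eq_empty_iff]
      intro y _ hy
      exact hp y hy.1 hy.2
    rw [c2, Finset.card_empty, zero_add]
    exact Finset.card_le_card fun y hy => by
      rw [Finset.mem_filter] at hy ⊢
      exact ⟨hy.1, hy.2.1⟩

/-- complementary counting -/
theorem card_split {Z : Type*} [Fintype Z] (J p : Z → Prop) [DecidablePred J]
    [DecidablePred p] :
    (Finset.univ.filter fun y => J y ∧ p y).card +
      (Finset.univ.filter fun y => J y ∧ ¬ p y).card =
        (Finset.univ.filter fun y => J y).card := by
  classical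
  rw [← Finset.card_union_of_disjoint]
  · congr 1
    ext y
    simp only [Finset.mem_union, Finset.mem_filter, Finset.mem_univ, true_and]
    tauto
  · rw [Finset.disjoint_left]
    intro y h1 h2
    rw [Finset.mem_filter] at h1 h2
    exact h2.2.2 h1.2.2

theorem le_card_of_h1 {Z : Type*} [Fintype Z] {J p q : Z → Prop}
    [DecidablePred J] [DecidablePred p] [DecidablePred q]
    (h1 : ∀ x x', x ≠ x' → J x → J x' → p x ∨ q x')
    (h3 : ∀ x, J x → ¬ p x → ¬ q x → ∃ x', x' ≠ x ∧ J x') :
    (Finset.univ.filter fun y => J y).card ≤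
      (Finset.univ.filter fun y => J y ∧ p y).card +
        (Finset.univ.filter fun y => J y ∧ q y).card := by
  have h := card_le_of_h2 (J := J) (p := fun y => ¬ p y) (q := fun y => ¬ q y)
    (fun y y' hne hy hy' hc => by
      rcases h1 y y' hne hy hy' with h | h
      · exact hc.1 h
      · exact hc.2 h) h3
  have s1 := card_split J p
  have s2 := card_split J q
  omega

open scoped Classical

variable {J p q : X → Y → Prop}

theorem both_eq (h1 : ∀ x x' y, x ≠ x' → J x y → J x' y → p x y ∨ q x' y)
    (h2 : ∀ x y y', y ≠ y' → J x y → J x y' → ¬ (p x y ∧ q x y'))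
    (h3 : ∀ y x, J x y → ¬ p x y → ¬ q x y → ∃ x', x' ≠ x ∧ J x' y)
    (h4 : ∀ x y, J x y → ∃ y', y' ≠ y ∧ J x y') :
    (∀ x, (Finset.univ.filter fun y => J x y ∧ p x y).card +
      (Finset.univ.filter fun y => J x y ∧ q x y).card =
        (Finset.univ.filter fun y => J x y).card) ∧
    (∀ y, (Finset.univ.filter fun x => J x y ∧ p x y).card +
      (Finset.univ.filter fun x => J x y ∧ q x y).card =
        (Finset.univ.filter fun x => J x y).card) := by
  have hx : ∀ x ∈ (Finset.univ : Finset X),
      (Finset.univ.filter fun y => J x y ∧ p x y).card +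
      (Finset.univ.filter fun y => J x y ∧ q x y).card ≤
        (Finset.univ.filter fun y => J x y).card := fun x _ =>
    card_le_of_h2 (fun y y' hne hy hy' => h2 x y y' hne hy hy') (fun y hy _ _ => h4 x y hy)
  have hy : ∀ y ∈ (Finset.univ : Finset Y), (Finset.univ.filter fun x => J x y).card ≤
      (Finset.univ.filter fun x => J x y ∧ p x y).card +
      (Finset.univ.filter fun x => J x y ∧ q x y).card := fun y _ =>
    le_card_of_h1 (fun x x' hne hx hx' => h1 x x' y hne hx hx') (fun x hx => h3 y x hx)
  have s1 := Finset.sum_le_sum hx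
  have s2 := Finset.sum_le_sum hy
  have e0 := sum_flags J
  have ep := sum_flags fun x y => J x y ∧ p x y
  have eq' := sum_flags fun x y => J x y ∧ q x y
  rw [Finset.sum_add_distrib] at s1 s2
  constructor
  · intro x
    refine (Finset.sum_eq_sum_iff_of_le hx).1 ?_ x (Finset.mem_univ x)
    rw [Finset.sum_add_distrib]
    omega
  · intro y
    refine ((Finset.sum_eq_sum_iff_of_le hy).1 ?_ y (Finset.mem_univ y)).symm
    rw [Finset.sum_add_distrib]
    omega

/-- `x` is of mixed type -/
def Mixed (J p q : X → Y → Prop) (x : X) : Prop :=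
  ∃ y0 y1, y0 ≠ y1 ∧ J x y0 ∧ J x y1 ∧ (∀ y, J x y → y = y0 ∨ y = y1) ∧
    p x y0 ∧ q x y0 ∧ ¬ p x y1 ∧ ¬ q x y1

theorem pure_or_mixed (h1 : ∀ x x' y, x ≠ x' → J x y → J x' y → p x y ∨ q x' y)
    (h2 : ∀ x y y', y ≠ y' → J x y → J x y' → ¬ (p x y ∧ q x y'))
    (h3 : ∀ y x, J x y → ¬ p x y → ¬ q x y → ∃ x', x' ≠ x ∧ J x' y)
    (h4 : ∀ x y, J x y → ∃ y', y' ≠ y ∧ J x y') (x : X) :
    (∀ y, J x y → p x y ∧ ¬ q x y) ∨ (∀ y, J x y → q x y ∧ ¬ p x y) ∨ Mixed J p q x := by
  have e := (both_eq h1 h2 h3 h4).1 x
  by_cases hp : ∃ y, J x y ∧ p x y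
  · by_cases hq : ∃ y, J x y ∧ q x y
    · right
      right
      obtain ⟨y0, hy0, hpy0⟩ := hp
      have e1 : ∀ y, J x y → q x y → y = y0 := by
        intro y hy hqy
        by_contra hne
        exact h2 x y0 y (Ne.symm hne) hy0 hy ⟨hpy0, hqy⟩
      obtain ⟨y1, hy1, hqy1⟩ := hq
      have e2 : y1 = y0 := e1 y1 hy1 hqy1
      subst e2
      have e3 : ∀ y, J x y → p x y → y = y1 := by
        intro y hy hpy
        by_contra hne
        exact h2 x y y1 hne hy hy1 ⟨hpy, hqy1⟩
      have c1 : (Finset.univ.filter fun y => J x y ∧ p x y) = {y1} := by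
        ext y
        rw [Finset.mem_filter, Finset.mem_singleton]
        constructor
        · intro hy
          exact e3 y hy.2.1 hy.2.2
        · rintro rfl
          exact ⟨Finset.mem_univ _, hy1, hpy0⟩
      have c2 : (Finset.univ.filter fun y => J x y ∧ q x y) = {y1} := by
        ext y
        rw [Finset.mem_filter, Finset.mem_singleton]
        constructor
        · intro hy
          exact e1 y hy.2.1 hy.2.2
        · rintro rfl
          exact ⟨Finset.mem_univ _, hy1, hqy1⟩
      rw [c1, c2, Finset.card_singleton] at e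
      obtain ⟨y2, hne, hy2⟩ := h4 x y1 hy1
      have c3 : ({y1, y2} : Finset Y) = Finset.univ.filter fun y => J x y := by
        refine Finset.eq_of_subset_of_card_le ?_ ?_
        · intro y hy
          rw [Finset.mem_insert, Finset.mem_singleton] at hy
          rw [Finset.mem_filter]
          refine ⟨Finset.mem_univ y, ?_⟩
          rcases hy with rfl | rfl
          · exact hy1
          · exact hy2
        · rw [Finset.card_pair hne.symm, ← e]
      refine ⟨y1, y2, hne.symm, hy1, hy2, ?_, hpy0, hqy1, ?_, ?_⟩
      · intro y hy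
        have hm : y ∈ Finset.univ.filter fun y => J x y := by
          rw [Finset.mem_filter]
          exact ⟨Finset.mem_univ y, hy⟩
        rw [← c3, Finset.mem_insert, Finset.mem_singleton] at hm
        exact hm
      · intro hpy2
        exact hne (e3 y2 hy2 hpy2)
      · intro hqy2
        exact hne (e1 y2 hy2 hqy2)
    · left
      push Not at hq
      have c2 : (Finset.univ.filter fun y => J x y ∧ q x y) = ∅ := by
        rw [Finset.filter_eq_empty_iff]
        intro y _ hy
        exact hq y hy.1 hy.2
      rw [c2, Finset.card_empty, add_zero] at e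
      have c3 : (Finset.univ.filter fun y => J x y ∧ p x y) =
          Finset.univ.filter fun y => J x y := by
        refine Finset.eq_of_subset_of_card_le ?_ e.ge
        intro y hy
        rw [Finset.mem_filter] at hy ⊢
        exact ⟨hy.1, hy.2.1⟩
      intro y hy
      have hm : y ∈ Finset.univ.filter fun y => J x y := by
        rw [Finset.mem_filter]
        exact ⟨Finset.mem_univ y, hy⟩
      rw [← c3, Finset.mem_filter] at hm
      exact ⟨hm.2.2, hq y hy⟩
  · right
    left
    push Not at hp
    have c2 : (Finset.univ.filter fun y => J x y ∧ p x y) = ∅ := by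
      rw [Finset.filter_eq_empty_iff]
      intro y _ hy
      exact hp y hy.1 hy.2
    rw [c2, Finset.card_empty, zero_add] at e
    have c3 : (Finset.univ.filter fun y => J x y ∧ q x y) =
        Finset.univ.filter fun y => J x y := by
      refine Finset.eq_of_subset_of_card_le ?_ e.ge
      intro y hy
      rw [Finset.mem_filter] at hy ⊢
      exact ⟨hy.1, hy.2.1⟩
    intro y hy
    have hm : y ∈ Finset.univ.filter fun y => J x y := by
      rw [Finset.mem_filter]
      exact ⟨Finset.mem_univ y, hy⟩
    rw [← c3, Finset.mem_filter] at hm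
    exact ⟨hm.2.2, hp y hy⟩

theorem mixed_spread (h1 : ∀ x x' y, x ≠ x' → J x y → J x' y → p x y ∨ q x' y)
    (h2 : ∀ x y y', y ≠ y' → J x y → J x y' → ¬ (p x y ∧ q x y'))
    (h3 : ∀ y x, J x y → ¬ p x y → ¬ q x y → ∃ x', x' ≠ x ∧ J x' y)
    (h4 : ∀ x y, J x y → ∃ y', y' ≠ y ∧ J x y') {x x' : X} {y : Y} (hx : Mixed J p q x)
    (hxy : J x y) (hxy' : J x' y) : Mixed J p q x' := by
  by_cases hne : x' = x
  · rw [hne]
    exact hx
  obtain ⟨y0, y1, h01, hJ0, hJ1, hall, hp0, hq0, hp1, hq1⟩ := hx
  have hstat : (p x' y ∧ q x' y) ∨ (¬ p x' y ∧ ¬ q x' y) := by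
    rcases hall y hxy with rfl | rfl
    · right
      have e := (both_eq h1 h2 h3 h4).2 y
      -- complement counting at the wall `y`
      have s1 := card_split (fun z => J z y) (fun z => p z y)
      have s2 := card_split (fun z => J z y) (fun z => q z y)
      have hNp : ∃ z, J z y ∧ ¬ p z y := by
        by_contra hcon
        push Not at hcon
        have c : (Finset.univ.filter fun z => J z y ∧ ¬ p z y) = ∅ := by
          rw [Finset.filter_eq_empty_iff]
          intro z _ hz
          exact hz.2 (hcon z hz.1)
        have d : 0 < (Finset.univ.filter fun z => J z y ∧ q z y).card := by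
          rw [Finset.card_pos]
          exact ⟨x, by rw [Finset.mem_filter]; exact ⟨Finset.mem_univ x, hJ0, hq0⟩⟩
        rw [c, Finset.card_empty] at s1
        omega
      have hNq : ∃ z, J z y ∧ ¬ q z y := by
        by_contra hcon
        push Not at hcon
        have c : (Finset.univ.filter fun z => J z y ∧ ¬ q z y) = ∅ := by
          rw [Finset.filter_eq_empty_iff]
          intro z _ hz
          exact hz.2 (hcon z hz.1)
        have d : 0 < (Finset.univ.filter fun z => J z y ∧ p z y).card := by
          rw [Finset.card_pos]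
          exact ⟨x, by rw [Finset.mem_filter]; exact ⟨Finset.mem_univ x, hJ0, hp0⟩⟩
        rw [c, Finset.card_empty] at s2
        omega
      obtain ⟨z, hz, hpz⟩ := hNp
      obtain ⟨z', hz', hqz'⟩ := hNq
      have hzz : z = z' := by
        by_contra hn
        rcases h1 z z' y hn hz hz' with h | h
        · exact hpz h
        · exact hqz' h
      subst hzz
      have u1 : (Finset.univ.filter fun t => J t y ∧ ¬ p t y) = {z} := by
        ext t
        rw [Finset.mem_filter, Finset.mem_singleton]
        constructor
        · intro ht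
          by_contra hn
          rcases h1 t z y hn ht.2.1 hz with h | h
          · exact ht.2.2 h
          · exact hqz' h
        · rintro rfl
          exact ⟨Finset.mem_univ _, hz, hpz⟩
      have u2 : (Finset.univ.filter fun t => J t y ∧ ¬ q t y) = {z} := by
        ext t
        rw [Finset.mem_filter, Finset.mem_singleton]
        constructor
        · intro ht
          by_contra hn
          rcases h1 z t y (Ne.symm hn) hz ht.2.1 with h | h
          · exact hpz h
          · exact ht.2.2 h
        · rintro rfl
          exact ⟨Finset.mem_univ _, hz, hqz'⟩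
      rw [u1, Finset.card_singleton] at s1
      rw [u2, Finset.card_singleton] at s2
      have hcard : (Finset.univ.filter fun t => J t y).card = 2 := by omega
      have hzx : z ≠ x := by
        rintro rfl
        exact hpz hp0
      have c3 : ({x, z} : Finset X) = Finset.univ.filter fun t => J t y := by
        refine Finset.eq_of_subset_of_card_le ?_ ?_
        · intro t ht
          rw [Finset.mem_insert, Finset.mem_singleton] at ht
          rw [Finset.mem_filter]
          refine ⟨Finset.mem_univ t, ?_⟩
          rcases ht with rfl | rfl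
          · exact hJ0
          · exact hz
        · rw [Finset.card_pair hzx.symm, hcard]
      have hm : x' ∈ Finset.univ.filter fun t => J t y := by
        rw [Finset.mem_filter]
        exact ⟨Finset.mem_univ x', hxy'⟩
      rw [← c3, Finset.mem_insert, Finset.mem_singleton] at hm
      have hx'z : x' = z := hm.resolve_left hne
      rw [hx'z]
      exact ⟨hpz, hqz'⟩
    · left
      constructor
      · rcases h1 x' x y hne hxy' hJ1 with h | h
        · exact h
        · exact absurd h hq1
      · rcases h1 x x' y (Ne.symm hne) hJ1 hxy' with h | h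
        · exact absurd h hp1
        · exact h
  rcases pure_or_mixed h1 h2 h3 h4 x' with h | h | h
  · have h5 := h y hxy'
    rcases hstat with h6 | h6
    · exact absurd h6.2 h5.2
    · exact absurd h5.1 h6.1
  · have h5 := h y hxy'
    rcases hstat with h6 | h6
    · exact absurd h6.1 h5.2
    · exact absurd h5.1 h6.2
  · exact h

/-- a set of flags which is closed under non-backtracking steps: the points which occur are
closed under adjacency -/
theorem adj_closed {J u : X → Y → Prop}
    (hu : ∀ x y y' x', J x y → u x y → J x y' → y' ≠ y → J x' y' → x' ≠ x → u x' y')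
    (h3 : ∀ y x, J x y → ∃ x', x' ≠ x ∧ J x' y)
    (h4 : ∀ x y, J x y → ∃ y', y' ≠ y ∧ J x y') {x0 x1 : X} {y : Y}
    (hx0 : ∃ y', J x0 y' ∧ u x0 y') (h0 : J x0 y) (h1 : J x1 y) : ∃ y', J x1 y' ∧ u x1 y' := by
  let g : X → Y → Prop := fun x y => J x y ∧ ∃ y', y' ≠ y ∧ J x y' ∧ u x y'
  have hx : ∀ x ∈ (Finset.univ : Finset X), (Finset.univ.filter fun y => J x y ∧ u x y).card ≤
      (Finset.univ.filter fun y => g x y).card := by
    intro x _
    by_cases h : ∃ a, J x a ∧ u x a
    · obtain ⟨a, ha, hua⟩ := h
      by_cases h' : ∃ b, b ≠ a ∧ J x b ∧ u x b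
      · obtain ⟨b, hba, hb, hub⟩ := h'
        refine Finset.card_le_card fun c hc => ?_
        rw [Finset.mem_filter] at hc ⊢
        refine ⟨hc.1, hc.2.1, ?_⟩
        by_cases hca : c = a
        · refine ⟨b, ?_, hb, hub⟩
          rw [hca]
          exact hba
        · exact ⟨a, Ne.symm hca, ha, hua⟩
      · push Not at h'
        have c1 : (Finset.univ.filter fun y => J x y ∧ u x y) ⊆ {a} := by
          intro c hc
          rw [Finset.mem_filter] at hc
          rw [Finset.mem_singleton]
          by_contra hca
          exact h' c hca hc.2.1 hc.2.2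
        have d1 := Finset.card_le_card c1
        rw [Finset.card_singleton] at d1
        obtain ⟨b, hba, hb⟩ := h4 x a ha
        have d2 : 0 < (Finset.univ.filter fun y => g x y).card := by
          rw [Finset.card_pos]
          refine ⟨b, ?_⟩
          rw [Finset.mem_filter]
          exact ⟨Finset.mem_univ b, hb, a, Ne.symm hba, ha, hua⟩
        omega
    · push Not at h
      have c1 : (Finset.univ.filter fun y => J x y ∧ u x y) = ∅ := by
        rw [Finset.filter_eq_empty_iff]
        intro c _ hc
        exact h c hc.1 hc.2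
      rw [c1, Finset.card_empty]
      exact Nat.zero_le _
  have hstep : ∀ x y x', g x y → J x' y → x' ≠ x → u x' y := by
    rintro x y x' ⟨hxy, y', hne, hxy', hu'⟩ hx'y hx'
    exact hu x y' y x' hxy' hu' hxy (Ne.symm hne) hx'y hx'
  have hy : ∀ y ∈ (Finset.univ : Finset Y), (Finset.univ.filter fun x => g x y).card ≤
      (Finset.univ.filter fun x => J x y ∧ u x y).card := by
    intro y _
    by_cases h : ∃ a, g a y
    · obtain ⟨a, ha⟩ := h
      by_cases h' : ∃ b, b ≠ a ∧ g b y
      · obtain ⟨b, hba, hb⟩ := h'
        refine Finset.card_le_card fun c hc => ?_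
        rw [Finset.mem_filter] at hc ⊢
        refine ⟨hc.1, hc.2.1, ?_⟩
        by_cases hca : c = a
        · refine hstep b y c hb hc.2.1 ?_
          rw [hca]
          exact Ne.symm hba
        · exact hstep a y c ha hc.2.1 hca
      · push Not at h'
        have c1 : (Finset.univ.filter fun x => g x y) ⊆ {a} := by
          intro c hc
          rw [Finset.mem_filter] at hc
          rw [Finset.mem_singleton]
          by_contra hca
          exact h' c hca hc.2
        have d1 := Finset.card_le_card c1
        rw [Finset.card_singleton] at d1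
        obtain ⟨b, hba, hb⟩ := h3 y a ha.1
        have d2 : 0 < (Finset.univ.filter fun x => J x y ∧ u x y).card := by
          rw [Finset.card_pos]
          refine ⟨b, ?_⟩
          rw [Finset.mem_filter]
          exact ⟨Finset.mem_univ b, hb, hstep a y b ha hb hba⟩
        omega
    · push Not at h
      have c1 : (Finset.univ.filter fun x => g x y) = ∅ := by
        rw [Finset.filter_eq_empty_iff]
        intro c _ hc
        exact h c hc
      rw [c1, Finset.card_empty]
      exact Nat.zero_le _
  have s1 := Finset.sum_le_sum hx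
  have s2 := Finset.sum_le_sum hy
  have eg := sum_flags g
  have eu := sum_flags fun x y => J x y ∧ u x y
  have heq : ∀ y ∈ (Finset.univ : Finset Y), (Finset.univ.filter fun x => g x y).card =
      (Finset.univ.filter fun x => J x y ∧ u x y).card := by
    refine (Finset.sum_eq_sum_iff_of_le hy).1 ?_
    omega
  by_cases hxx : x1 = x0
  · rw [hxx]
    exact hx0
  by_cases hg : g x0 y
  · exact ⟨y, h1, hstep x0 y x1 hg h1 hxx⟩
  obtain ⟨y', hy', hu'⟩ := hx0
  have hyy : y' = y := by
    by_contra hne
    exact hg ⟨h0, y', hne, hy', hu'⟩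
  rw [hyy] at hu'
  have d : 0 < (Finset.univ.filter fun x => g x y).card := by
    rw [heq y (Finset.mem_univ y), Finset.card_pos]
    refine ⟨x0, ?_⟩
    rw [Finset.mem_filter]
    exact ⟨Finset.mem_univ x0, h0, hu'⟩
  rw [Finset.card_pos] at d
  obtain ⟨x2, hx2⟩ := d
  rw [Finset.mem_filter] at hx2
  by_cases h12 : x1 = x2
  · obtain ⟨-, y2, -, hy2, hu2⟩ := hx2.2
    rw [h12]
    exact ⟨y2, hy2, hu2⟩
  · exact ⟨y, h1, hstep x2 y x1 hx2.2 h1 h12⟩

end

end Pool.Agent.Helper74.Idem
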