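import Mathlib
import Pool.Agent.Helper57.Idem.CoreG
import Pool.Agent.Helper74.Idem.Count

set_option autoImplicit false

/-!
# From collinear pairs of points to all pairs
-/

namespace Pool.Agent.Helper74.Idem

open Pool.Agent.Helper57.Idem

variable {L R : Type*} {I : L → R → Prop}

/-- a connected separated incidence relation with local exchange, with two points on two blocks -/
structure HypL (I : L → R → Prop) : Prop where
  conn : ∀ x y, ∃ k, Near I k x y
  exch : ∀ x y z, x ≠ y → x ≠ z → Coh I x y → (∀ u, I x u → I y u → I z u) →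
    ∀ u, I x u → I z u → I y u
  sepL : ∀ x y, x ≠ y → ∃ u, I x u ∧ ¬ I y u
  sepR : ∀ u v, u ≠ v → ∃ x, I x u ∧ ¬ I x v
  nsf : ∃ x y u v, x ≠ y ∧ u ≠ v ∧ I x u ∧ I y u ∧ I x v ∧ I y v

theorem near_cons {k : ℕ} {x z y : L} (h1 : Coh I x z) (h2 : Near I k z y) :
    Near I (k + 1) x y := by
  have h := near_add (near_one.2 h1) h2
  rwa [add_comm] at h

theorem near_head {k : ℕ} {x y : L} (h : Near I (k + 1) x y) :
    ∃ z, Coh I x z ∧ Near I k z y := by
  obtain ⟨z, hz, hc⟩ := near_symm h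
  exact ⟨z, hc.symm, near_symm hz⟩

theorem near_first {k : ℕ} {x y : L} (h : Near I k x y) (hxy : x ≠ y) :
    ∃ z, z ≠ x ∧ Coh I x z := by
  induction k generalizing y with
  | zero => exact absurd h hxy
  | succ k ih =>
    obtain ⟨z, hz, hc⟩ := h
    by_cases hxz : x = z
    · exact ⟨y, hxy.symm, hxz ▸ hc⟩
    · exact ih hz hxz

theorem nbr_of (hconn : ∀ x y, ∃ k, Near I k x y) (hnt : ∃ p q : L, p ≠ q) (x : L) :
    ∃ z, z ≠ x ∧ Coh I x z := by
  obtain ⟨p, q, hpq⟩ := hnt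
  by_cases hx : x = p
  · obtain ⟨k, hk⟩ := hconn x q
    exact near_first hk (by rw [hx]; exact hpq)
  · obtain ⟨k, hk⟩ := hconn x p
    exact near_first hk hx

theorem two_pts_of (hconn : ∀ x y, ∃ k, Near I k x y) (hnt : ∃ p q : L, p ≠ q)
    (hsep : ∀ u v, u ≠ v → ∃ x, I x u ∧ ¬ I x v) (S : R) (x : L) :
    ∃ x', x' ≠ x ∧ I x' S := by
  by_contra hcon
  push Not at hcon
  obtain ⟨z, hz, U, hxU, hzU⟩ := nbr_of hconn hnt x
  have hSU : S ≠ U := by
    rintro rfl
    exact hcon z hz hzU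
  obtain ⟨t, ht, htU⟩ := hsep S U hSU
  have htx : t ≠ x := by
    rintro rfl
    exact htU hxU
  exact hcon t htx ht

theorem two_blocks_of (hconn : ∀ x y, ∃ k, Near I k x y) (hnt : ∃ p q : L, p ≠ q)
    (hsep : ∀ x y, x ≠ y → ∃ u, I x u ∧ ¬ I y u) (x : L) (S : R) :
    ∃ S', S' ≠ S ∧ I x S' := by
  by_contra hcon
  push Not at hcon
  obtain ⟨z, hz, U, hxU, hzU⟩ := nbr_of hconn hnt x
  obtain ⟨U', hxU', hzU'⟩ := hsep x z hz.symm
  have h1 : U = S := by
    by_contra hne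
    exact hcon U hne hxU
  have h2 : U' = S := by
    by_contra hne
    exact hcon U' hne hxU'
  rw [h2, ← h1] at hzU'
  exact hzU' hzU

theorem HypL.two_pts (h : HypL I) (S : R) (x : L) (_ : I x S) : ∃ x', x' ≠ x ∧ I x' S := by
  obtain ⟨p, q, -, -, hpq, -⟩ := h.nsf
  exact two_pts_of h.conn ⟨p, q, hpq⟩ h.sepR S x

theorem HypL.two_blocks (h : HypL I) (x : L) (S : R) (_ : I x S) : ∃ S', S' ≠ S ∧ I x S' := by
  obtain ⟨p, q, -, -, hpq, -⟩ := h.nsf
  exact two_blocks_of h.conn ⟨p, q, hpq⟩ h.sepL x S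

variable {a : L → L → L} {b : R → R → R}

theorem bad_line (h : HypL I) (o : Op I a b) {j : ℕ}
    (hP : ∀ x y, Near I (j + 1) x y → a x y = x) {u u1 v v' : L} (h1 : Coh I u u1)
    (h2 : Near I j u1 v) (h3 : Coh I v v') (hne : a u v' ≠ u) :
    (∀ S, I u S → I u1 S → I (a u v') S) ∧ ∀ S, I u S → I (a u v') S → I u1 S := by
  have f1 : ∀ S, I u S → I u1 S → I (a u v') S := by
    intro S hu hu1
    obtain ⟨T, hT1, hT2⟩ := h3
    have hS : S = b S T := by
      by_contra hST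
      obtain ⟨t, ht, ht'⟩ := h.sepR S (b S T) hST
      have h4 := o.pres t v S T ht hT1
      rw [hP t v (near_cons ⟨S, ht, hu1⟩ h2)] at h4
      exact ht' h4
    have h5 := o.pres u v' S T hu hT2
    rwa [← hS] at h5
  have hu : u ≠ u1 := by
    rintro rfl
    exact hne (hP u v' ⟨v, h2, h3⟩)
  exact ⟨f1, h.exch u u1 (a u v') hu hne.symm h1 f1⟩

theorem bad_unique (h : HypL I) (o : Op I a b) {j : ℕ}
    (hP : ∀ x y, Near I (j + 1) x y → a x y = x) {u v' : L} (hn : Near I (j + 2) u v')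
    (hne : a u v' ≠ u) : Coh I u (a u v') ∧
      ∀ S S', I u S → I (a u v') S → I u S' → I (a u v') S' → S = S' := by
  obtain ⟨v, hv, hc⟩ := hn
  obtain ⟨u1, hu1, hu1v⟩ := near_head hv
  obtain ⟨l1, l2⟩ := bad_line h o hP hu1 hu1v hc hne
  constructor
  · obtain ⟨S, h1, h2⟩ := hu1
    exact ⟨S, h1, l1 S h1 h2⟩
  · intro S S' hS hwS hS' hwS'
    by_contra hSS
    have hu1S := l2 S hS hwS
    obtain ⟨s, hs, hs'⟩ := h.sepR S S' hSS
    have hsu : s ≠ u := by
      rintro rfl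
      exact hs' hS'
    have hex : ∃ S1, I u S1 ∧ I s S1 ∧ ¬ I (a u v') S1 := by
      by_contra hcon
      push Not at hcon
      exact hs' (h.exch u s (a u v') hsu.symm hne.symm ⟨S, hS, hs⟩ hcon S' hS' hwS')
    obtain ⟨S1, huS1, hsS1, hwS1⟩ := hex
    obtain ⟨T, hT1, hT2⟩ := hc
    have huE : I u (b S1 T) := by
      have h4 := o.pres u v S1 T huS1 hT1
      rwa [hP u v hv] at h4
    have hsv : Near I (j + 1) s v := near_cons ⟨S, hs, hu1S⟩ hu1v
    have hsE : I s (b S1 T) := by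
      have h4 := o.pres s v S1 T hsS1 hT1
      rwa [hP s v hsv] at h4
    have hwE : I (a u v') (b S1 T) := o.pres u v' S1 T huS1 hT2
    have hsub : ∀ c, I c S1 → I c (b S1 T) := by
      intro c hc
      by_cases hcu : c = u
      · rw [hcu]
        exact huE
      by_cases hcv : a c v = c
      · have h4 := o.pres c v S1 T hc hT1
        rwa [hcv] at h4
      obtain ⟨v1, hv1, hv1'⟩ := hv
      obtain ⟨v2, hv2, hv2'⟩ := hsv
      have b1 := bad_line h o hP ⟨S1, hc, huS1⟩ hv1 hv1' hcv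
      have b2 := bad_line h o hP ⟨S1, hc, hsS1⟩ hv2 hv2' hcv
      exact h.exch u c s (Ne.symm hcu) hsu.symm ⟨S1, huS1, hc⟩
        (fun U hu hc' => b2.2 U hc' (b1.1 U hc' hu)) _ huE hsE
    have hE : S1 = b S1 T := by
      by_contra hne'
      obtain ⟨t, ht, ht'⟩ := h.sepR _ _ hne'
      exact ht' (hsub t ht)
    rw [← hE] at hwE
    exact hwS1 hwE

theorem bad_next (h : HypL I) (o : Op I a b) {j : ℕ}
    (hP : ∀ x y, Near I (j + 1) x y → a x y = x) {x y : L} (hn : Near I (j + 2) x y)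
    (hne : a x y ≠ x) {S S' : R} (hxS : I x S) (hwS : I (a x y) S) (hxS' : I x S')
    (hSS : S' ≠ S) {c : L} (hc : I c S') (hcx : c ≠ x) :
    ∃ v, Near I (j + 2) c v ∧ a c v = x := by
  obtain ⟨hco, huniq⟩ := bad_unique h o hP hn hne
  obtain ⟨v, hv, T, hT1, hT2⟩ := hn
  have hE : b S' T = S := by
    refine huniq _ _ ?_ (o.pres x y S' T hxS' hT2) hxS hwS
    have h4 := o.pres x v S' T hxS' hT1
    rwa [hP x v hv] at h4
  have key : ∀ p, I p S → I p S' → p = x := by
    intro p hp hp'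
    by_contra hpx
    have h4 := h.exch x (a x y) p hne.symm (Ne.symm hpx) hco (fun U hU1 hU2 => by
      rw [huniq U S hU1 hU2 hxS hwS]
      exact hp) S' hxS' hp'
    exact hSS (huniq S' S hxS' h4 hxS hwS)
  have hacE : I (a c v) S := by
    have h4 := o.pres c v S' T hc hT1
    rwa [hE] at h4
  have hne' : a c v ≠ c := by
    intro e
    rw [e] at hacE
    exact hcx (key c hacE hc)
  obtain ⟨v1, hv1, hv1'⟩ := id hv
  have b1 := bad_line h o hP ⟨S', hc, hxS'⟩ hv1 hv1' hne'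
  exact ⟨v, near_cons ⟨S', hc, hxS'⟩ hv, key _ hacE (b1.1 S' hc hxS')⟩

theorem far_step [Fintype L] [Fintype R] (h : HypL I) (o : Op I a b) {j : ℕ}
    (hP : ∀ x y, Near I (j + 1) x y → a x y = x) :
    ∀ x y, Near I (j + 2) x y → a x y = x := by
  by_contra hcon
  push Not at hcon
  obtain ⟨x0, y0, hn0, hne0⟩ := hcon
  have hall : ∀ x, ∃ S, I x S ∧ ∃ y, Near I (j + 2) x y ∧ a x y ≠ x ∧ I (a x y) S := by
    intro x
    obtain ⟨k, hk⟩ := h.conn x0 x
    induction k generalizing x with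
    | zero =>
      have hx : x0 = x := hk
      subst hx
      obtain ⟨S, hS1, hS2⟩ := (bad_unique h o hP hn0 hne0).1
      exact ⟨S, hS1, y0, hn0, hne0, hS2⟩
    | succ k ih =>
      obtain ⟨z, hz, S, hzS, hxS⟩ := hk
      exact adj_closed (J := I)
        (u := fun x S => ∃ y, Near I (j + 2) x y ∧ a x y ≠ x ∧ I (a x y) S)
        (fun x S S' x' hxS ⟨y, hn, hne, hwS⟩ hxS' hSS hx'S' hxx => by
          obtain ⟨v, hv, hav⟩ := bad_next h o hP hn hne hxS hwS hxS' hSS hx'S' hxx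
          refine ⟨v, hv, ?_, ?_⟩
          · rw [hav]
            exact hxx.symm
          · rw [hav]
            exact hxS')
        h.two_pts h.two_blocks (ih z hz) hzS hxS
  obtain ⟨p, q, B, C, hpq, hBC, hpB, hqB, hpC, hqC⟩ := h.nsf
  obtain ⟨S, hpS, y, hn, hne, hwS⟩ := hall p
  obtain ⟨D, hDS, hpD, hqD⟩ : ∃ D, D ≠ S ∧ I p D ∧ I q D := by
    by_cases hBS : B = S
    · refine ⟨C, ?_, hpC, hqC⟩
      rw [← hBS]
      exact hBC.symm
    · exact ⟨B, hBS, hpB, hqB⟩
  obtain ⟨v, hv, hav⟩ := bad_next h o hP hn hne hpS hwS hpD hDS hqD hpq.symm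
  have h5 := (bad_unique h o hP hv (by rw [hav]; exact hpq)).2 B C
  rw [hav] at h5
  exact hBC (h5 hqB hpB hqC hpC)

/-- if `a x y = x` for collinear `x`, `y`, then `a` and `b` are the first projections -/
theorem extendL [Finite L] [Finite R] (h : HypL I) (o : Op I a b)
    (hall : ∀ x y, Coh I x y → a x y = x) : (∀ x y, a x y = x) ∧ ∀ u v, b u v = u := by
  classical
  have := Fintype.ofFinite L
  have := Fintype.ofFinite R
  have h1 : ∀ k x y, Near I (k + 1) x y → a x y = x := by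
    intro k
    induction k with
    | zero =>
      intro x y hn
      exact hall x y (near_one.1 hn)
    | succ k ih => exact far_step h o ih
  have ha : ∀ x y, a x y = x := by
    intro x y
    obtain ⟨k, hk⟩ := h.conn x y
    cases k with
    | zero =>
      have hxy : x = y := hk
      rw [hxy, o.ida]
    | succ k => exact h1 k x y hk
  refine ⟨ha, fun u v => ?_⟩
  by_cases huv : u = v
  · rw [huv, o.idb]
  · by_contra hne
    obtain ⟨t, ht, ht'⟩ := h.sepR u (b u v) (Ne.symm hne)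
    obtain ⟨y, hy, -⟩ := h.sepR v u (Ne.symm huv)
    have h4 := o.pres t y u v ht hy
    rw [ha] at h4
    exact ht' h4

end Pool.Agent.Helper74.Idem
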