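import Mathlib
import Pool.Agent.Helper74.Idem.Extend

set_option autoImplicit false

/-!
# Idempotent operations on an incidence structure with walls
-/

namespace Pool.Agent.Helper74.Idem

open Pool.Agent.Helper57.Idem

variable {L R : Type*} {I : L → R → Prop}

/-- `B` and `C` are different, and their intersection is maximal among the intersections of `B`
with other blocks -/
def WallOf (I : L → R → Prop) (B C : R) : Prop :=
  B ≠ C ∧ ∀ D, D ≠ B → (∀ x, I x B → I x C → I x D) → ∀ x, I x B → I x D → I x C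

/-- at least three points -/
def Big (I : L → R → Prop) (B : R) : Prop :=
  ∃ x y z, x ≠ y ∧ x ≠ z ∧ y ≠ z ∧ I x B ∧ I y B ∧ I z B

/-- the second block of a wall has larger rank, or the same rank and the same wall -/
def Hi (I : L → R → Prop) (r : R → ℕ) (B C : R) : Prop :=
  (Big I C ∧ r B < r C) ∨ (r B = r C ∧ WallOf I C B)

/-- two points of a block are separated by a wall of the block -/
def WallsL (I : L → R → Prop) (r : R → ℕ) : Prop :=
  ∀ B l p, l ≠ p → I l B → I p B → ∃ C, I l C ∧ ¬ I p C ∧ WallOf I B C ∧ Hi I r B C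

/-- a subset of `B` which is the intersection of `B` with each other block that contains it -/
def Wl (I : L → R → Prop) (B : R) (M : Set L) : Prop :=
  (∀ x ∈ M, I x B) ∧ ∀ D, D ≠ B → (∀ x ∈ M, I x D) → ∀ x, I x B → I x D → x ∈ M

theorem wl_of {B C : R} (h : WallOf I B C) : Wl I B {x | I x B ∧ I x C} :=
  ⟨fun _ hx => hx.1, fun D hD hs x h1 h2 =>
    ⟨h1, h.2 D hD (fun y h3 h4 => hs y ⟨h3, h4⟩) x h1 h2⟩⟩

theorem wl_single (h : HypL I) {B : R} (hB : ¬ Big I B) {x : L} (hx : I x B) :
    Wl I B {x} := by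
  refine ⟨fun y hy => ?_, fun D hD hs y h1 h2 => ?_⟩
  · rw [Set.mem_singleton_iff] at hy
    rw [hy]
    exact hx
  · rw [Set.mem_singleton_iff]
    by_contra hyx
    have hxD : I x D := hs x rfl
    obtain ⟨t, ht, ht'⟩ := h.sepR B D hD.symm
    refine hB ⟨t, x, y, ?_, ?_, Ne.symm hyx, ht, hx, h1⟩
    · rintro rfl
      exact ht' hxD
    · rintro rfl
      exact ht' h2

variable {a : L → L → L} {b : R → R → R}

/-- first type of a flag of a block and a wall -/
def T1 (I : L → R → Prop) (a : L → L → L) (B : R) (M : Set L) : Prop :=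
  ∀ z ∈ M, ∀ y, I y B → y ∉ M → a z y = z

/-- second type of a flag of a block and a wall -/
def T2 (I : L → R → Prop) (a : L → L → L) (B : R) (M : Set L) : Prop :=
  ∀ z ∈ M, ∀ y, I y B → y ∉ M → a y z = z

theorem types_one (h : HypL I) (o : Op I a b) {B C : R} {M : Set L} (hM : Wl I B M)
    (hne : C ≠ B) (hMC : ∀ x ∈ M, I x C) : T1 I a C M ∨ T2 I a B M := by
  by_cases hD : b B C = B
  · left
    intro z hz y hy hyM
    by_contra hne'
    have hp1 : I (a z y) B := by
      have h3 := o.pres z y B C (hM.1 z hz) hy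
      rwa [hD] at h3
    have hp2 : I (a z y) C := by
      have h3 := o.pres z y C C (hMC z hz) hy
      rwa [o.idb] at h3
    have hzy : z ≠ y := by
      rintro rfl
      exact hyM hz
    have hyB : I y B := by
      refine h.exch z y (a z y) hzy (Ne.symm hne') ⟨C, hMC z hz, hy⟩ (fun U hU1 hU2 => ?_) B
        (hM.1 z hz) hp1
      have h3 := o.pres z y U U hU1 hU2
      rwa [o.idb] at h3
    exact hyM (hM.2 C hne hMC y hyB hy)
  · right
    have hMD : ∀ t ∈ M, I t (b B C) := by
      intro t ht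
      have h3 := o.pres t t B C (hM.1 t ht) (hMC t ht)
      rwa [o.ida] at h3
    intro z hz y hy hyM
    by_contra hne'
    have hp1 : I (a y z) (b B C) := o.pres y z B C hy (hMC z hz)
    have hp2 : I (a y z) B := by
      have h3 := o.pres y z B B hy (hM.1 z hz)
      rwa [o.idb] at h3
    have hpM : a y z ∈ M := hM.2 _ hD hMD _ hp2 hp1
    have hzy : z ≠ y := by
      rintro rfl
      exact hyM hz
    have hyC : I y C := by
      refine h.exch z y (a y z) hzy (Ne.symm hne') ⟨B, hM.1 z hz, hy⟩ (fun U hU1 hU2 => ?_) C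
        (hMC z hz) (hMC _ hpM)
      have h3 := o.pres y z U U hU2 hU1
      rwa [o.idb] at h3
    exact hyM (hM.2 C hne hMC y hy hyC)

theorem types_two (h : HypL I) (o : Op I a b) {B C : R} {M : Set L} (hM : Wl I B M)
    (hne : C ≠ B) (hMC : ∀ x ∈ M, I x C) : T2 I a C M ∨ T1 I a B M :=
  types_one h o.swap hM hne hMC

theorem types_no {B : R} {M M' : Set L} (hM : ∀ x ∈ M, I x B) (hM' : ∀ x ∈ M', I x B)
    (h3 : ∃ z ∈ M, z ∉ M') (h4 : ∃ z ∈ M', z ∉ M) : ¬ (T1 I a B M ∧ T2 I a B M') := by
  rintro ⟨h1, h2⟩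
  obtain ⟨z, hz, hz'⟩ := h3
  obtain ⟨y, hy, hy'⟩ := h4
  have e1 := h1 z hz y (hM' y hy) hy'
  have e2 := h2 y hy z (hM z hz) hz'
  rw [e1] at e2
  rw [e2] at hz
  exact hy' hz

/-- the operation is the first projection on the points of `B` -/
def Fst (I : L → R → Prop) (a : L → L → L) (B : R) : Prop := ∀ x y, I x B → I y B → a x y = x

/-- one of the two projections on the points of `B` -/
def Pure (I : L → R → Prop) (a : L → L → L) (B : R) : Prop :=
  Fst I a B ∨ Fst I (fun x y => a y x) B

/-- next to a pure block a flag has a type -/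
theorem type_of_pure (h : HypL I) (o : Op I a b) {B C : R} {M : Set L} (hM : Wl I B M)
    (hne : C ≠ B) (hMC : ∀ x ∈ M, I x C) (hMn : M.Nonempty) (hC : Pure I a C) :
    (Fst I a C ∧ T1 I a B M) ∨ (Fst I (fun x y => a y x) C ∧ T2 I a B M) := by
  obtain ⟨z, hz⟩ := hMn
  obtain ⟨y, hy, hyB⟩ := h.sepR C B hne
  have hyM : y ∉ M := fun hh => hyB (hM.1 y hh)
  have hyz : y ≠ z := by
    rintro rfl
    exact hyM hz
  rcases hC with hC | hC
  · left
    refine ⟨hC, (types_two h o hM hne hMC).resolve_left fun hT => ?_⟩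
    have e1 := hT z hz y hy hyM
    rw [hC y z hy (hMC z hz)] at e1
    exact hyz e1
  · right
    refine ⟨hC, (types_one h o hM hne hMC).resolve_left fun hT => ?_⟩
    have e1 := hT z hz y hy hyM
    have e2 : a z y = y := hC y z hy (hMC z hz)
    rw [e2] at e1
    exact hyz e1

/-- the flags of rank `ρ` which are counted -/
def JR (I : L → R → Prop) (r : R → ℕ) (ρ : ℕ) (B : R) (M : Set L) : Prop :=
  r B = ρ ∧ M.Nonempty ∧ ∃ C, M = {x | I x B ∧ I x C} ∧ WallOf I B C ∧ Hi I r B C

theorem JR.wl {r : R → ℕ} {ρ : ℕ} {B : R} {M : Set L} (h : JR I r ρ B M) : Wl I B M := by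
  obtain ⟨-, -, C, rfl, hC, -⟩ := h
  exact wl_of hC

theorem JR.sub {r : R → ℕ} {ρ : ℕ} {B : R} {M M' : Set L} (h : JR I r ρ B M)
    (h' : JR I r ρ B M') (hs : ∀ x ∈ M, x ∈ M') : M = M' := by
  obtain ⟨-, -, C, rfl, hC, -⟩ := h'
  refine Set.Subset.antisymm hs fun x hx => ?_
  exact h.wl.2 C hC.1.symm (fun y hy => (hs y hy).2) x hx.1 hx.2

section layer

variable {r : R → ℕ} {ρ : ℕ}

theorem layer1 (h : HypL I) (o : Op I a b) (B C : R) (M : Set L) (hne : B ≠ C)
    (hB : JR I r ρ B M) (hC : JR I r ρ C M) : T1 I a B M ∨ T2 I a C M :=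
  types_one h o hC.wl hne hB.wl.1

theorem layer2 (B : R) (M M' : Set L) (hne : M ≠ M') (hM : JR I r ρ B M)
    (hM' : JR I r ρ B M') : ¬ (T1 I a B M ∧ T2 I a B M') := by
  refine types_no hM.wl.1 hM'.wl.1 ?_ ?_
  · by_contra hcon
    push Not at hcon
    exact hne (hM.sub hM' hcon)
  · by_contra hcon
    push Not at hcon
    exact hne (hM'.sub hM hcon).symm

theorem layer3 (h : HypL I) (o : Op I a b)
    (hP : ∀ C, Big I C → ρ < r C → Pure I a C) (M : Set L) (B : R) (hM : JR I r ρ B M)
    (h1 : ¬ T1 I a B M) (h2 : ¬ T2 I a B M) : ∃ C, C ≠ B ∧ JR I r ρ C M := by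
  have hw := hM.wl
  obtain ⟨hr, hMn, C, rfl, hC, hhi⟩ := hM
  rcases hhi with ⟨hbig, hlt⟩ | ⟨heq, hC'⟩
  · exfalso
    rcases type_of_pure h o hw hC.1.symm (fun x hx => hx.2) hMn
        (hP C hbig (by rw [← hr]; exact hlt)) with h3 | h3
    · exact h1 h3.2
    · exact h2 h3.2
  · refine ⟨C, hC.1.symm, by rw [← heq, hr], hMn, B, ?_, hC', Or.inr ⟨heq.symm, hC⟩⟩
    ext x
    exact and_comm

theorem layer4 (h : HypL I) (hW : WallsL I r) (B : R) (M : Set L) (hM : JR I r ρ B M) :
    ∃ M', M' ≠ M ∧ JR I r ρ B M' := by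
  have hw := hM.wl
  obtain ⟨hr, ⟨l, hl⟩, C, rfl, hC, -⟩ := hM
  obtain ⟨p, hp, hp'⟩ := h.sepR B C hC.1
  have hpl : p ≠ l := by
    rintro rfl
    exact hp' hl.2
  obtain ⟨D, hpD, hlD, hBD, hhi⟩ := hW B p l hpl hp hl.1
  refine ⟨{x | I x B ∧ I x D}, ?_, hr, ⟨p, hp, hpD⟩, D, rfl, hBD, hhi⟩
  intro e
  have hmem : p ∈ {x | I x B ∧ I x D} := ⟨hp, hpD⟩
  rw [e] at hmem
  exact hp' hmem.2

end layer

/-- all blocks with at least three points are pure -/
theorem pure_of_big [Fintype L] [Fintype R] (h : HypL I) {r : R → ℕ} (hW : WallsL I r)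
    (o : Op I a b) : ∀ B, Big I B → Pure I a B := by
  classical
  have := Fintype.ofFinite (Set L)
  obtain ⟨N, hN⟩ : ∃ N, ∀ B, r B ≤ N := ⟨Finset.univ.sup r, fun B => Finset.le_sup (Finset.mem_univ B)⟩
  have key : ∀ k B, N - r B = k → Big I B → Pure I a B := by
    intro k
    induction k using Nat.strong_induction_on with
    | _ k ih =>
      intro B hk hbig
      have hP : ∀ C, Big I C → r B < r C → Pure I a C := by
        intro C hC hlt
        have h5 := hN C
        exact ih (N - r C) (by omega) C rfl hC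
      have hflag : ∀ l p, l ≠ p → I l B → I p B → ∃ M, JR I r (r B) B M ∧ l ∈ M ∧ p ∉ M := by
        intro l p hlp hl hp
        obtain ⟨C, hlC, hpC, hBC, hhi⟩ := hW B l p hlp hl hp
        exact ⟨{x | I x B ∧ I x C}, ⟨rfl, ⟨l, hl, hlC⟩, C, rfl, hBC, hhi⟩, ⟨hl, hlC⟩,
          fun hh => hpC hh.2⟩
      rcases pure_or_mixed (J := JR I r (r B)) (p := T1 I a) (q := T2 I a)
          (fun B C M hne hB hC => layer1 h o B C M hne hB hC)
          (fun B M M' hne hM hM' => layer2 B M M' hne hM hM')
          (fun M C hM h1 h2 => layer3 h o hP M C hM h1 h2)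
          (fun B M hM => layer4 h hW B M hM) B with h1 | h1 | h1
      · left
        intro x y hx hy
        by_cases hxy : x = y
        · rw [hxy, o.ida]
        · obtain ⟨M, hM, hxM, hyM⟩ := hflag x y hxy hx hy
          exact (h1 M hM).1 x hxM y hy hyM
      · right
        intro x y hx hy
        by_cases hxy : x = y
        · rw [hxy]
          exact o.ida y
        · obtain ⟨M, hM, hxM, hyM⟩ := hflag x y hxy hx hy
          exact (h1 M hM).1 x hxM y hy hyM
      · exfalso
        obtain ⟨M0, M1, -, -, -, hall, -⟩ := h1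
        obtain ⟨x, y, z, hxy, hxz, hyz, hx, hy, hz⟩ := hbig
        have hsep : ∀ l p, l ≠ p → I l B → I p B → (l ∈ M0 ∧ p ∉ M0) ∨ (p ∈ M0 ∧ l ∉ M0) := by
          intro l p hlp hl hp
          obtain ⟨M, hM, hlM, hpM⟩ := hflag l p hlp hl hp
          obtain ⟨M', hM', hpM', hlM'⟩ := hflag p l hlp.symm hp hl
          rcases hall M hM with e1 | e1 <;> rcases hall M' hM' with e2 | e2 <;>
            rw [e1] at hlM hpM <;> rw [e2] at hpM' hlM'
          · exact absurd hpM' hpM
          · exact Or.inl ⟨hlM, hpM⟩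
          · exact Or.inr ⟨hpM', hlM'⟩
          · exact absurd hpM' hpM
        rcases hsep x y hxy hx hy with h1 | h1 <;> rcases hsep x z hxz hx hz with h2 | h2 <;>
          rcases hsep y z hyz hy hz with h3 | h3 <;> tauto
  intro B hB
  exact key _ B rfl hB

/-- the flags of the blocks with at most two points -/
def J0 (I : L → R → Prop) (B : R) (M : Set L) : Prop :=
  ¬ Big I B ∧ ∃ x, I x B ∧ M = {x}

section small

theorem small1 (h : HypL I) (o : Op I a b) (B C : R) (M : Set L) (hne : B ≠ C)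
    (hB : J0 I B M) (hC : J0 I C M) : T1 I a B M ∨ T2 I a C M := by
  obtain ⟨hB1, x, hx, rfl⟩ := hB
  obtain ⟨hC1, y, hy, he⟩ := hC
  have hxy : x = y := Set.singleton_injective he
  refine types_one h o (wl_single h hC1 (hxy ▸ hy)) hne fun t ht => ?_
  rw [Set.mem_singleton_iff] at ht
  rw [ht]
  exact hx

theorem small2 (B : R) (M M' : Set L) (hne : M ≠ M') (hM : J0 I B M)
    (hM' : J0 I B M') : ¬ (T1 I a B M ∧ T2 I a B M') := by
  obtain ⟨-, x, hx, rfl⟩ := hM
  obtain ⟨-, y, hy, rfl⟩ := hM'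
  have hxy : x ≠ y := by
    rintro rfl
    exact hne rfl
  refine types_no ?_ ?_ ⟨x, rfl, hxy⟩ ⟨y, rfl, Ne.symm hxy⟩
  · intro t ht
    rw [Set.mem_singleton_iff] at ht
    rw [ht]
    exact hx
  · intro t ht
    rw [Set.mem_singleton_iff] at ht
    rw [ht]
    exact hy

theorem small3 (h : HypL I) (o : Op I a b) (hP : ∀ C, Big I C → Pure I a C) (M : Set L)
    (B : R) (hM : J0 I B M) (h1 : ¬ T1 I a B M) (h2 : ¬ T2 I a B M) :
    ∃ C, C ≠ B ∧ J0 I C M := by
  obtain ⟨hB, x, hx, rfl⟩ := hM
  obtain ⟨C, hCB, hxC⟩ := h.two_blocks x B hx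
  refine ⟨C, hCB, fun hbig => ?_, x, hxC, rfl⟩
  rcases type_of_pure h o (wl_single h hB hx) hCB (fun t ht => by
      rw [Set.mem_singleton_iff] at ht
      rw [ht]
      exact hxC) (Set.singleton_nonempty x) (hP C hbig) with h3 | h3
  · exact h1 h3.2
  · exact h2 h3.2

theorem small4 (h : HypL I) (B : R) (M : Set L) (hM : J0 I B M) :
    ∃ M', M' ≠ M ∧ J0 I B M' := by
  obtain ⟨hB, x, hx, rfl⟩ := hM
  obtain ⟨y, hyx, hy⟩ := h.two_pts B x hx
  exact ⟨{y}, fun e => hyx (Set.singleton_injective e), hB, y, hy, rfl⟩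

/-- the blocks with two points are not mixed -/
theorem not_mixed [Fintype L] [Fintype R] (h : HypL I) (o : Op I a b)
    (hP : ∀ C, Big I C → Pure I a C) (B : R) : ¬ Mixed (J0 I) (T1 I a) (T2 I a) B := by
  classical
  have := Fintype.ofFinite (Set L)
  intro hB
  have spread : ∀ B C x, Mixed (J0 I) (T1 I a) (T2 I a) B → I x B → I x C →
      Mixed (J0 I) (T1 I a) (T2 I a) C := by
    intro B C x hB hxB hxC
    by_cases hCB : C = B
    · rw [hCB]
      exact hB
    have hBs : ¬ Big I B := by
      obtain ⟨M0, -, -, hJ0, -⟩ := hB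
      exact hJ0.1
    have hJ : J0 I B {x} := ⟨hBs, x, hxB, rfl⟩
    by_cases hbig : Big I C
    · exfalso
      have hty := type_of_pure h o (wl_single h hBs hxB) hCB (fun t ht => by
          rw [Set.mem_singleton_iff] at ht
          rw [ht]
          exact hxC) (Set.singleton_nonempty x) (hP C hbig)
      -- both types or no type at the wall `x` of `B`
      have hbn : (T1 I a B {x} ∧ T2 I a B {x}) ∨ (¬ T1 I a B {x} ∧ ¬ T2 I a B {x}) := by
        obtain ⟨M0, M1, -, -, -, hall, e1, e2, e3, e4⟩ := hB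
        rcases hall _ hJ with e | e
        · rw [e]
          exact Or.inl ⟨e1, e2⟩
        · rw [e]
          exact Or.inr ⟨e3, e4⟩
      rcases hbn with hbn | hbn
      · -- count the blocks on the wall
        have e := (both_eq (J := J0 I) (p := T1 I a) (q := T2 I a)
          (fun B C M hne hB hC => small1 h o B C M hne hB hC)
          (fun B M M' hne hM hM' => small2 B M M' hne hM hM')
          (fun M C hM h1 h2 => small3 h o hP M C hM h1 h2)
          (fun B M hM => small4 h B M hM)).2 {x}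
        have hall : ∀ D, J0 I D {x} → (Fst I a C ∧ T1 I a D {x}) ∨
            (Fst I (fun x y => a y x) C ∧ T2 I a D {x}) := by
          intro D hD
          obtain ⟨hD1, y, hy, he⟩ := hD
          have hxy : x = y := Set.singleton_injective he
          have hDC : C ≠ D := by
            rintro rfl
            exact hD1 hbig
          exact type_of_pure h o (wl_single h hD1 (hxy ▸ hy)) hDC (fun t ht => by
            rw [Set.mem_singleton_iff] at ht
            rw [ht]
            exact hxC) (Set.singleton_nonempty x) (hP C hbig)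
        obtain ⟨w, hwx, hw⟩ := h.two_pts C x hxC
        have hns : ¬ (Fst I a C ∧ Fst I (fun x y => a y x) C) := by
          rintro ⟨f1, f2⟩
          have g1 := f1 w x hw hxC
          have g2 : a w x = x := f2 x w hxC hw
          rw [g1] at g2
          exact hwx g2
        have hBm : B ∈ Finset.univ.filter fun D => J0 I D {x} ∧ T1 I a D {x} := by
          rw [Finset.mem_filter]
          exact ⟨Finset.mem_univ B, hJ, hbn.1⟩
        have hBm' : B ∈ Finset.univ.filter fun D => J0 I D {x} ∧ T2 I a D {x} := by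
          rw [Finset.mem_filter]
          exact ⟨Finset.mem_univ B, hJ, hbn.2⟩
        have c1 := Finset.card_pos.2 ⟨B, hBm⟩
        have c2 := Finset.card_pos.2 ⟨B, hBm'⟩
        by_cases hf : Fst I a C
        · have c3 : (Finset.univ.filter fun D => J0 I D {x} ∧ T1 I a D {x}) =
              Finset.univ.filter fun D => J0 I D {x} := by
            ext D
            rw [Finset.mem_filter, Finset.mem_filter]
            constructor
            · exact fun hD => ⟨hD.1, hD.2.1⟩
            · intro hD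
              refine ⟨hD.1, hD.2, ?_⟩
              rcases hall D hD.2 with h3 | h3
              · exact h3.2
              · exact absurd ⟨hf, h3.1⟩ hns
          rw [c3] at e
          omega
        · have c3 : (Finset.univ.filter fun D => J0 I D {x} ∧ T2 I a D {x}) =
              Finset.univ.filter fun D => J0 I D {x} := by
            ext D
            rw [Finset.mem_filter, Finset.mem_filter]
            constructor
            · exact fun hD => ⟨hD.1, hD.2.1⟩
            · intro hD
              refine ⟨hD.1, hD.2, ?_⟩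
              rcases hall D hD.2 with h3 | h3
              · exact absurd h3.1 hf
              · exact h3.2
          rw [c3] at e
          omega
      · rcases hty with h3 | h3
        · exact hbn.1 h3.2
        · exact hbn.2 h3.2
    · exact mixed_spread (J := J0 I) (p := T1 I a) (q := T2 I a)
        (fun B C M hne hB hC => small1 h o B C M hne hB hC)
        (fun B M M' hne hM hM' => small2 B M M' hne hM hM')
        (fun M C hM h1 h2 => small3 h o hP M C hM h1 h2)
        (fun B M hM => small4 h B M hM) hB hJ ⟨hbig, x, hxC, rfl⟩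
  have hsm : ∀ B, Mixed (J0 I) (T1 I a) (T2 I a) B → ¬ Big I B := by
    rintro B ⟨M0, -, -, hJ0, -⟩
    exact hJ0.1
  have hne : ∃ x, I x B := by
    obtain ⟨M0, M1, h01, hJ0, -⟩ := hB
    obtain ⟨-, x, hx, -⟩ := hJ0
    exact ⟨x, hx⟩
  obtain ⟨x0, hx0⟩ := hne
  have hall : ∀ k x, Near I k x0 x → ∀ C, I x C → Mixed (J0 I) (T1 I a) (T2 I a) C := by
    intro k
    induction k with
    | zero =>
      intro x hx C hC
      have hx' : x0 = x := hx
      rw [← hx'] at hC
      exact spread B C x0 hB hx0 hC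
    | succ k ih =>
      rintro x ⟨z, hz, D, hzD, hxD⟩ C hC
      exact spread D C x (ih z hz D hzD) hxD hC
  obtain ⟨p, q, D, D', hpq, hD, hpD, hqD, hpD', hqD'⟩ := h.nsf
  obtain ⟨k, hk⟩ := h.conn x0 p
  obtain ⟨t, ht, ht'⟩ := h.sepR D D' hD
  refine hsm D (hall k p hk D hpD) ⟨t, p, q, ?_, ?_, hpq, ht, hpD, hqD⟩
  · rintro rfl
    exact ht' hpD'
  · rintro rfl
    exact ht' hqD'

end small

theorem pure_all [Fintype L] [Fintype R] (h : HypL I) {r : R → ℕ} (hW : WallsL I r)
    (o : Op I a b) (B : R) : Pure I a B := by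
  classical
  have := Fintype.ofFinite (Set L)
  have hP := pure_of_big h hW o
  by_cases hbig : Big I B
  · exact hP B hbig
  rcases pure_or_mixed (J := J0 I) (p := T1 I a) (q := T2 I a)
      (fun B C M hne hB hC => small1 h o B C M hne hB hC)
      (fun B M M' hne hM hM' => small2 B M M' hne hM hM')
      (fun M C hM h1 h2 => small3 h o hP M C hM h1 h2)
      (fun B M hM => small4 h B M hM) B with h1 | h1 | h1
  · left
    intro x y hx hy
    by_cases hxy : x = y
    · rw [hxy, o.ida]
    · exact (h1 {x} ⟨hbig, x, hx, rfl⟩).1 x rfl y hy (Ne.symm hxy)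
  · right
    intro x y hx hy
    by_cases hxy : x = y
    · rw [hxy]
      exact o.ida y
    · exact (h1 {x} ⟨hbig, x, hx, rfl⟩).1 x rfl y hy (Ne.symm hxy)
  · exact absurd h1 (not_mixed h o hP B)

theorem fst_spread (h : HypL I) (o : Op I a b)
    (hfs : ∀ B, Pure I a B) {B C : R} {z : L} (hB : Fst I a B)
    (hzB : I z B) (hzC : I z C) : Fst I a C := by
  rcases hfs C with h1 | h1
  · exact h1
  exfalso
  have e1 : B = b B C := by
    by_contra hne
    obtain ⟨t, ht, ht'⟩ := h.sepR _ _ hne
    have h3 := o.pres t z B C ht hzC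
    rw [hB t z ht hzB] at h3
    exact ht' h3
  have e2 : C = b B C := by
    by_contra hne
    obtain ⟨t, ht, ht'⟩ := h.sepR _ _ hne
    have h3 := o.pres z t B C hzB ht
    have h4 : a z t = t := h1 t z ht hzC
    rw [h4] at h3
    exact ht' h3
  obtain ⟨t, htz, ht⟩ := h.two_pts B z hzB
  have e3 : B = C := e1.trans e2.symm
  have h5 := hB t z ht hzB
  have h6 : a t z = z := h1 z t hzC (e3 ▸ ht)
  rw [h5] at h6
  exact htz h6

theorem coreW [Finite L] [Finite R] (h : HypL I) {r : R → ℕ} (hW : WallsL I r) (o : Op I a b) :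
    ((∀ x y, a x y = x) ∧ ∀ u v, b u v = u) ∨ ((∀ x y, a x y = y) ∧ ∀ u v, b u v = v) := by
  classical
  have := Fintype.ofFinite L
  have := Fintype.ofFinite R
  have key : ∀ (a : L → L → L) (b : R → R → R), Op I a b → (∃ B, Fst I a B ∧ ∃ x, I x B) →
      (∀ x y, a x y = x) ∧ ∀ u v, b u v = u := by
    rintro a b o ⟨B, hB, x0, hx0⟩
    have hall : ∀ k x, Near I k x0 x → ∀ C, I x C → Fst I a C := by
      intro k
      induction k with
      | zero =>
        intro x hx C hC
        have hx' : x0 = x := hx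
        rw [← hx'] at hC
        exact fst_spread h o (pure_all h hW o) hB hx0 hC
      | succ k ih =>
        rintro x ⟨z, hz, D, hzD, hxD⟩ C hC
        exact fst_spread h o (pure_all h hW o) (ih z hz D hzD) hxD hC
    refine extendL h o fun x y hc => ?_
    obtain ⟨C, hxC, hyC⟩ := hc
    obtain ⟨k, hk⟩ := h.conn x0 x
    exact hall k x hk C hxC x y hxC hyC
  obtain ⟨p, -, D, -, -, -, hpD, -⟩ := h.nsf
  rcases pure_all h hW o D with h1 | h1
  · left
    exact key a b o ⟨D, h1, p, hpD⟩
  · right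
    have h2 := key _ _ o.swap ⟨D, h1, p, hpD⟩
    exact ⟨fun x y => h2.1 y x, fun u v => h2.2 v u⟩

end Pool.Agent.Helper74.Idem
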