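import Mathlib
import Pool.Agent.Helper57.Idem.CritG
import Pool.Agent.Helper70.SqFree
import Pool.Agent.Helper74.Idem.Walls

set_option autoImplicit false

/-!
# The criterion for pairs with local exchange and walls, and for pairs without free faces
-/

namespace Pool.Agent.Helper74.Idem

open Pool.Agent.Helper70.IdemDefs Pool.Agent.Helper57.Idem

section NoFree

variable {L R : Type*} {I : L → R → Prop}

/-- no free faces: the other points of a block are on another block -/
def NoFreeI (I : L → R → Prop) : Prop :=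
  ∀ B x, I x B → ∃ C, C ≠ B ∧ ∀ y, y ≠ x → I y B → I y C

theorem NoFreeI.exch (hF : NoFreeI I) (hsep : ∀ u v, u ≠ v → ∃ x, I x u ∧ ¬ I x v) :
    ∀ x y z, x ≠ y → x ≠ z → Coh I x y → (∀ u, I x u → I y u → I z u) →
      ∀ u, I x u → I z u → I y u := by
  rintro x y z hxy hxz ⟨B, hxB, hyB⟩ hall u hxu hzu
  by_cases hyz : y = z
  · rw [hyz]
    exact hzu
  exfalso
  obtain ⟨C, hCB, hC⟩ := hF B z (hall B hxB hyB)
  have hzC : I z C := hall C (hC x hxz hxB) (hC y hyz hyB)
  obtain ⟨t, ht, ht'⟩ := hsep B C hCB.symm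
  refine ht' (hC t ?_ ht)
  rintro rfl
  exact ht' hzC

theorem NoFreeI.walls [Finite L] (hF : NoFreeI I)
    (hsep : ∀ u v, u ≠ v → ∃ x, I x u ∧ ¬ I x v) :
    WallsL I fun B => {x | I x B}.ncard := by
  intro B l p hlp hl hp
  obtain ⟨C, hCB, hC⟩ := hF B p hp
  have hpC : ¬ I p C := by
    intro hpC
    obtain ⟨t, ht, ht'⟩ := hsep B C hCB.symm
    refine ht' (hC t ?_ ht)
    rintro rfl
    exact ht' hpC
  have hw : WallOf I B C := by
    refine ⟨hCB.symm, fun D hD hs x hx hxD => ?_⟩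
    by_cases hxp : x = p
    · exfalso
      subst hxp
      obtain ⟨t, ht, ht'⟩ := hsep B D hD.symm
      have htx : t ≠ x := by
        rintro rfl
        exact ht' hxD
      exact ht' (hs t ht (hC t htx ht))
    · exact hC x hxp hx
  refine ⟨C, hC l hlp hl, hpC, hw, ?_⟩
  obtain ⟨w, hw1, hw2⟩ := hsep C B hCB
  -- `B` without `p`, with `w`, is contained in `C`
  have hsub : insert w ({x | I x B} \ {p}) ⊆ {x | I x C} := by
    intro x hx
    rcases hx with rfl | hx
    · exact hw1
    · exact hC x hx.2 hx.1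
  have hc1 : ({x | I x B} \ {p}).ncard + 1 = {x | I x B}.ncard :=
    Set.ncard_sdiff_singleton_add_one hp (Set.toFinite _)
  have hc2 : (insert w ({x | I x B} \ {p})).ncard = ({x | I x B} \ {p}).ncard + 1 :=
    Set.ncard_insert_of_notMem (fun hh => hw2 hh.1) (Set.toFinite _)
  have hle := Set.ncard_le_ncard hsub (Set.toFinite _)
  by_cases heq : {x | I x B}.ncard = {x | I x C}.ncard
  · refine Or.inr ⟨heq, hCB, fun D hD hs x hx hxD => ?_⟩
    have hset := Set.eq_of_subset_of_ncard_le hsub (by omega) (Set.toFinite _)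
    have hx' : x ∈ {x | I x C} := hx
    rw [← hset] at hx'
    rcases hx' with rfl | hx'
    · exfalso
      obtain ⟨t, ht, ht'⟩ := hsep C D hD.symm
      have ht2 : t ∈ {x | I x C} := ht
      rw [← hset] at ht2
      rcases ht2 with rfl | ht2
      · exact ht' hxD
      · exact ht' (hs t ht ht2.1)
    · exact hx'.1
  · have hlt : {x | I x B}.ncard < {x | I x C}.ncard := by omega
    refine Or.inl ⟨?_, hlt⟩
    have h2 : 2 ≤ {x | I x B}.ncard := by
      have hpair : ({l, p} : Set L) ⊆ {x | I x B} := by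
        rintro x (rfl | rfl)
        · exact hl
        · exact hp
      have := Set.ncard_le_ncard hpair (Set.toFinite _)
      rwa [Set.ncard_pair hlp] at this
    have h3 : 2 < {x | I x C}.ncard := by omega
    obtain ⟨x, y, z, hx, hy, hz, hxy, hxz, hyz⟩ := (Set.two_lt_ncard_iff (Set.toFinite _)).1 h3
    exact ⟨x, y, z, hxy, hxz, hyz, hx, hy, hz⟩

end NoFree

variable {E : Type*}

/-- the `φ`-classes of `b` and `c` are different, and the set of `θ`-classes which meet both of
them is maximal among the sets of `θ`-classes which meet both `b` and another `φ`-class -/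
def WallMeet (θ φ : Setoid E) (b c : E) : Prop :=
  ¬ φ b c ∧ ∀ d, ¬ φ d b → (∀ x, Meets θ φ x b → Meets θ φ x c → Meets θ φ x d) →
    ∀ x, Meets θ φ x b → Meets θ φ x d → Meets θ φ x c

/-- the `φ`-class of `b` meets at least three `θ`-classes -/
def Three (θ φ : Setoid E) (b : E) : Prop :=
  ∃ x y z, ¬ θ x y ∧ ¬ θ x z ∧ ¬ θ y z ∧ Meets θ φ x b ∧ Meets θ φ y b ∧ Meets θ φ z b

/-- for some rank function `r` on the `φ`-classes: whenever two different `θ`-classes `x`, `y`
meet a `φ`-class `b`, some `φ`-class `c` meets `x` and misses `y`, such that `b ∩ c` is a wall of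
`b`, and either `c` has larger rank and at least three points, or `c` has the same rank and
`b ∩ c` is also a wall of `c` -/
def Walls (θ φ : Setoid E) : Prop :=
  ∃ r : E → ℕ, (∀ u v, φ u v → r u = r v) ∧
    ∀ b x y, ¬ θ x y → Meets θ φ x b → Meets θ φ y b →
      ∃ c, Meets θ φ x c ∧ ¬ Meets θ φ y c ∧ WallMeet θ φ b c ∧
        ((Three θ φ c ∧ r b < r c) ∨ (r b = r c ∧ WallMeet θ φ c b))

/-- no free faces: if the `θ`-class `x` meets the `φ`-class `b`, then all the other `θ`-classes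
which meet `b` also meet one other `φ`-class `c` -/
def NoFree (θ φ : Setoid E) : Prop :=
  ∀ b x, Meets θ φ x b → ∃ c, ¬ φ b c ∧ ∀ y, ¬ θ x y → Meets θ φ y b → Meets θ φ y c

/-- incidence of the classes -/
def Inc (θ φ : Setoid E) (X : Quotient θ) (U : Quotient φ) : Prop :=
  ∃ e, Quotient.mk θ e = X ∧ Quotient.mk φ e = U

theorem inc_iff (θ φ : Setoid E) (x u : E) :
    Inc θ φ (Quotient.mk θ x) (Quotient.mk φ u) ↔ Meets θ φ x u := by
  constructor
  · rintro ⟨e, he1, he2⟩
    exact ⟨e, θ.symm (Quotient.exact he1), φ.symm (Quotient.exact he2)⟩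
  · rintro ⟨e, he1, he2⟩
    exact ⟨e, Quotient.sound (θ.symm he1), Quotient.sound (φ.symm he2)⟩

theorem ne_iff (θ : Setoid E) (x y : E) : Quotient.mk θ x ≠ Quotient.mk θ y ↔ ¬ θ x y := by
  rw [ne_eq, Quotient.eq]

theorem coh_iff (θ φ : Setoid E) (x y : E) :
    Coh (Inc θ φ) (Quotient.mk θ x) (Quotient.mk θ y) ↔ Step θ φ x y := by
  constructor
  · rintro ⟨U, hU1, hU2⟩
    induction U using Quotient.inductionOn with | _ u => ?_
    exact ⟨u, (inc_iff θ φ x u).1 hU1, (inc_iff θ φ y u).1 hU2⟩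
  · rintro ⟨u, hu1, hu2⟩
    exact ⟨Quotient.mk φ u, (inc_iff θ φ x u).2 hu1, (inc_iff θ φ y u).2 hu2⟩

theorem squareFree_of_tight {θ φ : Setoid E} (h3 : ∀ x y, θ x y → φ x y → x = y)
    (hsq : ¬ ∃ x y u v, ¬ θ x y ∧ ¬ φ u v ∧ Meets θ φ x u ∧ Meets θ φ y u ∧ Meets θ φ x v ∧
      Meets θ φ y v) : SquareFree {θ, φ} := by
  have key : ∀ p q r s, θ p q → φ q r → θ r s → φ s p →
      (p = q ∧ r = s) ∨ (q = r ∧ s = p) := by
    intro p q r s h1 h2 h4 h5
    by_cases hpr : θ p r
    · right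
      exact ⟨h3 q r (θ.trans (θ.symm h1) hpr) h2,
        h3 s p (θ.trans (θ.symm h4) (θ.symm hpr)) h5⟩
    · by_cases hpq : φ p q
      · left
        exact ⟨h3 p q h1 hpq,
          h3 r s h4 (φ.trans (φ.symm h2) (φ.trans (φ.symm hpq) (φ.symm h5)))⟩
      · exfalso
        refine hsq ⟨p, r, p, q, hpr, hpq, ⟨p, θ.refl p, φ.refl p⟩, ⟨s, h4, φ.symm h5⟩,
          ⟨q, h1, φ.refl q⟩, ⟨r, θ.refl r, h2⟩⟩
  intro α hα β hβ hne p q r s h1 h2 h4 h5
  rcases hα with rfl | hα
  · rcases hβ with rfl | hβ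
    · exact absurd rfl hne
    · obtain rfl : β = φ := hβ
      exact key p q r s h1 h2 h4 h5
  · obtain rfl : α = φ := hα
    rcases hβ with rfl | hβ
    · rcases key q r s p h2 h4 h5 h1 with h | h
      · exact Or.inr h
      · exact Or.inl ⟨h.2, h.1⟩
    · obtain rfl : β = α := hβ
      exact absurd rfl hne

/-- the sufficient condition in terms of the incidence relation of the classes -/
theorem propertyP_of_inc [Finite E] {θ φ : Setoid E} (h3 : Tight θ φ) (h4 : θ ⊔ φ = ⊤)
    (hex : ∀ x y z, x ≠ y → x ≠ z → Coh (Inc θ φ) x y →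
      (∀ u, Inc θ φ x u → Inc θ φ y u → Inc θ φ z u) →
      ∀ u, Inc θ φ x u → Inc θ φ z u → Inc θ φ y u)
    (hW : ∃ r, WallsL (Inc θ φ) r) : PropertyP {θ, φ} := by
  rcases subsingleton_or_nontrivial E with hE | hE
  · intro f _ _
    exact Or.inl fun x y => Subsingleton.elim _ _
  have hI := inc_iff θ φ
  have hconn : ∀ X Y, ∃ k, Near (Inc θ φ) k X Y := by
    intro X Y
    induction X using Quotient.inductionOn with | _ x => ?_
    induction Y using Quotient.inductionOn with | _ y => ?_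
    exact conn_of_sup (Quotient.mk θ) (Quotient.mk φ) (fun e => ⟨e, rfl, rfl⟩)
      (fun e e' h => Quotient.sound h) (fun e e' h => Quotient.sound h) h4 x y
  have hsepL : ∀ X Y, X ≠ Y → ∃ U, Inc θ φ X U ∧ ¬ Inc θ φ Y U := by
    intro X Y
    induction X using Quotient.inductionOn with | _ x => ?_
    induction Y using Quotient.inductionOn with | _ y => ?_
    intro hxy
    obtain ⟨u, hu1, hu2⟩ := h3.2.1 x y ((ne_iff θ x y).1 hxy)
    exact ⟨Quotient.mk φ u, (hI x u).2 hu1, fun hh => hu2 ((hI y u).1 hh)⟩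
  have hsepR : ∀ U V, U ≠ V → ∃ X, Inc θ φ X U ∧ ¬ Inc θ φ X V := by
    intro U V
    induction U using Quotient.inductionOn with | _ u => ?_
    induction V using Quotient.inductionOn with | _ v => ?_
    intro huv
    obtain ⟨x, hx1, hx2⟩ := h3.2.2 u v ((ne_iff φ u v).1 huv)
    exact ⟨Quotient.mk θ x, (hI x u).2 hx1, fun hh => hx2 ((hI x v).1 hh)⟩
  by_cases hsq : ∃ x y u v, ¬ θ x y ∧ ¬ φ u v ∧ Meets θ φ x u ∧ Meets θ φ y u ∧ Meets θ φ x v ∧
      Meets θ φ y v
  · -- two points on two blocks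
    intro f hid hf
    have hθ : Preserves f θ := hf θ (by simp)
    have hφ : Preserves f φ := hf φ (by simp)
    let a : Quotient θ → Quotient θ → Quotient θ :=
      Quotient.map₂ f (fun x x' hx y y' hy => hθ x x' y y' hx hy)
    let b : Quotient φ → Quotient φ → Quotient φ :=
      Quotient.map₂ f (fun x x' hx y y' hy => hφ x x' y y' hx hy)
    have hH : HypL (Inc θ φ) := by
      refine ⟨hconn, hex, hsepL, hsepR, ?_⟩
      obtain ⟨x, y, u, v, hxy, huv, e1, e2, e3, e4⟩ := hsq
      exact ⟨Quotient.mk θ x, Quotient.mk θ y, Quotient.mk φ u, Quotient.mk φ v,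
        (ne_iff θ x y).2 hxy, (ne_iff φ u v).2 huv, (hI x u).2 e1, (hI y u).2 e2,
        (hI x v).2 e3, (hI y v).2 e4⟩
    have hO : Op (Inc θ φ) a b := by
      refine ⟨?_, ?_, ?_⟩
      · intro X
        induction X using Quotient.inductionOn with | _ x => ?_
        change Quotient.mk θ (f x x) = _
        rw [hid]
      · intro X
        induction X using Quotient.inductionOn with | _ x => ?_
        change Quotient.mk φ (f x x) = _
        rw [hid]
      · rintro X Y U V ⟨e, rfl, rfl⟩ ⟨e', rfl, rfl⟩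
        exact ⟨f e e', rfl, rfl⟩
    obtain ⟨r, hr⟩ := hW
    rcases coreW hH hr hO with ⟨ha, hb⟩ | ⟨ha, hb⟩
    · left
      intro x y
      refine h3.1 _ _ ?_ ?_
      · exact Quotient.exact (ha (Quotient.mk θ x) (Quotient.mk θ y))
      · exact Quotient.exact (hb (Quotient.mk φ x) (Quotient.mk φ y))
    · right
      intro x y
      refine h3.1 _ _ ?_ ?_
      · exact Quotient.exact (ha (Quotient.mk θ x) (Quotient.mk θ y))
      · exact Quotient.exact (hb (Quotient.mk φ x) (Quotient.mk φ y))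
  · -- the square-free case
    have hne : θ ≠ φ := by
      rintro rfl
      obtain ⟨x, y, hxy⟩ := exists_pair_ne E
      have h5 : θ x y := by
        have h6 : (θ ⊔ θ) x y := by
          rw [h4]
          trivial
        rwa [sup_idem] at h6
      exact hxy (h3.1 x y h5 h5)
    have hnt : ∃ p q : Quotient θ, p ≠ q := by
      by_contra hcon
      push Not at hcon
      obtain ⟨x, y, hxy⟩ := exists_pair_ne E
      by_cases hφ : φ x y
      · exact hxy (h3.1 x y (Quotient.exact (hcon _ _)) hφ)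
      · obtain ⟨t, -, ht⟩ := h3.2.2 x y hφ
        exact ht ⟨y, Quotient.exact (hcon _ _), φ.refl y⟩
    refine (Pool.Agent.Helper70.SqFree.main _ (squareFree_of_tight h3.1 hsq)).2 ⟨?_, ?_⟩
    · rw [sSup_pair]
      exact h4
    · intro e
      refine ⟨θ, by simp, φ, by simp, hne, ?_, ?_⟩
      · obtain ⟨S', hS', e', he', he''⟩ := two_blocks_of hconn hnt hsepL
          (Quotient.mk θ e) (Quotient.mk φ e)
        refine ⟨e', ?_, θ.symm (Quotient.exact he')⟩
        rintro rfl
        exact hS' he''.symm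
      · obtain ⟨X', hX', e', he', he''⟩ := two_pts_of hconn hnt hsepR
          (Quotient.mk φ e) (Quotient.mk θ e)
        refine ⟨e', ?_, φ.symm (Quotient.exact he'')⟩
        rintro rfl
        exact hX' he'.symm

theorem propertyP_of_walls [Finite E] {θ φ : Setoid E} (h1 : LocalExchange θ φ)
    (h2 : Walls θ φ) (h3 : Tight θ φ) (h4 : θ ⊔ φ = ⊤) : PropertyP {θ, φ} := by
  have hI := inc_iff θ φ
  refine propertyP_of_inc h3 h4 ?_ ?_
  · intro X Y Z
    induction X using Quotient.inductionOn with | _ x => ?_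
    induction Y using Quotient.inductionOn with | _ y => ?_
    induction Z using Quotient.inductionOn with | _ z => ?_
    intro hxy hxz hc hall U
    induction U using Quotient.inductionOn with | _ u => ?_
    rw [hI, hI, hI]
    refine h1 x y z ((ne_iff θ x y).1 hxy) ((ne_iff θ x z).1 hxz) ((coh_iff θ φ x y).1 hc)
      (fun w hw1 hw2 => ?_) u
    exact (hI z w).1 (hall _ ((hI x w).2 hw1) ((hI y w).2 hw2))
  · obtain ⟨r, hr, hw⟩ := h2
    have hM : ∀ b c, WallMeet θ φ b c →
        WallOf (Inc θ φ) (Quotient.mk φ b) (Quotient.mk φ c) := by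
      rintro b c ⟨hb1, hb2⟩
      refine ⟨(ne_iff φ b c).2 hb1, fun D hD hs X hX hX' => ?_⟩
      induction D using Quotient.inductionOn with | _ d => ?_
      induction X using Quotient.inductionOn with | _ x => ?_
      rw [hI]
      refine hb2 d ((ne_iff φ d b).1 hD) (fun t ht1 ht2 => ?_) x ((hI x b).1 hX)
        ((hI x d).1 hX')
      have h5 := hs (Quotient.mk θ t) ((hI t b).2 ht1) ((hI t c).2 ht2)
      rwa [hI] at h5
    refine ⟨Quotient.lift r hr, ?_⟩
    intro B X Y hXY hX hY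
    induction B using Quotient.inductionOn with | _ b => ?_
    induction X using Quotient.inductionOn with | _ x => ?_
    induction Y using Quotient.inductionOn with | _ y => ?_
    obtain ⟨c, hc1, hc2, hc3, hc4⟩ := hw b x y ((ne_iff θ x y).1 hXY) ((hI x b).1 hX)
      ((hI y b).1 hY)
    refine ⟨Quotient.mk φ c, (hI x c).2 hc1, fun hh => hc2 ((hI y c).1 hh), hM b c hc3, ?_⟩
    rcases hc4 with ⟨⟨p, q, s, g1, g2, g3, g4, g5, g6⟩, hlt⟩ | ⟨heq, hc5⟩
    · exact Or.inl ⟨⟨_, _, _, (ne_iff θ p q).2 g1, (ne_iff θ p s).2 g2, (ne_iff θ q s).2 g3,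
        (hI p c).2 g4, (hI q c).2 g5, (hI s c).2 g6⟩, hlt⟩
    · exact Or.inr ⟨heq, hM c b hc5⟩

/-- the criterion for pairs with local exchange and walls -/
theorem criterionW [Finite E] {θ φ : Setoid E} (h1 : LocalExchange θ φ) (h2 : Walls θ φ) :
    PropertyP {θ, φ} ↔ θ ⊔ φ = ⊤ ∧ Tight θ φ :=
  ⟨fun hP => ⟨propertyP_sup hP, tight_of_propertyP hP⟩,
    fun h => propertyP_of_walls h1 h2 h.2 h.1⟩

/-- the criterion for pairs without free faces -/
theorem criterionF [Finite E] {θ φ : Setoid E} (hF : NoFree θ φ) :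
    PropertyP {θ, φ} ↔ θ ⊔ φ = ⊤ ∧ θ ⊓ φ = ⊥ ∧
      ∀ u v, ¬ φ u v → ∃ x, Meets θ φ x u ∧ ¬ Meets θ φ x v := by
  have hbot : θ ⊓ φ = ⊥ ↔ ∀ x y, θ x y → φ x y → x = y := by
    constructor
    · intro h x y h1 h2
      have h3 : (θ ⊓ φ) x y := ⟨h1, h2⟩
      rw [h] at h3
      exact h3
    · intro h
      ext x y
      refine ⟨fun h3 => h x y h3.1 h3.2, fun h3 => ?_⟩
      have h4 : x = y := h3
      rw [h4]
  constructor
  · intro hP
    have hT := tight_of_propertyP hP
    exact ⟨propertyP_sup hP, hbot.2 hT.1, hT.2.2⟩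
  · rintro ⟨h4, h5, h6⟩
    have hI := inc_iff θ φ
    have hsepR : ∀ U V, U ≠ V → ∃ X, Inc θ φ X U ∧ ¬ Inc θ φ X V := by
      intro U V
      induction U using Quotient.inductionOn with | _ u => ?_
      induction V using Quotient.inductionOn with | _ v => ?_
      intro huv
      obtain ⟨x, hx1, hx2⟩ := h6 u v ((ne_iff φ u v).1 huv)
      exact ⟨Quotient.mk θ x, (hI x u).2 hx1, fun hh => hx2 ((hI x v).1 hh)⟩
    have hFI : NoFreeI (Inc θ φ) := by
      intro B X
      induction B using Quotient.inductionOn with | _ b => ?_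
      induction X using Quotient.inductionOn with | _ x => ?_
      intro hx
      obtain ⟨c, hc1, hc2⟩ := hF b x ((hI x b).1 hx)
      refine ⟨Quotient.mk φ c, ((ne_iff φ b c).2 hc1).symm, fun Y => ?_⟩
      induction Y using Quotient.inductionOn with | _ y => ?_
      intro hy hyb
      exact (hI y c).2 (hc2 y ((ne_iff θ x y).1 hy.symm) ((hI y b).1 hyb))
    have hsepL : ∀ x y, ¬ θ x y → ∃ u, Meets θ φ x u ∧ ¬ Meets θ φ y u := by
      intro x y hxy
      by_cases hyx : Meets θ φ y x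
      · obtain ⟨c, hc1, hc2⟩ := hF x y hyx
        refine ⟨c, hc2 x (fun hh => hxy (θ.symm hh)) ⟨x, θ.refl x, φ.refl x⟩, fun hyc => ?_⟩
        obtain ⟨t, ht1, ht2⟩ := h6 x c hc1
        refine ht2 (hc2 t (fun hh => ht2 ?_) ht1)
        obtain ⟨e, he1, he2⟩ := hyc
        exact ⟨e, θ.trans (θ.symm hh) he1, he2⟩
      · exact ⟨x, ⟨x, θ.refl x, φ.refl x⟩, hyx⟩
    exact propertyP_of_inc ⟨hbot.1 h5, hsepL, h6⟩ h4 (hFI.exch hsepR) ⟨_, hFI.walls hsepR⟩

end Pool.Agent.Helper74.Idem
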