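import Mathlib
import Pool.Agent.Helper74.Idem.CritW

set_option autoImplicit false

/-!
# Simplicial complexes and matroids
-/

namespace Pool.Agent.Helper74.Idem

open Pool.Agent.Helper70.IdemDefs Pool.Agent.Helper57.Idem

section flags

variable {A B : Type*} {I : A → B → Prop}

/-- the incidence relation has no free faces -/
theorem noFree_flags (hF : ∀ U x, I x U → ∃ V, V ≠ U ∧ (∃ y, I y V) ∧ ∀ y, y ≠ x → I y U → I y V) :
    NoFree (sameFst I) (sameSnd I) := by
  intro b x hx
  rw [meets_iff] at hx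
  obtain ⟨V, hV, ⟨y, hy⟩, hall⟩ := hF b.1.2 x.1.1 hx
  refine ⟨⟨(y, V), hy⟩, fun hh => hV ?_, fun t ht htb => ?_⟩
  · have h1 : b.1.2 = V := hh
    exact h1.symm
  · rw [meets_iff] at htb ⊢
    refine hall _ ?_ htb
    intro h2
    exact ht h2.symm

/-- the criterion for the flags of an incidence relation without free faces -/
theorem criterion_flags [Finite A] [Finite B]
    (hanti : ∀ U V, (∃ x, I x U) → (∀ x, I x U → I x V) → U = V)
    (hF : ∀ U x, I x U → ∃ V, V ≠ U ∧ (∃ y, I y V) ∧ ∀ y, y ≠ x → I y U → I y V) :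
    PropertyP {sameFst I, sameSnd I} ↔ sameFst I ⊔ sameSnd I = ⊤ := by
  rw [criterionF (noFree_flags hF)]
  refine ⟨fun h => h.1, fun h => ⟨h, ?_, ?_⟩⟩
  · rw [eq_bot_iff]
    intro p q hpq
    exact Subtype.ext (Prod.ext hpq.1 hpq.2)
  · intro u v huv
    by_contra hcon
    push Not at hcon
    refine huv (hanti u.1.2 v.1.2 ⟨u.1.1, u.2⟩ fun x hx => ?_)
    have h1 := hcon ⟨(x, u.1.2), hx⟩ ((meets_iff I _ _).2 hx)
    exact (meets_iff I _ _).1 h1

/-- connectedness in terms of paths -/
theorem sup_eq_top_iff :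
    sameFst I ⊔ sameSnd I = ⊤ ↔ ∀ x y, (∃ U, I x U) → (∃ U, I y U) →
      Relation.ReflTransGen (fun u v => ∃ U, I u U ∧ I v U) x y := by
  constructor
  · intro h x y ⟨U, hU⟩ ⟨V, hV⟩
    have hsymm : ∀ u v : A, Relation.ReflTransGen (fun u v => ∃ U, I u U ∧ I v U) u v →
        Relation.ReflTransGen (fun u v => ∃ U, I u U ∧ I v U) v u := by
      intro u v huv
      induction huv with
      | refl => exact Relation.ReflTransGen.refl
      | tail _ hc ih =>
        obtain ⟨W, h1, h2⟩ := hc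
        exact Relation.ReflTransGen.head ⟨W, h2, h1⟩ ih
    let r : Setoid (Flag I) :=
      ⟨fun p q => Relation.ReflTransGen (fun u v => ∃ U, I u U ∧ I v U) p.1.1 q.1.1,
        ⟨fun p => Relation.ReflTransGen.refl, fun {p q} hpq => hsymm _ _ hpq,
          fun {p q s} h1 h2 => h1.trans h2⟩⟩
    have h1 : sameFst I ≤ r := by
      intro p q hpq
      have h2 : p.1.1 = q.1.1 := hpq
      change Relation.ReflTransGen _ p.1.1 q.1.1
      rw [h2]
    have h2 : sameSnd I ≤ r := by
      intro p q hpq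
      have h2 : p.1.2 = q.1.2 := hpq
      refine Relation.ReflTransGen.single ⟨p.1.2, p.2, ?_⟩
      rw [h2]
      exact q.2
    have h3 : sameFst I ⊔ sameSnd I ≤ r := sup_le h1 h2
    rw [h] at h3
    exact h3 (x := ⟨(x, U), hU⟩) (y := ⟨(y, V), hV⟩) trivial
  · intro h
    rw [Setoid.eq_top_iff]
    intro p q
    have key : ∀ y, Relation.ReflTransGen (fun u v => ∃ U, I u U ∧ I v U) p.1.1 y →
        ∀ q : Flag I, q.1.1 = y → (sameFst I ⊔ sameSnd I) p q := by
      intro y hy
      induction hy with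
      | refl =>
        intro q hq
        have h1 : sameFst I ≤ sameFst I ⊔ sameSnd I := le_sup_left
        exact h1 hq.symm
      | tail hb hc ih =>
        rename_i b c
        intro q hq
        obtain ⟨U, hb1, hc1⟩ := hc
        have h1 : sameFst I ≤ sameFst I ⊔ sameSnd I := le_sup_left
        have h2 : sameSnd I ≤ sameFst I ⊔ sameSnd I := le_sup_right
        have e1 := ih ⟨(b, U), hb1⟩ rfl
        have e2 : (sameFst I ⊔ sameSnd I) (⟨(b, U), hb1⟩ : Flag I) ⟨(c, U), hc1⟩ := h2 rfl
        have e3 : (sameFst I ⊔ sameSnd I) (⟨(c, U), hc1⟩ : Flag I) q := h1 hq.symm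
        exact Setoid.trans' _ (Setoid.trans' _ e1 e2) e3
    exact key q.1.1 (h p.1.1 q.1.1 ⟨p.1.2, p.2⟩ ⟨q.1.2, q.2⟩) q rfl

end flags

section complexes

variable {V : Type*}

/-- incidence of the vertices and the facets (maximal faces) of a simplicial complex -/
def FInc (K : PreAbstractSimplicialComplex V) (x : V) (B : Finset V) : Prop :=
  Maximal (fun s => s ∈ K) B ∧ x ∈ B

/-- every face which is not a facet is contained in two different facets -/
def NoFreeFaces (K : PreAbstractSimplicialComplex V) : Prop :=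
  ∀ s ∈ K, ¬ Maximal (fun s => s ∈ K) s → ∃ B C, B ≠ C ∧ Maximal (fun s => s ∈ K) B ∧
    Maximal (fun s => s ∈ K) C ∧ s ⊆ B ∧ s ⊆ C

/-- any two vertices are joined by a path of edges -/
def Conn (K : PreAbstractSimplicialComplex V) : Prop :=
  ∀ x y, {x} ∈ K → {y} ∈ K → Relation.ReflTransGen (fun u v => ∃ s ∈ K, u ∈ s ∧ v ∈ s) x y

theorem face_nonempty (K : PreAbstractSimplicialComplex V) {s : Finset V} (hs : s ∈ K) :
    s.Nonempty := (K.isRelLowerSet_faces hs).1

theorem face_mono (K : PreAbstractSimplicialComplex V) {s t : Finset V} (hs : s ∈ K)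
    (hts : t ⊆ s) (ht : t.Nonempty) : t ∈ K := (K.isRelLowerSet_faces hs).2 hts ht

theorem exists_facet [Finite V] (K : PreAbstractSimplicialComplex V) {s : Finset V}
    (hs : s ∈ K) : ∃ B, s ⊆ B ∧ Maximal (fun s => s ∈ K) B := by
  have hfin : Set.Finite {s | s ∈ K} := Set.toFinite _
  obtain ⟨B, h1, h2⟩ := hfin.exists_le_maximal hs
  exact ⟨B, h1, h2⟩

theorem conn_iff [Finite V] (K : PreAbstractSimplicialComplex V) :
    sameFst (FInc K) ⊔ sameSnd (FInc K) = ⊤ ↔ Conn K := by
  classical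
  rw [sup_eq_top_iff]
  have h1 : ∀ u v, (∃ U, FInc K u U ∧ FInc K v U) ↔ ∃ s ∈ K, u ∈ s ∧ v ∈ s := by
    intro u v
    constructor
    · rintro ⟨U, h1, h2⟩
      exact ⟨U, h1.1.1, h1.2, h2.2⟩
    · rintro ⟨s, hs, hu, hv⟩
      obtain ⟨B, hsB, hB⟩ := exists_facet K hs
      exact ⟨B, ⟨hB, hsB hu⟩, ⟨hB, hsB hv⟩⟩
  have h2 : ∀ x, (∃ U, FInc K x U) ↔ {x} ∈ K := by
    intro x
    constructor
    · rintro ⟨U, h1, h2⟩
      exact face_mono K h1.1 (Finset.singleton_subset_iff.2 h2) (Finset.singleton_nonempty x)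
    · intro hx
      obtain ⟨B, hsB, hB⟩ := exists_facet K hx
      exact ⟨B, hB, hsB (Finset.mem_singleton_self x)⟩
  simp only [h1, h2]
  rfl

/-- the criterion for finite simplicial complexes without free faces -/
theorem complexes [Finite V] (K : PreAbstractSimplicialComplex V) (hK : NoFreeFaces K) :
    PropertyP {sameFst (FInc K), sameSnd (FInc K)} ↔ Conn K := by
  classical
  have := Fintype.ofFinite V
  rw [← conn_iff]
  by_cases h1 : ∃ B, ∀ C, Maximal (fun s => s ∈ K) C → C = B
  · -- at most one facet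
    obtain ⟨B, hB⟩ := h1
    have hsub : ∀ p q : Flag (FInc K), p = q := by
      intro p q
      have e1 := hB _ p.2.1
      have e2 := hB _ q.2.1
      have e3 : p.1.1 = q.1.1 := by
        by_contra hne
        have hs : ({p.1.1} : Finset V) ∈ K := face_mono K p.2.1.1
          (Finset.singleton_subset_iff.2 p.2.2) (Finset.singleton_nonempty _)
        have hns : ¬ Maximal (fun s => s ∈ K) ({p.1.1} : Finset V) := by
          intro hm
          have h3 := hB _ hm
          have h4 : q.1.1 ∈ ({p.1.1} : Finset V) := by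
            rw [h3, ← e2]
            exact q.2.2
          rw [Finset.mem_singleton] at h4
          exact hne h4.symm
        obtain ⟨C, D, hCD, hC, hD, -⟩ := hK _ hs hns
        exact hCD ((hB C hC).trans (hB D hD).symm)
      exact Subtype.ext (Prod.ext e3 (e1.trans e2.symm))
    constructor
    · intro _
      rw [Setoid.eq_top_iff]
      intro p q
      rw [hsub p q]
    · intro _ f _ _
      exact Or.inl fun x y => hsub _ _
  · push Not at h1
    refine criterion_flags ?_ ?_
    · rintro U W ⟨x, hx⟩ hall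
      have hUW : U ⊆ W := fun t ht => (hall t ⟨hx.1, ht⟩).2
      have hW := (hall x hx).1
      exact Finset.Subset.antisymm hUW (hx.1.2 hW.1 hUW)
    · rintro U x ⟨hU, hxU⟩
      by_cases hne : (U.erase x).Nonempty
      · have hs : U.erase x ∈ K := face_mono K hU.1 (Finset.erase_subset x U) hne
        have hns : ¬ Maximal (fun s => s ∈ K) (U.erase x) := by
          intro hm
          have h3 := hm.2 hU.1 (Finset.erase_subset x U)
          exact (Finset.notMem_erase x U) (h3 hxU)
        obtain ⟨C, D, hCD, hC, hD, hsC, hsD⟩ := hK _ hs hns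
        have hex : ∃ W, W ≠ U ∧ Maximal (fun s => s ∈ K) W ∧ U.erase x ⊆ W := by
          by_cases hCU : C = U
          · refine ⟨D, ?_, hD, hsD⟩
            rw [← hCU]
            exact hCD.symm
          · exact ⟨C, hCU, hC, hsC⟩
        obtain ⟨W, hWU, hW, hsW⟩ := hex
        refine ⟨W, hWU, ?_, fun y hyx hy => ⟨hW, hsW (Finset.mem_erase.2 ⟨hyx, hy.2⟩)⟩⟩
        obtain ⟨y, hy⟩ := hne
        exact ⟨y, hW, hsW hy⟩
      · obtain ⟨W, hW, hWU⟩ := h1 U
        obtain ⟨y, hy⟩ := face_nonempty K hW.1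
        refine ⟨W, hWU, ⟨y, hW, hy⟩, fun z hzx hz => ?_⟩
        exact absurd ⟨z, Finset.mem_erase.2 ⟨hzx, hz.2⟩⟩ hne

end complexes

section matroids

variable {α : Type*}

/-- incidence of the elements and the bases of a matroid -/
def MInc (M : Matroid α) (e : α) (B : Set α) : Prop := M.IsBase B ∧ e ∈ B

/-- the criterion for matroids -/
theorem matroids [Finite α] (M : Matroid α) (hr : ∃ B, M.IsBase B ∧ 2 ≤ B.ncard) :
    PropertyP {sameFst (MInc M), sameSnd (MInc M)} ↔ ∀ e, ¬ M.IsColoop e := by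
  classical
  have := Fintype.ofFinite α
  obtain ⟨B0, hB0, hB0c⟩ := hr
  have hcard : ∀ B, M.IsBase B → 2 ≤ B.ncard := by
    intro B hB
    have h1 := hB.encard_eq_encard_of_isBase hB0
    rw [Set.ncard_def, h1, ← Set.ncard_def]
    exact hB0c
  constructor
  · intro hP e he
    have hT := tight_of_propertyP hP
    have heB : e ∈ B0 := he.mem_of_isBase hB0
    obtain ⟨f, hf, hfe⟩ := Set.exists_ne_of_one_lt_ncard (show 1 < B0.ncard by omega) e
    obtain ⟨u, hu1, hu2⟩ := hT.2.1 (⟨(f, B0), hB0, hf⟩ : Flag (MInc M)) ⟨(e, B0), hB0, heB⟩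
      (fun hh => hfe hh)
    rw [meets_iff] at hu1 hu2
    exact hu2 ⟨hu1.1, he.mem_of_isBase hu1.1⟩
  · intro hco
    have hex : ∀ B x, M.IsBase B → x ∈ B → ∃ y, y ∉ B ∧ M.IsBase (insert y (B \ {x})) := by
      intro B x hB hx
      have h1 := hco x
      rw [Matroid.isColoop_iff_forall_mem_isBase] at h1
      push Not at h1
      obtain ⟨C, hC, hxC⟩ := h1
      obtain ⟨y, hy, hy'⟩ := hB.exchange hC ⟨hx, hxC⟩
      exact ⟨y, hy.2, hy'⟩
    refine (criterion_flags ?_ ?_).2 ?_
    · rintro U W ⟨x, hx⟩ hall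
      exact hx.1.eq_of_subset_isBase (hall x hx).1 fun t ht => (hall t ⟨hx.1, ht⟩).2
    · rintro U x ⟨hU, hxU⟩
      obtain ⟨y, hyU, hy⟩ := hex U x hU hxU
      refine ⟨insert y (U \ {x}), ?_, ⟨y, hy, Set.mem_insert _ _⟩, fun z hzx hz => ⟨hy, ?_⟩⟩
      · intro h2
        apply hyU
        rw [← h2]
        exact Set.mem_insert _ _
      · exact Set.mem_insert_of_mem _ ⟨hz.2, hzx⟩
    · rw [Setoid.eq_top_iff]
      have key : ∀ k : ℕ, ∀ p q : Flag (MInc M), (p.1.2 \ q.1.2).ncard = k →
          (sameFst (MInc M) ⊔ sameSnd (MInc M)) p q := by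
        intro k
        induction k with
        | zero =>
          intro p q hk
          have h1 : p.1.2 \ q.1.2 = ∅ := (Set.ncard_eq_zero (Set.toFinite _)).1 hk
          have h2 : p.1.2 = q.1.2 := p.2.1.eq_of_subset_isBase q.2.1 (Set.sdiff_eq_empty.1 h1)
          have h3 : sameSnd (MInc M) ≤ sameFst (MInc M) ⊔ sameSnd (MInc M) := le_sup_right
          exact h3 h2
        | succ k ih =>
          intro p q hk
          have hne : (p.1.2 \ q.1.2).Nonempty := by
            rw [← Set.ncard_pos (Set.toFinite _)]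
            omega
          obtain ⟨x, hx⟩ := hne
          obtain ⟨y, hy, hy'⟩ := p.2.1.exchange q.2.1 hx
          obtain ⟨z, hz, hzx⟩ := Set.exists_ne_of_one_lt_ncard
            (show 1 < p.1.2.ncard by have := hcard _ p.2.1; omega) x
          have hz1 : MInc M z p.1.2 := ⟨p.2.1, hz⟩
          have hz2 : MInc M z (insert y (p.1.2 \ {x})) :=
            ⟨hy', Set.mem_insert_of_mem _ ⟨hz, hzx⟩⟩
          have h1 : sameFst (MInc M) ≤ sameFst (MInc M) ⊔ sameSnd (MInc M) := le_sup_left
          have h3 : sameSnd (MInc M) ≤ sameFst (MInc M) ⊔ sameSnd (MInc M) := le_sup_right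
          have e1 : (sameFst (MInc M) ⊔ sameSnd (MInc M)) p ⟨(z, p.1.2), hz1⟩ := h3 rfl
          have e2 : (sameFst (MInc M) ⊔ sameSnd (MInc M)) (⟨(z, p.1.2), hz1⟩ : Flag (MInc M))
            ⟨(z, insert y (p.1.2 \ {x})), hz2⟩ := h1 rfl
          have e3 := ih ⟨(z, insert y (p.1.2 \ {x})), hz2⟩ q (by
            have h4 : insert y (p.1.2 \ {x}) \ q.1.2 = (p.1.2 \ q.1.2) \ {x} := by
              ext t
              constructor
              · rintro ⟨rfl | ht, ht2⟩
                · exact absurd hy.1 ht2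
                · exact ⟨⟨ht.1, ht2⟩, ht.2⟩
              · rintro ⟨⟨ht1, ht2⟩, ht3⟩
                exact ⟨Or.inr ⟨ht1, ht3⟩, ht2⟩
            change (insert y (p.1.2 \ {x}) \ q.1.2).ncard = k
            rw [h4]
            have h5 := Set.ncard_sdiff_singleton_add_one hx (Set.toFinite _)
            omega)
          exact Setoid.trans' _ (Setoid.trans' _ e1 e2) e3
      intro p q
      exact key _ p q rfl

end matroids

end Pool.Agent.Helper74.Idem
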