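import Mathlib
import Pool.Agent.Helper74.Idem.Chamber

set_option autoImplicit false

/-!
Finite groups generated by involutions.
-/

namespace Pool.Agent.Helper74.Idem.InvGroup

open Classical
open Pool.Agent.Helper70.IdemDefs Pool.Agent.Helper74.Idem.ChamberDefs
open Pool.Agent.Helper74.Idem.Chamber

variable {G : Type*} [Group G]

/-- the partition of `G` into the left cosets `{x, x * s}` -/
abbrev rl (s : G) : Setoid G := QuotientGroup.leftRel (Subgroup.zpowers s)

lemma sq_of {s : G} (hs : orderOf s = 2) : s * s = 1 := by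
  have := pow_orderOf_eq_one s
  rwa [hs, pow_two] at this

lemma ne_one_of {s : G} (hs : orderOf s = 2) : s ≠ 1 := by
  intro h
  rw [h, orderOf_one] at hs
  omega

lemma rl_iff {s : G} (hs : orderOf s = 2) (x y : G) : rl s x y ↔ y = x ∨ y = x * s := by
  show QuotientGroup.leftRel (Subgroup.zpowers s) x y ↔ _
  rw [QuotientGroup.leftRel_apply, Subgroup.mem_zpowers_iff]
  constructor
  · rintro ⟨k, hk⟩
    have h2 : s ^ (2 : ℤ) = 1 := by
      rw [zpow_ofNat, pow_two]; exact sq_of hs
    rcases Int.even_or_odd' k with ⟨m, hm | hm⟩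
    · left
      rw [hm, zpow_mul, h2, one_zpow] at hk
      have := congrArg (fun w => x * w) hk
      simpa using this.symm
    · right
      rw [hm, zpow_add, zpow_mul, h2, one_zpow, one_mul, zpow_one] at hk
      rw [hk]; group
  · rintro (h | h)
    · exact ⟨0, by rw [h]; group⟩
    · exact ⟨1, by rw [h]; group⟩

lemma rl_inj {s t : G} (hs : orderOf s = 2) (ht : orderOf t = 2) (h : rl s = rl t) : s = t := by
  have h1 : rl s 1 s := (rl_iff hs 1 s).mpr (Or.inr (one_mul s).symm)
  rw [h] at h1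
  rcases (rl_iff ht 1 s).mp h1 with h2 | h2
  · exact (ne_one_of hs h2).elim
  · rw [h2, one_mul]

lemma rl_comm {a b : G} (ha : orderOf a = 2) (hb : orderOf b = 2) :
    Commuting (rl a) (rl b) ↔ a * b = b * a := by
  constructor
  · intro h
    obtain ⟨w, h1, h2⟩ := h a 1 b ((rl_iff ha a 1).mpr (Or.inr (sq_of ha).symm))
      ((rl_iff hb 1 b).mpr (Or.inr (one_mul b).symm))
    rcases (rl_iff hb a w).mp h1 with h3 | h3
    · rw [h3] at h2
      rcases (rl_iff ha a b).mp h2 with h4 | h4
      · rw [h4]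
      · rw [sq_of ha] at h4
        exact (ne_one_of hb h4).elim
    · rw [h3] at h2
      rcases (rl_iff ha (a * b) b).mp h2 with h4 | h4
      · exact (ne_one_of ha (mul_eq_right.mp h4.symm)).elim
      · calc a * b = a * b * (a * a) := by rw [sq_of ha, mul_one]
          _ = (a * b * a) * a := by group
          _ = b * a := by rw [← h4]
  · intro h x y z hxy hyz
    rcases (rl_iff ha x y).mp hxy with h1 | h1
    · rw [h1] at hyz
      exact ⟨z, hyz, (rl a).refl z⟩
    · rcases (rl_iff hb y z).mp hyz with h2 | h2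
      · exact ⟨x, (rl b).refl x, by rw [h2]; exact hxy⟩
      · refine ⟨x * b, (rl_iff hb _ _).mpr (Or.inr rfl), (rl_iff ha _ _).mpr (Or.inr ?_)⟩
        rw [h2, h1, mul_assoc, mul_assoc, h]

lemma join_iff {S : Set G} (hS : ∀ s ∈ S, orderOf s = 2) (x y : G) :
    (sSup (rl '' S)) x y ↔ x⁻¹ * y ∈ Subgroup.closure S := by
  constructor
  · intro h
    have h1 : sSup (rl '' S) ≤ QuotientGroup.leftRel (Subgroup.closure S) := by
      refine sSup_le ?_
      rintro _ ⟨s, hs, rfl⟩ a b hab
      rw [QuotientGroup.leftRel_apply]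
      rcases (rl_iff (hS s hs) a b).mp hab with h2 | h2
      · rw [h2, inv_mul_cancel]; exact Subgroup.one_mem _
      · rw [h2, inv_mul_cancel_left]; exact Subgroup.subset_closure hs
    have h2 := h1 h
    rwa [QuotientGroup.leftRel_apply] at h2
  · intro h
    have key : ∀ g ∈ Subgroup.closure S, ∀ x, (sSup (rl '' S)) x (x * g) := by
      intro g hg
      induction hg using Subgroup.closure_induction with
      | mem s hs =>
        intro x
        exact mem_join (F := rl '' S) ⟨s, hs, rfl⟩ ((rl_iff (hS s hs) _ _).mpr (Or.inr rfl))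
      | one => intro x; rw [mul_one]
      | mul a b _ _ iha ihb =>
        intro x
        have := (sSup (rl '' S)).trans (iha x) (ihb (x * a))
        rwa [mul_assoc] at this
      | inv a _ iha =>
        intro x
        have := (sSup (rl '' S)).symm (iha (x * a⁻¹))
        rwa [inv_mul_cancel_right] at this
    have := key _ h x
    rwa [mul_inv_cancel_left] at this

lemma splits_iff {S : Set G} (hS : ∀ s ∈ S, orderOf s = 2) :
    Splits (rl '' S) ↔ ∃ S₁ S₂ : Set G, S₁.Nonempty ∧ S₂.Nonempty ∧ S₁ ∪ S₂ = S ∧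
      (∀ a ∈ S₁, ∀ b ∈ S₂, a * b = b * a) ∧
      Subgroup.closure S₁ ⊓ Subgroup.closure S₂ = ⊥ := by
  constructor
  · rintro ⟨F₁, F₂, hF1, hF2, hU, hc, hm⟩
    have him : ∀ {F' : Set (Setoid G)}, F' ⊆ rl '' S → rl '' {s | s ∈ S ∧ rl s ∈ F'} = F' := by
      intro F' hF'
      ext θ
      constructor
      · rintro ⟨s, ⟨_, hs⟩, rfl⟩
        exact hs
      · intro hθ
        obtain ⟨s, hs, rfl⟩ := hF' hθ
        exact ⟨s, ⟨hs, hθ⟩, rfl⟩
    have i1 := him (F' := F₁) (by rw [← hU]; exact Set.subset_union_left)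
    have i2 := him (F' := F₂) (by rw [← hU]; exact Set.subset_union_right)
    refine ⟨{s | s ∈ S ∧ rl s ∈ F₁}, {s | s ∈ S ∧ rl s ∈ F₂}, ?_, ?_, ?_, ?_, ?_⟩
    · rw [← i1] at hF1
      exact Set.image_nonempty.mp hF1
    · rw [← i2] at hF2
      exact Set.image_nonempty.mp hF2
    · ext s
      constructor
      · rintro (h | h)
        · exact h.1
        · exact h.1
      · intro hs
        have h1 : rl s ∈ F₁ ∪ F₂ := by rw [hU]; exact ⟨s, hs, rfl⟩
        rcases h1 with h1 | h1
        · exact Or.inl ⟨hs, h1⟩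
        · exact Or.inr ⟨hs, h1⟩
    · rintro a ⟨ha, ha'⟩ b ⟨hb, hb'⟩
      exact (rl_comm (hS a ha) (hS b hb)).mp (hc _ ha' _ hb')
    · rw [eq_bot_iff]
      rintro g ⟨h1, h2⟩
      have e1 : (sSup F₁) 1 g := by
        rw [← i1, join_iff (fun s hs => hS s hs.1)]
        simpa using h1
      have e2 : (sSup F₂) 1 g := by
        rw [← i2, join_iff (fun s hs => hS s hs.1)]
        simpa using h2
      have h3 : (sSup F₁ ⊓ sSup F₂) 1 g := ⟨e1, e2⟩
      rw [hm] at h3
      exact Subgroup.mem_bot.mpr (show (1 : G) = g from h3).symm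
  · rintro ⟨S₁, S₂, h1, h2, hU, hc, hm⟩
    have hS1 : ∀ s ∈ S₁, orderOf s = 2 := fun s hs => hS s (hU ▸ Or.inl hs)
    have hS2 : ∀ s ∈ S₂, orderOf s = 2 := fun s hs => hS s (hU ▸ Or.inr hs)
    refine ⟨rl '' S₁, rl '' S₂, h1.image _, h2.image _, ?_, ?_, ?_⟩
    · rw [← Set.image_union, hU]
    · rintro _ ⟨a, ha, rfl⟩ _ ⟨b, hb, rfl⟩
      exact (rl_comm (hS1 a ha) (hS2 b hb)).mpr (hc a ha b hb)
    · rw [eq_bot_iff]
      rintro x y ⟨h3, h4⟩
      have e1 := (join_iff hS1 x y).mp h3
      have e2 := (join_iff hS2 x y).mp h4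
      have e3 : x⁻¹ * y ∈ Subgroup.closure S₁ ⊓ Subgroup.closure S₂ := ⟨e1, e2⟩
      rw [hm, Subgroup.mem_bot] at e3
      show x = y
      exact (inv_mul_eq_one.mp e3)

/-- Let `S` be a set of involutions of a finite group `G`. The partitions of `G` into the left
cosets of the subgroups of order two generated by the members of `S` form a family with property
(P) if and only if `S` generates `G`, has at least two elements, and is not the union of two
nonempty elementwise commuting subsets which generate subgroups with trivial intersection. -/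
theorem group_main [Finite G] [Nontrivial G] (S : Set G) (hS : ∀ s ∈ S, orderOf s = 2) :
    PropertyP ((fun s => QuotientGroup.leftRel (Subgroup.zpowers s)) '' S) ↔
      Subgroup.closure S = ⊤ ∧ S.Nontrivial ∧
      ¬ ∃ S₁ S₂ : Set G, S₁.Nonempty ∧ S₂.Nonempty ∧ S₁ ∪ S₂ = S ∧
        (∀ a ∈ S₁, ∀ b ∈ S₂, a * b = b * a) ∧
        Subgroup.closure S₁ ⊓ Subgroup.closure S₂ = ⊥ := by
  have h0 := main_thin (rl '' S) (by
    rintro _ ⟨s, hs, rfl⟩ x
    refine ⟨x * s, ⟨?_, (rl_iff (hS s hs) _ _).mpr (Or.inr rfl)⟩, ?_⟩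
    · intro h
      exact ne_one_of (hS s hs) (mul_eq_left.mp h)
    · rintro y ⟨hy, hxy⟩
      rcases (rl_iff (hS s hs) x y).mp hxy with h | h
      · exact (hy h).elim
      · exact h) (by
    rintro _ ⟨s, hs, rfl⟩ _ ⟨t, ht, rfl⟩ hne
    rw [eq_bot_iff]
    rintro x y ⟨h1, h2⟩
    show x = y
    rcases (rl_iff (hS s hs) x y).mp h1 with h | h
    · exact h.symm
    · rcases (rl_iff (hS t ht) x y).mp h2 with h' | h'
      · exact h'.symm
      · rw [h] at h'
        have : s = t := mul_left_cancel h'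
        rw [this] at hne
        exact (hne rfl).elim)
  show PropertyP (rl '' S) ↔ _
  rw [h0, ← splits_iff hS]
  have e1 : sSup (rl '' S) = ⊤ ↔ Subgroup.closure S = ⊤ := by
    constructor
    · intro h
      rw [eq_top_iff]
      intro g _
      have h1 : (sSup (rl '' S)) 1 g := by rw [h]; trivial
      simpa using (join_iff hS 1 g).mp h1
    · intro h
      rw [eq_top_iff]
      intro x y _
      rw [join_iff hS, h]
      trivial
  have e2 : (rl '' S).Nontrivial ↔ S.Nontrivial := by
    constructor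
    · rintro ⟨_, ⟨s, hs, rfl⟩, _, ⟨t, ht, rfl⟩, hne⟩
      exact ⟨s, hs, t, ht, fun he => hne (by rw [he])⟩
    · rintro ⟨s, hs, t, ht, hne⟩
      exact ⟨rl s, ⟨s, hs, rfl⟩, rl t, ⟨t, ht, rfl⟩,
        fun h => hne (rl_inj (hS s hs) (hS t ht) h)⟩
  rw [e1, e2]

end Pool.Agent.Helper74.Idem.InvGroup
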